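import Pool.Agent.Lib.MP_7d5b89_lc.Defs

set_option autoImplicit false

open Filter Topology

/-! A1. Toeplitz subshifts and their pieces. -/

namespace Pool.MP_7d5b89_lc.Amen

theorem a1_sh_zero (y : Seq) : sh 0 y = y := by
  funext i; simp [sh]

theorem a1_sh_sh (a b : ℤ) (y : Seq) : sh a (sh b y) = sh (a + b) y := by
  funext i; simp [sh, add_assoc]

theorem a1_cont (k : ℤ) : Continuous (sh k) :=
  continuous_pi fun i => continuous_apply (i + k)

/-- the shift as a homeomorphism -/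
def a1_homeo (k : ℤ) : Seq ≃ₜ Seq where
  toFun := sh k
  invFun := sh (-k)
  left_inv y := by rw [a1_sh_sh]; simp [a1_sh_zero]
  right_inv y := by rw [a1_sh_sh]; simp [a1_sh_zero]
  continuous_toFun := a1_cont k
  continuous_invFun := a1_cont (-k)

theorem a1_image_closure (k : ℤ) (A : Set Seq) : sh k '' closure A = closure (sh k '' A) :=
  (a1_homeo k).image_closure A

/-- membership in a closure through finite windows -/
theorem a1_mem_closure (A : Set Seq) (x : Seq) :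
    x ∈ closure A ↔ ∀ n : ℕ, ∃ y ∈ A, ∀ i : ℤ, |i| ≤ n → y i = x i := by
  constructor
  · intro h n
    have hopen : IsOpen {y : Seq | ∀ i ∈ Finset.Icc (-(n : ℤ)) n, y i = x i} := by
      have : {y : Seq | ∀ i ∈ Finset.Icc (-(n : ℤ)) n, y i = x i} =
          ⋂ i ∈ Finset.Icc (-(n : ℤ)) n, {y : Seq | y i = x i} := by
        ext y; simp
      rw [this]
      refine isOpen_biInter_finset fun i _ => ?_
      exact (isOpen_discrete ({x i} : Set Bool)).preimage (continuous_apply (A := fun _ : ℤ => Bool) i)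
    obtain ⟨y, hy1, hy2⟩ := mem_closure_iff.1 h _ hopen (fun i _ => rfl)
    refine ⟨y, hy2, fun i hi => hy1 i ?_⟩
    rw [Finset.mem_Icc]
    exact ⟨by linarith [neg_abs_le i], le_trans (le_abs_self i) hi⟩
  · intro h
    rw [mem_closure_iff]
    intro o ho hx
    obtain ⟨I, u, h1, h2⟩ := isOpen_pi_iff.1 ho x hx
    obtain ⟨n, hn⟩ : ∃ n : ℕ, ∀ i ∈ I, |i| ≤ n := by
      refine ⟨I.sup Int.natAbs, fun i hi => ?_⟩
      have := Finset.le_sup (f := Int.natAbs) hi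
      rw [Int.abs_eq_natAbs]
      exact_mod_cast this
    obtain ⟨y, hy, hy2⟩ := h n
    refine ⟨y, h2 ?_, hy⟩
    intro i hi
    rw [hy2 i (hn i hi)]
    exact (h1 i hi).2

theorem a1_mem (p : ℕ) (y : Seq) : y ∈ pc p y :=
  subset_closure ⟨0, by simp [a1_sh_zero]⟩

theorem a1_closed {X : Set Seq} (hX : X ∈ T) : IsClosed X := by
  obtain ⟨x, _, rfl⟩ := hX
  exact isClosed_closure

theorem a1_nonempty {X : Set Seq} (hX : X ∈ T) : X.Nonempty := by
  obtain ⟨x, _, rfl⟩ := hX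
  exact ⟨x, subset_closure ⟨0, by simp⟩⟩

theorem a1_orb_eq (x : Seq) : orb x = closure (Set.range fun m : ℤ => sh m x) := rfl

theorem a1_sh_orb (x : Seq) {y : Seq} (hy : y ∈ orb x) (k : ℤ) : sh k y ∈ orb x := by
  have h : sh k y ∈ sh k '' closure (Set.range fun m : ℤ => sh m x) := ⟨y, hy, rfl⟩
  rw [a1_image_closure] at h
  refine closure_mono ?_ h
  rintro _ ⟨_, ⟨m, rfl⟩, rfl⟩
  exact ⟨k + m, by simp only [a1_sh_sh]; rfl⟩

theorem a1_sh {X : Set Seq} (hX : X ∈ T) {y : Seq} (hy : y ∈ X) (k : ℤ) : sh k y ∈ X := by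
  obtain ⟨x, _, rfl⟩ := hX
  exact a1_sh_orb x hy k

/-- the pieces of shifts are images -/
theorem a1_pc_image (p : ℕ) (y : Seq) (i : ℤ) : pc p (sh i y) = sh i '' pc p y := by
  unfold pc
  rw [a1_image_closure]
  congr 1
  ext z
  constructor
  · rintro ⟨k, rfl⟩
    exact ⟨sh (k * p) y, ⟨k, rfl⟩, by simp only [a1_sh_sh]; congr 1; ring⟩
  · rintro ⟨_, ⟨k, rfl⟩, rfl⟩
    exact ⟨k, by simp only [a1_sh_sh]; congr 1; ring⟩

theorem a1_pc_sh (p : ℕ) (y z : Seq) (i : ℤ) (h : pc p y = pc p z) :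
    pc p (sh i y) = pc p (sh i z) := by
  rw [a1_pc_image, a1_pc_image, h]

theorem a1_pc_per (p : ℕ) (y : Seq) (k : ℤ) : pc p (sh (k * p) y) = pc p y := by
  unfold pc
  congr 1
  ext z
  constructor
  · rintro ⟨l, rfl⟩
    exact ⟨l + k, by simp only [a1_sh_sh]; congr 1; ring⟩
  · rintro ⟨l, rfl⟩
    exact ⟨l - k, by simp only [a1_sh_sh]; congr 1; ring⟩

theorem a1_pc_mono (p : ℕ) (y : Seq) {z : Seq} (hz : z ∈ pc p y) : pc p z ⊆ pc p y := by
  refine closure_minimal ?_ isClosed_closure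
  rintro _ ⟨k, rfl⟩
  have h : sh (k * p) z ∈ pc p (sh (k * p) y) := by
    rw [a1_pc_image]; exact ⟨z, hz, rfl⟩
  rw [a1_pc_per] at h
  exact h

theorem a1_toep_sh {x : Seq} (hx : IsToeplitz x) (k : ℤ) : IsToeplitz (sh k x) := by
  refine ⟨fun n => ?_, fun p hp => ?_⟩
  · obtain ⟨p, hp, h⟩ := hx.1 (n + k)
    refine ⟨p, hp, fun l => ?_⟩
    have := h l
    simp only [sh]
    rw [← this]; congr 1; ring
  · obtain ⟨n, hn⟩ := hx.2 p hp
    refine ⟨n - k, ?_⟩
    simp only [sh]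
    intro h
    apply hn
    have e1 : n + p = n - k + p + k := by ring
    have e2 : n = n - k + k := by ring
    rw [e1, h]; congr 1; ring

/-- common period on a window -/
theorem a1_common {x : Seq} (hx : IsToeplitz x) (p : ℕ) (hp : 0 < p) (n : ℕ) :
    ∃ P : ℤ, 0 < P ∧ (p : ℤ) ∣ P ∧ ∀ i : ℤ, |i| ≤ n → ∀ k : ℤ, x (i + k * P) = x i := by
  choose q hq hq2 using hx.1
  refine ⟨p * ∏ i ∈ Finset.Icc (-(n : ℤ)) n, q i, ?_, Dvd.intro _ rfl, ?_⟩
  · exact mul_pos (by exact_mod_cast hp) (Finset.prod_pos fun i _ => hq i)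
  · intro i hi k
    have hi2 : i ∈ Finset.Icc (-(n : ℤ)) n := by
      rw [Finset.mem_Icc]
      exact ⟨by linarith [neg_abs_le i], le_trans (le_abs_self i) hi⟩
    obtain ⟨c, hc⟩ := Finset.dvd_prod_of_mem q hi2
    rw [hc]
    have : i + k * (p * (q i * c)) = i + (k * p * c) * q i := by ring
    rw [this]
    exact hq2 i _

theorem a1_min {x : Seq} (hx : IsToeplitz x) (p : ℕ) (hp : 0 < p) {z : Seq} (hz : z ∈ pc p x) :
    x ∈ pc p z := by
  unfold pc
  rw [a1_mem_closure]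
  intro n
  obtain ⟨P, hP, ⟨c, hc⟩, hper⟩ := a1_common hx p hp n
  have hz' := (a1_mem_closure _ _).1 hz (n + P.toNat)
  obtain ⟨_, ⟨k, rfl⟩, hk⟩ := hz'
  -- a = k p mod P
  have hcp : 0 < c := by
    by_contra h
    have h1 : c ≤ 0 := by omega
    have : (p : ℤ) * c ≤ 0 := mul_nonpos_of_nonneg_of_nonpos (by positivity) h1
    omega
  set a : ℤ := (k * p) % P with ha
  have ha0 : 0 ≤ a := Int.emod_nonneg _ hP.ne'
  have haP : a < P := Int.emod_lt_of_pos _ hP
  have hdiv : (p : ℤ) ∣ a := by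
    rw [ha, Int.emod_def, hc]
    exact Dvd.intro (k - c * (k * p / (p * c))) (by ring)
  obtain ⟨b, hb⟩ := hdiv
  refine ⟨sh ((c - b) * p) z, ⟨c - b, rfl⟩, fun i hi => ?_⟩
  have e1 : (c - b) * (p : ℤ) = P - a := by rw [hb, hc]; ring
  have h3 : |i + (P - a)| ≤ ((n + P.toNat : ℕ) : ℤ) := by
    push_cast
    have : (P.toNat : ℤ) = P := Int.toNat_of_nonneg hP.le
    rw [this]
    calc |i + (P - a)| ≤ |i| + |P - a| := abs_add_le _ _
      _ ≤ n + P := by
        rw [abs_of_nonneg (by omega : 0 ≤ P - a)]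
        omega
  have h4 := hk _ h3
  simp only [sh] at h4 ⊢
  rw [e1, ← h4]
  have e2 : i + (P - a) + k * p = i + (1 + (k * p) / P) * P := by
    have := Int.emod_add_mul_ediv (k * p) P
    rw [ha]
    linarith [this, mul_comm P (k * p / P)]
  rw [e2]
  exact hper i hi _

theorem a1_min_eq {x : Seq} (hx : IsToeplitz x) (p : ℕ) (hp : 0 < p) {z : Seq}
    (hz : z ∈ pc p x) : pc p z = pc p x :=
  Set.Subset.antisymm (a1_pc_mono p x hz) (a1_pc_mono p z (a1_min hx p hp hz))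

/-- the orbit closure is the union of the pieces -/
theorem a1_union (x : Seq) (p : ℕ) (hp : 0 < p) {y : Seq} (hy : y ∈ orb x) :
    ∃ j : ℤ, 0 ≤ j ∧ j < p ∧ y ∈ pc p (sh j x) := by
  have h1 : (Set.range fun m : ℤ => sh m x) =
      ⋃ j ∈ Finset.range p, Set.range fun k : ℤ => sh (k * p) (sh (j : ℤ) x) := by
    ext z
    simp only [Set.mem_range, Set.mem_iUnion, Finset.mem_range, exists_prop]
    constructor
    · rintro ⟨m, rfl⟩
      have hpz : (0 : ℤ) < p := by exact_mod_cast hp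
      refine ⟨(m % p).toNat, ?_, m / p, ?_⟩
      · have := Int.emod_lt_of_pos m hpz
        have h0 := Int.emod_nonneg m hpz.ne'
        omega
      · rw [a1_sh_sh, Int.toNat_of_nonneg (Int.emod_nonneg m hpz.ne')]
        congr 1
        have := Int.emod_add_mul_ediv m p
        linarith [this, mul_comm (p : ℤ) (m / p)]
    · rintro ⟨j, _, k, rfl⟩
      exact ⟨k * p + j, by rw [a1_sh_sh]⟩
  rw [a1_orb_eq, h1, Finset.closure_biUnion] at hy
  simp only [Set.mem_iUnion, Finset.mem_range, exists_prop] at hy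
  obtain ⟨j, hj, hy⟩ := hy
  exact ⟨j, by positivity, by exact_mod_cast hj, hy⟩

theorem a1_pc_sub_orb (p : ℕ) (x : Seq) : pc p x ⊆ orb x := by
  refine closure_mono ?_
  rintro _ ⟨k, rfl⟩
  exact ⟨k * p, rfl⟩

theorem a1_orb_mono (x : Seq) {y : Seq} (hy : y ∈ orb x) : orb y ⊆ orb x := by
  refine closure_minimal ?_ isClosed_closure
  rintro _ ⟨k, rfl⟩
  exact a1_sh_orb x hy k

theorem a1_orb_sh (x : Seq) (j : ℤ) : orb (sh j x) = orb x := by
  refine Set.Subset.antisymm (a1_orb_mono x (a1_sh_orb x (subset_closure ⟨0, by simp⟩) j)) ?_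
  refine a1_orb_mono (sh j x) ?_
  have := a1_sh_orb (sh j x) (y := sh j x) (subset_closure ⟨0, by simp⟩) (-j)
  rwa [a1_sh_sh, neg_add_cancel, a1_sh_zero] at this

theorem a1_toep {X : Set Seq} (hX : X ∈ T) (p : ℕ) [NeZero p] {y : Seq} (hy : y ∈ X) :
    ∃ x : Seq, IsToeplitz x ∧ orb x = X ∧ pc p x = pc p y := by
  obtain ⟨x, hx, rfl⟩ := hX
  have hp : 0 < p := Nat.pos_of_ne_zero (NeZero.ne p)
  obtain ⟨j, _, _, hj⟩ := a1_union x p hp hy
  exact ⟨sh j x, a1_toep_sh hx j, a1_orb_sh x j, (a1_min_eq (a1_toep_sh hx j) p hp hj).symm⟩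

theorem a1_orb {X : Set Seq} (hX : X ∈ T) {y : Seq} (hy : y ∈ X) : orb y = X := by
  obtain ⟨x, hx, hxX, hpc⟩ := a1_toep hX 1 hy
  subst hxX
  refine Set.Subset.antisymm (a1_orb_mono x hy) (a1_orb_mono y ?_)
  refine a1_pc_sub_orb 1 y ?_
  rw [← hpc]
  exact a1_mem 1 x

theorem a1_piece {X : Set Seq} (hX : X ∈ T) (p : ℕ) [NeZero p] {y z : Seq} (hy : y ∈ X)
    (hz : z ∈ X) : ∃ j : ℤ, pc p z = pc p (sh j y) := by
  obtain ⟨x, hx, hxX, hpc⟩ := a1_toep hX p hy
  have hp : 0 < p := Nat.pos_of_ne_zero (NeZero.ne p)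
  subst hxX
  obtain ⟨j, _, _, hj⟩ := a1_union x p hp hz
  refine ⟨j, ?_⟩
  rw [a1_min_eq (a1_toep_sh hx j) p hp hj]
  exact a1_pc_sh p x y j hpc

end Pool.MP_7d5b89_lc.Amen
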