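import Pool.Agent.Lib.MP_7d5b89_lc.A1

set_option autoImplicit false

open Filter Topology

/-! A4. Curtis-Hedlund-Lyndon. -/

namespace Pool.MP_7d5b89_lc.Amen

theorem a4_window_nhds (x : Seq) (F : Finset ℤ) : {y : Seq | ∀ i ∈ F, y i = x i} ∈ 𝓝 x := by
  have hopen : IsOpen {y : Seq | ∀ i ∈ F, y i = x i} := by
    have : {y : Seq | ∀ i ∈ F, y i = x i} = ⋂ i ∈ F, {y : Seq | y i = x i} := by
      ext y; simp
    rw [this]
    refine isOpen_biInter_finset fun i _ => ?_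
    exact (isOpen_discrete ({x i} : Set Bool)).preimage (continuous_apply (A := fun _ : ℤ => Bool) i)
  exact hopen.mem_nhds (fun i _ => rfl)

theorem a4_nhds {x : Seq} {U : Set Seq} (hU : U ∈ 𝓝 x) :
    ∃ n : ℕ, ∀ y : Seq, (∀ i : ℤ, |i| ≤ n → y i = x i) → y ∈ U := by
  obtain ⟨o, hoU, ho, hx⟩ := mem_nhds_iff.1 hU
  obtain ⟨I, u, h1, h2⟩ := isOpen_pi_iff.1 ho x hx
  obtain ⟨n, hn⟩ : ∃ n : ℕ, ∀ i ∈ I, |i| ≤ n := by
    refine ⟨I.sup Int.natAbs, fun i hi => ?_⟩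
    have := Finset.le_sup (f := Int.natAbs) hi
    rw [Int.abs_eq_natAbs]
    exact_mod_cast this
  refine ⟨n, fun y hy => hoU (h2 ?_)⟩
  intro i hi
  rw [hy i (hn i hi)]
  exact (h1 i hi).2

/-- uniform locality of coordinate `0` on a compact set -/
theorem a4_loc {K : Set Seq} (hK : IsCompact K) {g : Seq → Seq} (hg : ContinuousOn g K) :
    ∃ r : ℕ, ∀ x ∈ K, ∀ y ∈ K, (∀ j : ℤ, |j| ≤ r → x j = y j) → g x 0 = g y 0 := by
  have key : ∃ r : ℕ, ∀ x ∈ K, x ∈ K → ∀ y ∈ K, (∀ j : ℤ, |j| ≤ r → x j = y j) →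
      g x 0 = g y 0 := by
    refine IsCompact.induction_on (p := fun s => ∃ r : ℕ, ∀ x ∈ s, x ∈ K → ∀ y ∈ K,
      (∀ j : ℤ, |j| ≤ r → x j = y j) → g x 0 = g y 0) hK ?_ ?_ ?_ ?_
    · exact ⟨0, fun x hx => absurd hx (Set.notMem_empty x)⟩
    · rintro s t hst ⟨r, hr⟩
      exact ⟨r, fun x hx => hr x (hst hx)⟩
    · rintro s t ⟨r, hr⟩ ⟨r', hr'⟩
      refine ⟨max r r', ?_⟩
      rintro x (hx | hx) hxK y hy hxy
      · exact hr x hx hxK y hy (fun j hj => hxy j (by push_cast; exact le_trans hj (le_max_left _ _)))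
      · exact hr' x hx hxK y hy
          (fun j hj => hxy j (by push_cast; exact le_trans hj (le_max_right _ _)))
    · intro x hx
      have h1 : ContinuousWithinAt (fun y => g y 0) K x :=
        ((continuous_apply (A := fun _ : ℤ => Bool) 0).continuousAt.comp_continuousWithinAt
          (hg x hx))
      have h2 : {y | g y 0 = g x 0} ∈ 𝓝[K] x := by
        have : (fun y => g y 0) ⁻¹' {g x 0} ∈ 𝓝[K] x :=
          h1 ((isOpen_discrete ({g x 0} : Set Bool)).mem_nhds rfl)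
        exact this
      obtain ⟨U, hU, hUs⟩ := mem_nhdsWithin_iff_exists_mem_nhds_inter.1 h2
      obtain ⟨n, hn⟩ := a4_nhds hU
      refine ⟨{y | ∀ i ∈ Finset.Icc (-(n : ℤ)) n, y i = x i},
        mem_nhdsWithin_of_mem_nhds (a4_window_nhds x _), n, ?_⟩
      intro x' hx' hx'K y hy hxy
      have e : ∀ i : ℤ, |i| ≤ n → x' i = x i := fun i hi => hx' i (by
        rw [Finset.mem_Icc]
        exact ⟨by linarith [neg_abs_le i], le_trans (le_abs_self i) hi⟩)
      have h3 : g x' 0 = g x 0 := hUs ⟨hn x' e, hx'K⟩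
      have h4 : g y 0 = g x 0 := hUs ⟨hn y (fun i hi => by rw [← hxy i hi]; exact e i hi), hy⟩
      rw [h3, h4]
  obtain ⟨r, hr⟩ := key
  exact ⟨r, fun x hx => hr x hx hx⟩

theorem a4_eqv {X : Set Seq} (hX : ∀ x ∈ X, ∀ k, sh k x ∈ X) {φ : Seq → Seq}
    (h : ∀ y ∈ X, φ (fun i => y (i + 1)) = (fun i => φ y (i + 1))) :
    ∀ x ∈ X, ∀ k : ℤ, φ (sh k x) = sh k (φ x) := by
  intro x hx k
  induction k using Int.induction_on with
  | zero => simp [a1_sh_zero]
  | succ k ih =>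
    have h1 := h (sh k x) (hX x hx k)
    have h2 : (fun i => sh (k : ℤ) x (i + 1)) = sh ((k : ℤ) + 1) x := by
      funext i; simp only [sh]; congr 1; ring
    rw [h2] at h1
    rw [h1, ih]
    funext i; simp only [sh]; congr 1; ring
  | pred k ih =>
    have h1 := h (sh (-(k : ℤ) - 1) x) (hX x hx _)
    have h2 : (fun i => sh (-(k : ℤ) - 1) x (i + 1)) = sh (-(k : ℤ)) x := by
      funext i; simp only [sh]; congr 1; ring
    rw [h2, ih] at h1
    funext i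
    have h3 := congrFun h1 (i - 1)
    simp only [sh, sub_add_cancel] at h3 ⊢
    rw [← h3]; congr 1; ring

theorem a4_invFun {X Z : Set Seq} (hX : IsCompact X) {φ : Seq → Seq} (hφ : ContinuousOn φ X)
    (hb : Set.BijOn φ X Z) : ∃ ψ : Seq → Seq, ContinuousOn ψ Z ∧ Set.BijOn ψ Z X ∧
      (∀ x ∈ X, ψ (φ x) = x) ∧ (∀ z ∈ Z, φ (ψ z) = z) := by
  classical
  have : CompactSpace X := isCompact_iff_compactSpace.1 hX
  let e : X ≃ Z := hb.equiv φ
  have he : Continuous e := by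
    have h1 : Continuous (fun x : X => φ x) := continuousOn_iff_continuous_domRestrict.1 hφ
    exact h1.subtype_mk _
  let H : X ≃ₜ Z := he.homeoOfEquivCompactToT2
  have hinv : ∀ x ∈ X, Function.invFunOn φ X (φ x) = x := fun x hx =>
    hb.injOn (Function.invFunOn_mem ⟨x, hx, rfl⟩) hx (Function.invFunOn_eq ⟨x, hx, rfl⟩)
  have hinv2 : ∀ z ∈ Z, φ (Function.invFunOn φ X z) = z := by
    intro z hz
    obtain ⟨x, hx, rfl⟩ := hb.surjOn hz
    exact Function.invFunOn_eq ⟨x, hx, rfl⟩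
  have hmem : ∀ z ∈ Z, Function.invFunOn φ X z ∈ X := by
    intro z hz
    obtain ⟨x, hx, rfl⟩ := hb.surjOn hz
    exact Function.invFunOn_mem ⟨x, hx, rfl⟩
  refine ⟨Function.invFunOn φ X, ?_, ⟨hmem, ?_, ?_⟩, hinv, hinv2⟩
  · rw [continuousOn_iff_continuous_domRestrict]
    have h1 : Set.domRestrict Z (Function.invFunOn φ X) = fun z => (H.symm z : Seq) := by
      funext z
      have h2 : (H.symm z : X) = ⟨Function.invFunOn φ X z, hmem z z.2⟩ := by
        rw [Homeomorph.symm_apply_eq]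
        apply Subtype.ext
        exact (hinv2 z z.2).symm
      rw [Set.domRestrict_apply, h2]
    rw [h1]
    exact continuous_subtype_val.comp H.symm.continuous
  · intro z hz z' hz' h
    have := congrArg φ h
    rwa [hinv2 z hz, hinv2 z' hz'] at this
  · intro x hx
    exact ⟨φ x, hb.mapsTo hx, hinv x hx⟩

theorem a4_compact {X : Set Seq} (hX : X ∈ T) : IsCompact X := (a1_closed hX).isCompact

theorem a4_code {X Z : Set Seq} (hX : X ∈ T) (hZ : Z ∈ T) (h : Conj X Z) :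
    ∃ r : ℕ, ∃ φ : Seq → Seq, IsCode r X Z φ := by
  obtain ⟨φ, hc, hb, he⟩ := h
  have heqv := a4_eqv (fun x hx k => a1_sh hX hx k) he
  obtain ⟨r1, h1⟩ := a4_loc (a4_compact hX) hc
  obtain ⟨ψ, hψc, hψb, hψφ, hφψ⟩ := a4_invFun (a4_compact hX) hc hb
  obtain ⟨r2, h2⟩ := a4_loc (a4_compact hZ) hψc
  refine ⟨max r1 r2, φ, hb, heqv, ?_, ?_⟩
  · intro x hx y hy i hxy
    have h3 := h1 (sh i x) (a1_sh hX hx i) (sh i y) (a1_sh hX hy i) (fun j hj => by
      simp only [sh]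
      rw [add_comm]
      exact hxy j (by push_cast; exact le_trans hj (le_max_left _ _)))
    rw [heqv x hx, heqv y hy] at h3
    simpa [sh] using h3
  · intro x hx y hy i hxy
    have h3 := h2 (sh i (φ x)) (a1_sh hZ (hb.mapsTo hx) i) (sh i (φ y))
      (a1_sh hZ (hb.mapsTo hy) i) (fun j hj => by
        simp only [sh]
        rw [add_comm]
        exact hxy j (by push_cast; exact le_trans hj (le_max_right _ _)))
    rw [← heqv x hx, ← heqv y hy, hψφ _ (a1_sh hX hx i), hψφ _ (a1_sh hX hy i)] at h3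
    simpa [sh] using h3

theorem a4_conj {X Z : Set Seq} {r : ℕ} {φ : Seq → Seq} (h : IsCode r X Z φ) : Conj X Z := by
  refine ⟨φ, ?_, h.bij, fun y hy => h.eqv y hy 1⟩
  refine continuousOn_pi.2 fun i => ?_
  intro x hx
  have h1 : ∀ᶠ y in 𝓝[X] x, φ x i = φ y i := by
    filter_upwards [self_mem_nhdsWithin,
      mem_nhdsWithin_of_mem_nhds (a4_window_nhds x (Finset.Icc (i - r) (i + r)))] with y hy hw
    refine h.loc x hx y hy i (fun j hj => (hw (i + j) ?_).symm)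
    rw [Finset.mem_Icc]
    have := abs_le.1 hj
    constructor <;> linarith [this.1, this.2]
  exact tendsto_const_nhds.congr' h1

theorem a4_inv {X Z : Set Seq} (hX : X ∈ T) {r : ℕ} {φ : Seq → Seq} (h : IsCode r X Z φ) :
    ∃ ψ : Seq → Seq, IsCode r Z X ψ ∧ (∀ x ∈ X, ψ (φ x) = x) ∧ ∀ z ∈ Z, φ (ψ z) = z := by
  obtain ⟨φ', hc, hb, _⟩ := a4_conj h
  have hinv : ∀ x ∈ X, Function.invFunOn φ X (φ x) = x := fun x hx =>
    h.bij.injOn (Function.invFunOn_mem ⟨x, hx, rfl⟩) hx (Function.invFunOn_eq ⟨x, hx, rfl⟩)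
  have hinv2 : ∀ z ∈ Z, φ (Function.invFunOn φ X z) = z := by
    intro z hz
    obtain ⟨x, hx, rfl⟩ := h.bij.surjOn hz
    exact Function.invFunOn_eq ⟨x, hx, rfl⟩
  have hmem : ∀ z ∈ Z, Function.invFunOn φ X z ∈ X := by
    intro z hz
    obtain ⟨x, hx, rfl⟩ := h.bij.surjOn hz
    exact Function.invFunOn_mem ⟨x, hx, rfl⟩
  refine ⟨Function.invFunOn φ X, ⟨⟨hmem, ?_, ?_⟩, ?_, ?_, ?_⟩, hinv, hinv2⟩
  · intro z hz z' hz' he
    have := congrArg φ he
    rwa [hinv2 z hz, hinv2 z' hz'] at this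
  · intro x hx
    exact ⟨φ x, h.bij.mapsTo hx, hinv x hx⟩
  · intro z hz k
    obtain ⟨x, hx, rfl⟩ := h.bij.surjOn hz
    rw [← h.eqv x hx k, hinv _ (a1_sh hX hx k), hinv x hx]
  · intro z hz z' hz' i hzz
    refine h.inv _ (hmem z hz) _ (hmem z' hz') i (fun j hj => ?_)
    rw [hinv2 z hz, hinv2 z' hz']
    exact hzz j hj
  · intro z hz z' hz' i hzz
    have := h.loc _ (hmem z hz) _ (hmem z' hz') i hzz
    rwa [hinv2 z hz, hinv2 z' hz'] at this

theorem a4_refl (X : Set Seq) : Conj X X :=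
  ⟨id, continuousOn_id, Set.bijOn_id X, fun _ _ => rfl⟩

theorem a4_symm {X Z : Set Seq} (hX : X ∈ T) (hZ : Z ∈ T) (h : Conj X Z) : Conj Z X := by
  obtain ⟨r, φ, hφ⟩ := a4_code hX hZ h
  obtain ⟨ψ, hψ, _⟩ := a4_inv hX hφ
  exact a4_conj hψ

theorem a4_trans {X Y Z : Set Seq} (h : Conj X Y) (h' : Conj Y Z) : Conj X Z := by
  obtain ⟨φ, hc, hb, he⟩ := h
  obtain ⟨φ', hc', hb', he'⟩ := h'
  refine ⟨φ' ∘ φ, hc'.comp hc hb.mapsTo, hb'.comp hb, fun y hy => ?_⟩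
  simp only [Function.comp]
  rw [he y hy, he' _ (hb.mapsTo hy)]

end Pool.MP_7d5b89_lc.Amen
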