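import Pool.Agent.Lib.MP_7d5b89_lc.A3
import Pool.Agent.Lib.MP_7d5b89_lc.A4

set_option autoImplicit false

open Filter Topology

/-! A7 (45 min). The measures mu. a7_pc: tgt p π i y depends only on pc p (sh i y) (a3_orb).
a7_sum: the denominator is positive because π = 1 is counted (tgt p 1 i y = orb (sh i y) = X by
a3_one, a1_orb, a1_sh and a4_refl). a7_tau: tgt p π i y' = tgt p (π * τ) i y, substitute
π ↦ π * τ in the counts. -/

namespace Pool.MP_7d5b89_lc.Amen

theorem a7_pc (R Q : Set Seq → Set Seq → Prop) (p : ℕ) [NeZero p] (X : Set Seq) {i i' : ℤ}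
    {y y' : Seq} (h : pc p (sh i y) = pc p (sh i' y')) (Z : Set Seq) :
    muG R Q p X i y Z = muG R Q p X i' y' Z := by
  have h1 : ∀ π : Equiv.Perm (ZMod p → Bool), tgt p π i y = tgt p π i' y' :=
    fun π => a3_orb p π h
  unfold muG
  congr 2
  · congr 1
    ext π
    simp only [Finset.mem_filter, h1]
  · congr 1
    ext π
    simp only [Finset.mem_filter, h1]

theorem a7_nonneg (R Q : Set Seq → Set Seq → Prop) (p : ℕ) [NeZero p] (X : Set Seq) (i : ℤ)
    (y : Seq) (Z : Set Seq) : 0 ≤ muG R Q p X i y Z := by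
  unfold muG
  positivity

theorem a7_supp (p : ℕ) [NeZero p] (X : Set Seq) (i : ℤ) (y : Seq) (Z : Set Seq)
    (h : mu p X i y Z ≠ 0) : Conj X Z ∧ ∃ π : Equiv.Perm (ZMod p → Bool), tgt p π i y = Z := by
  classical
  unfold mu muG at h
  have h1 := (div_ne_zero_iff.1 h).1
  rw [Nat.cast_ne_zero, ← Nat.pos_iff_ne_zero, Finset.card_pos] at h1
  obtain ⟨π, hπ⟩ := h1
  rw [Finset.mem_filter] at hπ
  refine ⟨?_, π, hπ.2.2⟩
  rw [← hπ.2.2]; exact hπ.2.1

theorem a7_fin (p : ℕ) [NeZero p] (X : Set Seq) (i : ℤ) (y : Seq) :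
    {Z | mu p X i y Z ≠ 0}.Finite := by
  apply (Set.finite_range (fun π : Equiv.Perm (ZMod p → Bool) => tgt p π i y)).subset
  intro Z hZ
  exact (a7_supp p X i y Z hZ).2

open Classical in
theorem a7_count (p : ℕ) [NeZero p] (X : Set Seq) (i : ℤ) (y : Seq) (S : Finset (Set Seq)) :
    ∑ Z ∈ S, (Finset.univ.filter (fun π : Equiv.Perm (ZMod p → Bool) =>
      Conj X (tgt p π i y) ∧ tgt p π i y = Z)).card =
    (Finset.univ.filter (fun π : Equiv.Perm (ZMod p → Bool) =>
      Conj X (tgt p π i y) ∧ tgt p π i y ∈ S)).card := by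
  rw [Finset.card_eq_sum_card_fiberwise (f := fun π => tgt p π i y) (t := S)]
  · apply Finset.sum_congr rfl
    intro Z hZ
    congr 1
    ext π
    simp only [Finset.mem_filter, Finset.mem_univ, true_and]
    constructor
    · rintro ⟨h1, h2⟩
      exact ⟨⟨h1, by rw [h2]; exact hZ⟩, h2⟩
    · rintro ⟨⟨h1, _⟩, h2⟩
      exact ⟨h1, h2⟩
  · intro π hπ
    simp only [Finset.coe_filter, Finset.mem_univ, true_and] at hπ
    exact hπ.2

open Classical in
theorem a7_sum_eq (p : ℕ) [NeZero p] (X : Set Seq) (i : ℤ) (y : Seq) (S : Finset (Set Seq)) :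
    ∑ Z ∈ S, mu p X i y Z = ((Finset.univ.filter (fun π : Equiv.Perm (ZMod p → Bool) =>
      Conj X (tgt p π i y) ∧ tgt p π i y ∈ S)).card : ℝ) /
      ((Finset.univ.filter (fun π : Equiv.Perm (ZMod p → Bool) =>
        Conj X (tgt p π i y))).card : ℝ) := by
  rw [← a7_count]
  unfold mu muG
  rw [← Finset.sum_div]
  push_cast
  rfl

theorem a7_le (p : ℕ) [NeZero p] (X : Set Seq) (i : ℤ) (y : Seq) (S : Finset (Set Seq)) :
    ∑ Z ∈ S, mu p X i y Z ≤ 1 := by
  classical
  rw [a7_sum_eq]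
  apply div_le_one_of_le₀
  · rw [Nat.cast_le]
    apply Finset.card_le_card
    intro π hπ
    rw [Finset.mem_filter] at hπ ⊢
    exact ⟨hπ.1, hπ.2.1⟩
  · positivity

theorem a7_sum (p : ℕ) [NeZero p] {X : Set Seq} (hX : X ∈ T) {y : Seq} (hy : y ∈ X) (i : ℤ)
    (S : Finset (Set Seq)) (hS : ∀ Z, mu p X i y Z ≠ 0 → Z ∈ S) :
    ∑ Z ∈ S, mu p X i y Z = 1 := by
  classical
  have h1 : tgt p 1 i y = X := by
    unfold tgt
    rw [a3_one]
    exact a1_orb hX (a1_sh hX hy i)
  have h2 : 0 < (Finset.univ.filter (fun π : Equiv.Perm (ZMod p → Bool) =>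
        Conj X (tgt p π i y))).card := by
    rw [Finset.card_pos]
    refine ⟨1, ?_⟩
    rw [Finset.mem_filter]
    refine ⟨Finset.mem_univ _, ?_⟩
    rw [h1]
    exact a4_refl X
  have h3 : (Finset.univ.filter (fun π : Equiv.Perm (ZMod p → Bool) =>
      Conj X (tgt p π i y) ∧ tgt p π i y ∈ S)) =
      (Finset.univ.filter (fun π : Equiv.Perm (ZMod p → Bool) =>
        Conj X (tgt p π i y))) := by
    ext π
    simp only [Finset.mem_filter, Finset.mem_univ, true_and, and_iff_left_iff_imp]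
    intro hπ
    apply hS
    unfold mu muG
    apply div_ne_zero
    · rw [Nat.cast_ne_zero, ← Nat.pos_iff_ne_zero, Finset.card_pos]
      refine ⟨π, ?_⟩
      rw [Finset.mem_filter]
      exact ⟨Finset.mem_univ _, hπ, rfl⟩
    · rw [Nat.cast_ne_zero]
      exact h2.ne'
  rw [a7_sum_eq, h3]
  apply div_self
  rw [Nat.cast_ne_zero]
  exact h2.ne'

theorem a7_tau (p : ℕ) [NeZero p] {X Y : Set Seq} (hXY : ∀ W, Conj X W ↔ Conj Y W) {i : ℤ}
    {y y' : Seq} (τ : Equiv.Perm (ZMod p → Bool)) (h : sh i y' = rcd p τ (sh i y))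
    (Z : Set Seq) : mu p Y i y' Z = mu p X i y Z := by
  classical
  have h1 : ∀ π : Equiv.Perm (ZMod p → Bool), tgt p π i y' = tgt p (π * τ) i y := by
    intro π
    unfold tgt
    rw [a3_mul, h]
  unfold mu muG
  congr 1
  · congr 1
    refine Finset.card_equiv (Equiv.mulRight τ) ?_
    intro π
    simp only [Finset.mem_filter, Finset.mem_univ, true_and, Equiv.coe_mulRight]
    rw [h1, hXY]
  · congr 1
    refine Finset.card_equiv (Equiv.mulRight τ) ?_
    intro π
    simp only [Finset.mem_filter, Finset.mem_univ, true_and, Equiv.coe_mulRight]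
    rw [h1, hXY]

end Pool.MP_7d5b89_lc.Amen
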