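import Pool.Agent.Lib.MP_7d5b89_lc.A2
import Pool.Agent.Lib.MP_7d5b89_lc.A7

set_option autoImplicit false

open Filter Topology

/-! A8 (30 min). Independence of the point, monotonicity of avg. By a1_piece there is j with
pc p z = pc p (sh j y), hence pc p (sh i z) = pc p (sh (i + j) y), win p z i = win p y (i + j),
muG .. i z = muG .. (i + j) y, and a2_sum (the summand is p-periodic in i by a1_pc_per).
a8_mono: Det p y n implies Det p' y n for p | p', so win p <= win p'; the average over [0, p') of a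
p-periodic function is its average over [0, p). -/

namespace Pool.MP_7d5b89_lc.Amen

/-- transfer of a cut from one point to another -/
theorem a8_transfer (p : ℕ) [NeZero p] {X : Set Seq}
    (hX : X ∈ T) {y z : Seq} (hy : y ∈ X) (hz : z ∈ X) :
    ∃ j : ℤ, (∀ i : ℤ, pc p (sh i z) = pc p (sh (i + j) y)) ∧
      ∀ i : ℤ, win p z i = win p y (i + j) := by
  obtain ⟨j, hj⟩ := a1_piece hX p hy hz
  refine ⟨j, fun i => ?_, fun i => ?_⟩
  · rw [a1_pc_sh p z (sh j y) i hj, a1_sh_sh]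
  · rw [a2_win hj, a2_win_sh]

theorem a8_muG_per (R Q : Set Seq → Set Seq → Prop) (p : ℕ) [NeZero p] (X : Set Seq) (i : ℤ)
    (y : Seq) (Z : Set Seq) : muG R Q p X (i + p) y Z = muG R Q p X i y Z := by
  apply a7_pc
  have h1 : sh (i + (p : ℤ)) y = sh ((1 : ℤ) * p) (sh i y) := by
    rw [a1_sh_sh]; congr 1; ring
  rw [h1, a1_pc_per]

theorem a8_win_per (p : ℕ) (y : Seq) (i : ℤ) : win p y (i + p) = win p y i := by
  have := a2_win_per p y i 1
  rwa [one_mul] at this

theorem a8_nu (R Q : Set Seq → Set Seq → Prop) (p : ℕ) [NeZero p] (w : ℕ → ℝ) {X : Set Seq}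
    (hX : X ∈ T) {y z : Seq} (hy : y ∈ X) (hz : z ∈ X) (Z : Set Seq) :
    nuG R Q p w X y Z = nuG R Q p w X z Z := by
  obtain ⟨j, hj1, hj2⟩ := a8_transfer p hX hy hz
  unfold nuG
  have h1 : ∀ i : ℤ, muG R Q p X i z Z = muG R Q p X (i + j) y Z := fun i =>
    a7_pc R Q p X (hj1 i) Z
  simp only [hj2, h1]
  rw [a2_sum p (fun i => w (win p y i) * muG R Q p X i y Z) (by
      intro i; simp only [a8_win_per, a8_muG_per]) j,
    a2_sum p (fun i => w (win p y i)) (by intro i; simp only [a8_win_per]) j]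

theorem a8_avg (a : ℝ) (p : ℕ) [NeZero p] {X : Set Seq} (hX : X ∈ T) {y z : Seq} (hy : y ∈ X)
    (hz : z ∈ X) : avg a p y = avg a p z := by
  obtain ⟨j, _, hj2⟩ := a8_transfer p hX hy hz
  unfold avg
  simp only [hj2]
  rw [a2_sum p (fun i => Real.exp (a * (win p y i : ℝ))) (by
    intro i; simp only [a8_win_per]) j]

theorem a8_tk (k : ℕ) {X : Set Seq} (hX : X ∈ T) {y z : Seq} (hy : y ∈ X)
    (hz : z ∈ X) : tk k y = tk k z := by
  unfold tk
  simp only [a8_avg _ (Nat.factorial k) hX hy hz]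

theorem a8_la (R Q : Set Seq → Set Seq → Prop) (k : ℕ) {X : Set Seq}
    (hX : X ∈ T) {y z : Seq} (hy : y ∈ X) (hz : z ∈ X) (Z : Set Seq) :
    laG R Q k X y Z = laG R Q k X z Z := by
  unfold laG
  rw [a8_tk k hX hy hz]
  simp only [a8_nu R Q (Nat.factorial k) _ hX hy hz Z]

theorem a8_win_mono {p p' : ℕ} (hp' : 0 < p') (h : p ∣ p') (y : Seq) (i : ℤ) :
    win p y i ≤ win p' y i := by
  classical
  unfold win
  obtain ⟨c, hc⟩ := h
  have hpp : p ≤ p' := Nat.le_of_dvd hp' ⟨c, hc⟩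
  refine (Nat.findGreatest_mono_right _ hpp).trans ?_
  apply Nat.findGreatest_mono_left
  intro m hm j hj k
  have h1 := hm j hj (k * c)
  rw [← h1]
  congr 1
  rw [hc]; push_cast; ring

theorem a8_avg_per (g : ℤ → ℝ) (p : ℕ) [NeZero p] (hg : ∀ i, g (i + p) = g i) (c : ℕ) :
    ∑ i ∈ Finset.range (p * c), g i = c * ∑ i ∈ Finset.range p, g i := by
  induction c with
  | zero => simp
  | succ c ih =>
    rw [Nat.mul_succ, Finset.sum_range_add, ih]
    have h1 : ∑ x ∈ Finset.range p, g ((p * c + x : ℕ) : ℤ) = ∑ x ∈ Finset.range p, g (x : ℤ) := by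
      have h2 := a2_sum p g hg ((p * c : ℕ) : ℤ)
      rw [← h2]
      apply Finset.sum_congr rfl
      intro x _
      congr 1
      push_cast; ring
    rw [h1]
    push_cast; ring

theorem a8_mono {p p' : ℕ} [NeZero p'] (h : p ∣ p') (a : ℝ) (ha : 0 ≤ a) (y : Seq) :
    avg a p y ≤ avg a p' y := by
  have hp' : 0 < p' := Nat.pos_of_ne_zero (NeZero.ne p')
  obtain ⟨c, hc⟩ := id h
  have hp : p ≠ 0 := by
    rintro rfl
    rw [zero_mul] at hc
    omega
  have hc0 : c ≠ 0 := by
    rintro rfl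
    rw [mul_zero] at hc
    omega
  have : NeZero p := ⟨hp⟩
  have h1 : avg a p y = (∑ i ∈ Finset.range p', Real.exp (a * (win p y i : ℝ))) / p' := by
    unfold avg
    rw [hc, a8_avg_per (fun i => Real.exp (a * (win p y i : ℝ))) p (by
      intro i; simp only [a8_win_per]) c]
    push_cast
    have hpR : (p : ℝ) ≠ 0 := by exact_mod_cast hp
    have hcR : (c : ℝ) ≠ 0 := by exact_mod_cast hc0
    field_simp
  rw [h1]
  unfold avg
  apply div_le_div_of_nonneg_right _ (Nat.cast_nonneg _)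
  apply Finset.sum_le_sum
  intro i _
  apply Real.exp_le_exp.2
  apply mul_le_mul_of_nonneg_left _ ha
  exact_mod_cast a8_win_mono hp' h y i

end Pool.MP_7d5b89_lc.Amen
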