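import Pool.Agent.Lib.MP_7d5b89_lc.Defs

set_option autoImplicit false

open Filter Topology

/-! A9 (30 min). Two elementary inequalities (no dynamics). a9_mix:
α m - β n = α (m - n) + (α - β) n. a9_ratio: with α = u / sum u, β = v / sum v one has
exp (-2c) α <= β <= exp (2c) α, so |α - β| <= (exp (2c) - 1) α.
a9_block: mixtures over j in [t, 2t) and [t', 2t') with |t - t'| <= c: the coefficient sequences
1_{[t,2t)} / t and 1_{[t',2t')} / t' differ by at most 4 c / t in l^1 (assume t <= t' resp. t' <= t;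
if c >= t the bound 4 c / t >= 4 is trivial). -/

namespace Pool.MP_7d5b89_lc.Amen

theorem a9_mix {ι κ : Type} (I : Finset ι) (S : Finset κ) (α β : ι → ℝ) (m n : ι → κ → ℝ)
    (B : Finset ι) (hB : B ⊆ I) (hα : ∀ i ∈ I, 0 ≤ α i) (hm : ∀ i ∈ I, ∀ z, 0 ≤ m i z)
    (hn : ∀ i ∈ I, ∀ z, 0 ≤ n i z) (hm1 : ∀ i ∈ I, ∑ z ∈ S, m i z ≤ 1)
    (hn1 : ∀ i ∈ I, ∑ z ∈ S, n i z ≤ 1) (hG : ∀ i ∈ I, i ∉ B → ∀ z, m i z = n i z) :
    ∑ z ∈ S, |∑ i ∈ I, α i * m i z - ∑ i ∈ I, β i * n i z| ≤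
      ∑ i ∈ I, |α i - β i| + 2 * ∑ i ∈ B, α i := by
  classical
  have h1 : ∀ z, |∑ i ∈ I, α i * m i z - ∑ i ∈ I, β i * n i z| ≤
      ∑ i ∈ I, (|α i - β i| * n i z + α i * |m i z - n i z|) := by
    intro z
    rw [← Finset.sum_sub_distrib]
    refine (Finset.abs_sum_le_sum_abs _ _).trans (Finset.sum_le_sum fun i hi => ?_)
    have h2 : α i * m i z - β i * n i z = (α i - β i) * n i z + α i * (m i z - n i z) := by ring
    rw [h2]
    refine (abs_add_le _ _).trans ?_
    rw [abs_mul, abs_mul, abs_of_nonneg (hn i hi z), abs_of_nonneg (hα i hi)]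
  refine (Finset.sum_le_sum fun z _ => h1 z).trans ?_
  rw [Finset.sum_comm]
  have h3 : ∀ i ∈ I, ∑ z ∈ S, (|α i - β i| * n i z + α i * |m i z - n i z|) ≤
      |α i - β i| + (if i ∈ B then 2 * α i else 0) := by
    intro i hi
    rw [Finset.sum_add_distrib, ← Finset.mul_sum, ← Finset.mul_sum]
    apply add_le_add
    · have := mul_le_mul_of_nonneg_left (hn1 i hi) (abs_nonneg (α i - β i))
      linarith
    · by_cases hiB : i ∈ B
      · rw [if_pos hiB]
        have h4 : ∑ z ∈ S, |m i z - n i z| ≤ 2 := by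
          have h5 : ∑ z ∈ S, |m i z - n i z| ≤ ∑ z ∈ S, (m i z + n i z) := by
            apply Finset.sum_le_sum
            intro z _
            rw [abs_le]
            constructor
            · linarith [hm i hi z, hn i hi z]
            · linarith [hm i hi z, hn i hi z]
          rw [Finset.sum_add_distrib] at h5
          linarith [hm1 i hi, hn1 i hi]
        have := mul_le_mul_of_nonneg_left h4 (hα i hi)
        linarith
      · rw [if_neg hiB]
        have h4 : ∑ z ∈ S, |m i z - n i z| = 0 := by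
          apply Finset.sum_eq_zero
          intro z _
          rw [hG i hi hiB z, sub_self, abs_zero]
        rw [h4, mul_zero]
  refine (Finset.sum_le_sum h3).trans ?_
  rw [Finset.sum_add_distrib]
  have h6 : ∑ i ∈ I, (if i ∈ B then 2 * α i else 0) = 2 * ∑ i ∈ B, α i := by
    rw [Finset.sum_ite_mem, Finset.inter_eq_right.2 hB, Finset.mul_sum]
  rw [h6]

theorem a9_ratio {ι : Type} (I : Finset ι) (u v : ι → ℝ) (hu : ∀ i ∈ I, 0 < u i)
    (hv : ∀ i ∈ I, 0 < v i) (c : ℝ) (hc : 0 ≤ c) (h1 : ∀ i ∈ I, u i ≤ Real.exp c * v i)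
    (h2 : ∀ i ∈ I, v i ≤ Real.exp c * u i) :
    ∑ i ∈ I, |u i / (∑ i ∈ I, u i) - v i / (∑ i ∈ I, v i)| ≤ Real.exp (2 * c) - 1 := by
  have he : 1 ≤ Real.exp (2 * c) := Real.one_le_exp (by linarith)
  rcases I.eq_empty_or_nonempty with hI | hI
  · rw [hI]; simpa using he
  set U := ∑ i ∈ I, u i with hU
  set V := ∑ i ∈ I, v i with hV
  have hU0 : 0 < U := Finset.sum_pos hu hI
  have hV0 : 0 < V := Finset.sum_pos hv hI
  have hUV : U ≤ Real.exp c * V := by
    rw [hU, hV, Finset.mul_sum]; exact Finset.sum_le_sum h1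
  have hVU : V ≤ Real.exp c * U := by
    rw [hU, hV, Finset.mul_sum]; exact Finset.sum_le_sum h2
  have hexp : Real.exp (2 * c) = Real.exp c * Real.exp c := by rw [← Real.exp_add]; ring_nf
  have hec : 0 < Real.exp c := Real.exp_pos c
  have h3 : ∀ i ∈ I, |u i / U - v i / V| ≤ (Real.exp (2 * c) - 1) * (u i / U) := by
    intro i hi
    have ha : 0 < u i / U := div_pos (hu i hi) hU0
    have h4 : v i / V ≤ Real.exp (2 * c) * (u i / U) := by
      rw [← mul_div_assoc, div_le_div_iff₀ hV0 hU0, hexp]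
      calc v i * U ≤ (Real.exp c * u i) * (Real.exp c * V) :=
            mul_le_mul (h2 i hi) hUV hU0.le (mul_pos hec (hu i hi)).le
        _ = Real.exp c * Real.exp c * u i * V := by ring
    have h5 : u i / U ≤ Real.exp (2 * c) * (v i / V) := by
      rw [← mul_div_assoc, div_le_div_iff₀ hU0 hV0, hexp]
      calc u i * V ≤ (Real.exp c * v i) * (Real.exp c * U) :=
            mul_le_mul (h1 i hi) hVU hV0.le (mul_pos hec (hv i hi)).le
        _ = Real.exp c * Real.exp c * v i * U := by ring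
    rw [abs_le]
    constructor
    · linarith
    · have h6 : (u i / U) * (2 - Real.exp (2 * c)) ≤ v i / V := by
        have h7 : Real.exp (2 * c) * ((u i / U) * (2 - Real.exp (2 * c))) ≤
            Real.exp (2 * c) * (v i / V) := by
          refine le_trans ?_ h5
          have h8 : Real.exp (2 * c) * (2 - Real.exp (2 * c)) ≤ 1 := by
            nlinarith [sq_nonneg (Real.exp (2 * c) - 1)]
          nlinarith
        exact le_of_mul_le_mul_left h7 (Real.exp_pos _)
      linarith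
  refine (Finset.sum_le_sum h3).trans ?_
  rw [← Finset.mul_sum, ← Finset.sum_div, ← hU, div_self hU0.ne', mul_one]

theorem a9_unif {κ : Type} (S : Finset κ) (s : ℕ) (hs : 0 < s) (b : ℕ → κ → ℝ)
    (hb1 : ∀ j, ∑ z ∈ S, b j z ≤ 1) :
    ∑ z ∈ S, (∑ j ∈ Finset.Ico s (2 * s), b j z) / (s : ℝ) ≤ 1 := by
  have hsR : (0 : ℝ) < s := by exact_mod_cast hs
  rw [← Finset.sum_div, Finset.sum_comm, div_le_one hsR]
  refine (Finset.sum_le_sum fun j _ => hb1 j).trans ?_
  rw [Finset.sum_const, Nat.card_Ico, nsmul_eq_mul, mul_one]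
  have : 2 * s - s = s := by omega
  rw [this]

/-- the uniform coefficients on `[s, 2s)` -/
noncomputable def a9_f (s j : ℕ) : ℝ := if j ∈ Finset.Ico s (2 * s) then (s : ℝ)⁻¹ else 0

theorem a9_f_sum (s N : ℕ) (hN : 2 * s ≤ N) (g : ℕ → ℝ) :
    ∑ j ∈ Finset.range N, a9_f s j * g j = (∑ j ∈ Finset.Ico s (2 * s), g j) / (s : ℝ) := by
  unfold a9_f
  have h1 : ∀ j ∈ Finset.range N, (if j ∈ Finset.Ico s (2 * s) then (s : ℝ)⁻¹ else 0) * g j =
      if j ∈ Finset.Ico s (2 * s) then (s : ℝ)⁻¹ * g j else 0 := by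
    intro j _
    split_ifs <;> simp
  rw [Finset.sum_congr rfl h1, Finset.sum_ite_mem]
  have h2 : Finset.range N ∩ Finset.Ico s (2 * s) = Finset.Ico s (2 * s) := by
    rw [Finset.inter_eq_right]
    intro j hj
    rw [Finset.mem_Ico] at hj
    rw [Finset.mem_range]
    omega
  rw [h2, ← Finset.mul_sum, div_eq_inv_mul]

theorem a9_f_one (s N : ℕ) (hs : 0 < s) (hN : 2 * s ≤ N) :
    ∑ j ∈ Finset.range N, a9_f s j = 1 := by
  have h := a9_f_sum s N hN (fun _ => 1)
  simp only [mul_one, Finset.sum_const, Nat.card_Ico, nsmul_eq_mul] at h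
  rw [h]
  have h1 : 2 * s - s = s := by omega
  rw [h1, div_self]
  exact_mod_cast hs.ne'

theorem a9_coef (t t' N : ℕ) (ht : 0 < t) (htt : t ≤ t') (h2 : t' ≤ 2 * t) (hN : 2 * t' ≤ N) :
    ∑ j ∈ Finset.range N, |a9_f t j - a9_f t' j| ≤ 4 * ((t' : ℝ) - t) / t' := by
  have htR : (0 : ℝ) < t := by exact_mod_cast ht
  have httR : (t : ℝ) ≤ t' := by exact_mod_cast htt
  have ht'R : (0 : ℝ) < t' := by linarith
  have h3 : ∀ j ∈ Finset.range N, |a9_f t j - a9_f t' j| ≤ a9_f t j + a9_f t' j -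
      2 * (if j ∈ Finset.Ico t' (2 * t) then (t' : ℝ)⁻¹ else 0) := by
    intro j _
    have hi : (t' : ℝ)⁻¹ ≤ (t : ℝ)⁻¹ := inv_anti₀ htR httR
    have hi0 : 0 < (t' : ℝ)⁻¹ := inv_pos.2 ht'R
    unfold a9_f
    by_cases hj : j ∈ Finset.Ico t' (2 * t)
    · rw [if_pos hj]
      rw [Finset.mem_Ico] at hj
      have hj1 : j ∈ Finset.Ico t (2 * t) := by rw [Finset.mem_Ico]; omega
      have hj2 : j ∈ Finset.Ico t' (2 * t') := by rw [Finset.mem_Ico]; omega
      rw [if_pos hj1, if_pos hj2, abs_of_nonneg (by linarith)]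
      linarith
    · rw [if_neg hj]
      by_cases hj1 : j ∈ Finset.Ico t (2 * t)
      · have hj2 : j ∉ Finset.Ico t' (2 * t') := by
          rw [Finset.mem_Ico] at hj hj1 ⊢; omega
        rw [if_pos hj1, if_neg hj2, abs_of_nonneg (by linarith)]
        linarith
      · rw [if_neg hj1]
        split_ifs
        · rw [abs_of_nonpos (by linarith)]; linarith
        · simp
  refine (Finset.sum_le_sum h3).trans ?_
  rw [Finset.sum_sub_distrib, Finset.sum_add_distrib, a9_f_one t N ht (by omega),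
    a9_f_one t' N (by omega) hN, ← Finset.mul_sum, Finset.sum_ite_mem]
  have h4 : Finset.range N ∩ Finset.Ico t' (2 * t) = Finset.Ico t' (2 * t) := by
    rw [Finset.inter_eq_right]
    intro j hj
    rw [Finset.mem_Ico] at hj
    rw [Finset.mem_range]
    omega
  rw [h4, Finset.sum_const, Nat.card_Ico, nsmul_eq_mul, Nat.cast_sub h2]
  push_cast
  rw [le_div_iff₀ ht'R]
  have h5 : (t' : ℝ)⁻¹ * t' = 1 := inv_mul_cancel₀ ht'R.ne'
  have h6 : (1 + 1 - 2 * ((2 * (t : ℝ) - t') * (t' : ℝ)⁻¹)) * t' =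
      2 * t' - 2 * ((2 * (t : ℝ) - t') * ((t' : ℝ)⁻¹ * t')) := by ring
  rw [h6, h5]
  linarith

theorem a9_block {κ : Type} (S : Finset κ) (t t' c : ℕ) (ht : 0 < t) (ht' : 0 < t')
    (h1 : t ≤ t' + c) (h2 : t' ≤ t + c) (a b : ℕ → κ → ℝ) (ha : ∀ j z, 0 ≤ a j z)
    (hb : ∀ j z, 0 ≤ b j z) (ha1 : ∀ j, ∑ z ∈ S, a j z ≤ 1) (hb1 : ∀ j, ∑ z ∈ S, b j z ≤ 1)
    (δ : ℝ) (hδ : ∀ j ∈ Finset.Ico t (2 * t), ∑ z ∈ S, |a j z - b j z| ≤ δ) :
    ∑ z ∈ S, |(∑ j ∈ Finset.Ico t (2 * t), a j z) / (t : ℝ) -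
      (∑ j ∈ Finset.Ico t' (2 * t'), b j z) / (t' : ℝ)| ≤ δ + 4 * c / t := by
  have htR : (0 : ℝ) < t := by exact_mod_cast ht
  have ht'R : (0 : ℝ) < t' := by exact_mod_cast ht'
  have hcR : (0 : ℝ) ≤ c := Nat.cast_nonneg c
  have step1 : ∑ z ∈ S, |(∑ j ∈ Finset.Ico t (2 * t), a j z) / (t : ℝ) -
      (∑ j ∈ Finset.Ico t (2 * t), b j z) / (t : ℝ)| ≤ δ := by
    have h3 : ∀ z, |(∑ j ∈ Finset.Ico t (2 * t), a j z) / (t : ℝ) -
        (∑ j ∈ Finset.Ico t (2 * t), b j z) / (t : ℝ)| ≤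
        (∑ j ∈ Finset.Ico t (2 * t), |a j z - b j z|) / t := by
      intro z
      rw [← sub_div, ← Finset.sum_sub_distrib, abs_div, abs_of_pos htR]
      exact div_le_div_of_nonneg_right (Finset.abs_sum_le_sum_abs _ _) htR.le
    refine (Finset.sum_le_sum fun z _ => h3 z).trans ?_
    rw [← Finset.sum_div, Finset.sum_comm, div_le_iff₀ htR]
    refine (Finset.sum_le_sum hδ).trans ?_
    rw [Finset.sum_const, Nat.card_Ico, nsmul_eq_mul]
    have : 2 * t - t = t := by omega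
    rw [this, mul_comm]
  have step2 : ∑ z ∈ S, |(∑ j ∈ Finset.Ico t (2 * t), b j z) / (t : ℝ) -
      (∑ j ∈ Finset.Ico t' (2 * t'), b j z) / (t' : ℝ)| ≤ 4 * c / t := by
    by_cases hc : t ≤ 2 * c
    · have h3 : ∀ z, |(∑ j ∈ Finset.Ico t (2 * t), b j z) / (t : ℝ) -
          (∑ j ∈ Finset.Ico t' (2 * t'), b j z) / (t' : ℝ)| ≤
          (∑ j ∈ Finset.Ico t (2 * t), b j z) / (t : ℝ) +
          (∑ j ∈ Finset.Ico t' (2 * t'), b j z) / (t' : ℝ) := by
        intro z
        have e1 : 0 ≤ (∑ j ∈ Finset.Ico t (2 * t), b j z) / (t : ℝ) :=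
          div_nonneg (Finset.sum_nonneg fun j _ => hb j z) htR.le
        have e2 : 0 ≤ (∑ j ∈ Finset.Ico t' (2 * t'), b j z) / (t' : ℝ) :=
          div_nonneg (Finset.sum_nonneg fun j _ => hb j z) ht'R.le
        rw [abs_le]
        constructor
        · linarith
        · linarith
      refine (Finset.sum_le_sum fun z _ => h3 z).trans ?_
      rw [Finset.sum_add_distrib]
      have e1 := a9_unif S t ht b hb1
      have e2 := a9_unif S t' ht' b hb1
      have e3 : 2 ≤ 4 * (c : ℝ) / t := by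
        rw [le_div_iff₀ htR]
        have : (t : ℝ) ≤ 2 * c := by exact_mod_cast hc
        linarith
      linarith
    · push Not at hc
      have h3 : ∀ z, |(∑ j ∈ Finset.Ico t (2 * t), b j z) / (t : ℝ) -
          (∑ j ∈ Finset.Ico t' (2 * t'), b j z) / (t' : ℝ)| ≤
          ∑ j ∈ Finset.range (2 * t + 2 * t'), |a9_f t j - a9_f t' j| * b j z := by
        intro z
        rw [← a9_f_sum t (2 * t + 2 * t') (by omega), ← a9_f_sum t' (2 * t + 2 * t') (by omega),
          ← Finset.sum_sub_distrib]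
        refine (Finset.abs_sum_le_sum_abs _ _).trans (Finset.sum_le_sum fun j _ => ?_)
        rw [← sub_mul, abs_mul, abs_of_nonneg (hb j z)]
      refine (Finset.sum_le_sum fun z _ => h3 z).trans ?_
      rw [Finset.sum_comm]
      have h4 : ∀ j ∈ Finset.range (2 * t + 2 * t'),
          ∑ z ∈ S, |a9_f t j - a9_f t' j| * b j z ≤ |a9_f t j - a9_f t' j| := by
        intro j _
        rw [← Finset.mul_sum]
        have := mul_le_mul_of_nonneg_left (hb1 j) (abs_nonneg (a9_f t j - a9_f t' j))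
        linarith
      refine (Finset.sum_le_sum h4).trans ?_
      rcases le_total t t' with htt | htt
      · refine (a9_coef t t' (2 * t + 2 * t') ht htt (by omega) (by omega)).trans ?_
        have e1 : (t' : ℝ) - t ≤ c := by
          have : (t' : ℝ) ≤ t + c := by exact_mod_cast h2
          linarith
        have e2 : (t : ℝ) ≤ t' := by exact_mod_cast htt
        rw [div_le_div_iff₀ ht'R htR]
        nlinarith
      · have e0 : ∀ j ∈ Finset.range (2 * t + 2 * t'), |a9_f t j - a9_f t' j| =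
            |a9_f t' j - a9_f t j| := fun j _ => abs_sub_comm _ _
        rw [Finset.sum_congr rfl e0]
        refine (a9_coef t' t (2 * t + 2 * t') ht' htt (by omega) (by omega)).trans ?_
        have e1 : (t : ℝ) - t' ≤ c := by
          have : (t : ℝ) ≤ t' + c := by exact_mod_cast h1
          linarith
        apply div_le_div_of_nonneg_right _ htR.le
        linarith
  calc ∑ z ∈ S, |(∑ j ∈ Finset.Ico t (2 * t), a j z) / (t : ℝ) -
      (∑ j ∈ Finset.Ico t' (2 * t'), b j z) / (t' : ℝ)|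
      ≤ ∑ z ∈ S, (|(∑ j ∈ Finset.Ico t (2 * t), a j z) / (t : ℝ) -
        (∑ j ∈ Finset.Ico t (2 * t), b j z) / (t : ℝ)| +
        |(∑ j ∈ Finset.Ico t (2 * t), b j z) / (t : ℝ) -
        (∑ j ∈ Finset.Ico t' (2 * t'), b j z) / (t' : ℝ)|) :=
        Finset.sum_le_sum fun z _ => abs_sub_le _ _ _
    _ ≤ δ + 4 * c / t := by
        rw [Finset.sum_add_distrib]
        exact add_le_add step1 step2

end Pool.MP_7d5b89_lc.Amen
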