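import Pool.Agent.Lib.MP_7d5b89_lc.A5
import Pool.Agent.Lib.MP_7d5b89_lc.A8
import Pool.Agent.Lib.MP_7d5b89_lc.A9

set_option autoImplicit false

open Filter Topology

/-! A10. The estimate at one level. -/

namespace Pool.MP_7d5b89_lc.Amen

theorem a10_nu_nonneg (R Q : Set Seq → Set Seq → Prop) (p : ℕ) [NeZero p] (a : ℝ) (X : Set Seq)
    (y : Seq) (Z : Set Seq) : 0 ≤ nuG R Q p (wt a) X y Z := by
  unfold nuG
  apply div_nonneg
  · apply Finset.sum_nonneg
    intro i _
    exact mul_nonneg (Real.exp_pos _).le (a7_nonneg R Q p X i y Z)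
  · apply Finset.sum_nonneg
    intro i _
    exact (Real.exp_pos _).le

theorem a10_pos (p : ℕ) [NeZero p] (a : ℝ) (y : Seq) :
    0 < ∑ i ∈ Finset.range p, wt a (win p y i) := by
  apply Finset.sum_pos
  · intro i _
    exact Real.exp_pos _
  · exact ⟨0, Finset.mem_range.2 (Nat.pos_of_ne_zero (NeZero.ne p))⟩

theorem a10_nu_le (p : ℕ) [NeZero p] (a : ℝ) (X : Set Seq) (y : Seq) (S : Finset (Set Seq)) :
    ∑ Z ∈ S, nu p (wt a) X y Z ≤ 1 := by
  unfold nu nuG
  rw [← Finset.sum_div, div_le_one (a10_pos p a y), Finset.sum_comm]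
  apply Finset.sum_le_sum
  intro i _
  rw [← Finset.mul_sum]
  have h1 := a7_le p X i y S
  unfold mu at h1
  have h2 : 0 ≤ wt a (win p y i) := (Real.exp_pos _).le
  calc wt a (win p y i) * ∑ Z ∈ S, muG Conj Eq p X i y Z
      ≤ wt a (win p y i) * 1 := mul_le_mul_of_nonneg_left h1 h2
    _ = wt a (win p y i) := mul_one _

theorem a10_form (p : ℕ) [NeZero p] (a : ℝ) (X : Set Seq) (y : Seq) (Z : Set Seq) :
    nu p (wt a) X y Z = ∑ i ∈ Finset.range p,
      (wt a (win p y i) / ∑ i ∈ Finset.range p, wt a (win p y i)) * mu p X i y Z := by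
  unfold nu nuG mu
  rw [Finset.sum_div]
  apply Finset.sum_congr rfl
  intro i _
  ring

theorem a10_nu {a : ℝ} (ha : 0 ≤ a) {X Y : Set Seq} (hX : X ∈ T) (hY : Y ∈ T) {r : ℕ}
    {φ : Seq → Seq} (h : IsCode r X Y φ) (p : ℕ) [NeZero p] {y : Seq} (hy : y ∈ X)
    (S : Finset (Set Seq)) :
    ∑ Z ∈ S, |nu p (wt a) X y Z - nu p (wt a) Y (φ y) Z| ≤
      (Real.exp (2 * (a * r)) - 1) + 2 * (Real.exp (2 * (a * r)) / avg a p y) := by
  classical
  set U : ℝ := ∑ i ∈ Finset.range p, wt a (win p y i) with hU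
  set V : ℝ := ∑ i ∈ Finset.range p, wt a (win p (φ y) i) with hV
  have hUpos : 0 < U := a10_pos p a y
  have hVpos : 0 < V := a10_pos p a (φ y)
  set B : Finset ℕ := (Finset.range p).filter (fun i => win p y i ≤ 2 * r) with hB
  have hconj : ∀ W, Conj X W ↔ Conj Y W := by
    intro W
    have hc : Conj X Y := a4_conj h
    have hc' : Conj Y X := a4_symm hX hY hc
    exact ⟨fun hw => a4_trans hc' hw, fun hw => a4_trans hc hw⟩
  have hmix := a9_mix (Finset.range p) S (fun i => wt a (win p y i) / U)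
    (fun i => wt a (win p (φ y) i) / V) (fun i Z => mu p X i y Z)
    (fun i Z => mu p Y i (φ y) Z) B (Finset.filter_subset _ _)
    (fun i _ => div_nonneg (Real.exp_pos _).le hUpos.le)
    (fun i _ Z => a7_nonneg Conj Eq p X i y Z)
    (fun i _ Z => a7_nonneg Conj Eq p Y i (φ y) Z)
    (fun i _ => a7_le p X i y S)
    (fun i _ => a7_le p Y i (φ y) S)
    (by
      intro i hi hiB Z
      have hw : 2 * r + 1 ≤ win p y i := by
        by_contra hcon
        apply hiB
        rw [hB, Finset.mem_filter]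
        exact ⟨hi, by omega⟩
      obtain ⟨τ, hτ⟩ := a5_key hX h p hy i hw
      exact (a7_tau p hconj τ hτ Z).symm)
  have hrat := a9_ratio (Finset.range p) (fun i => wt a (win p y i))
    (fun i => wt a (win p (φ y) i)) (fun i _ => Real.exp_pos _) (fun i _ => Real.exp_pos _)
    (a * r) (by positivity)
    (by
      intro i _
      have h1 := a6_win1 hX h hy (p := p) i
      have h2 : (win p y i : ℝ) ≤ (win p (φ y) i : ℝ) + r := by exact_mod_cast h1
      unfold wt
      rw [← Real.exp_add]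
      apply Real.exp_le_exp.2
      nlinarith [mul_le_mul_of_nonneg_left h2 ha])
    (by
      intro i _
      have h1 := a6_win2 hX h hy (p := p) i
      have h2 : (win p (φ y) i : ℝ) ≤ (win p y i : ℝ) + r := by exact_mod_cast h1
      unfold wt
      rw [← Real.exp_add]
      apply Real.exp_le_exp.2
      nlinarith [mul_le_mul_of_nonneg_left h2 ha])
  have hBsum : ∑ i ∈ B, wt a (win p y i) / U ≤ Real.exp (2 * (a * r)) / avg a p y := by
    have hppos : (0 : ℝ) < p := by exact_mod_cast Nat.pos_of_ne_zero (NeZero.ne p)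
    have hav : avg a p y = U / p := rfl
    rw [hav, ← Finset.sum_div, div_div_eq_mul_div]
    apply div_le_div_of_nonneg_right _ hUpos.le
    have hle : ∀ i ∈ B, wt a (win p y i) ≤ Real.exp (2 * (a * r)) := by
      intro i hi
      rw [hB, Finset.mem_filter] at hi
      unfold wt
      apply Real.exp_le_exp.2
      have h2 : (win p y i : ℝ) ≤ 2 * r := by exact_mod_cast hi.2
      nlinarith [mul_le_mul_of_nonneg_left h2 ha]
    calc ∑ i ∈ B, wt a (win p y i) ≤ ∑ i ∈ B, Real.exp (2 * (a * r)) := Finset.sum_le_sum hle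
      _ = (B.card : ℝ) * Real.exp (2 * (a * r)) := by rw [Finset.sum_const, nsmul_eq_mul]
      _ ≤ (p : ℝ) * Real.exp (2 * (a * r)) := by
          apply mul_le_mul_of_nonneg_right _ (Real.exp_pos _).le
          have h3 : B.card ≤ (Finset.range p).card := Finset.card_filter_le _ _
          rw [Finset.card_range] at h3
          exact_mod_cast h3
      _ = Real.exp (2 * (a * r)) * p := by ring
  calc ∑ Z ∈ S, |nu p (wt a) X y Z - nu p (wt a) Y (φ y) Z|
      = ∑ Z ∈ S, |∑ i ∈ Finset.range p, (wt a (win p y i) / U) * mu p X i y Z -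
          ∑ i ∈ Finset.range p, (wt a (win p (φ y) i) / V) * mu p Y i (φ y) Z| := by
        apply Finset.sum_congr rfl
        intro Z _
        rw [a10_form p a X y Z, a10_form p a Y (φ y) Z]
    _ ≤ ∑ i ∈ Finset.range p, |wt a (win p y i) / U - wt a (win p (φ y) i) / V| +
          2 * ∑ i ∈ B, wt a (win p y i) / U := hmix
    _ ≤ (Real.exp (2 * (a * r)) - 1) + 2 * (Real.exp (2 * (a * r)) / avg a p y) := by
        have := hrat
        simp only [← hU, ← hV] at this
        linarith

end Pool.MP_7d5b89_lc.Amen
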