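import Pool.Agent.Lib.MP_7d5b89_lc.A6
import Pool.Agent.Lib.MP_7d5b89_lc.A8

set_option autoImplicit false

open Filter Topology

/-! A11. The parameter tk. -/

namespace Pool.MP_7d5b89_lc.Amen

theorem a11_avg_one {a : ℝ} (ha : 0 ≤ a) (p : ℕ) [NeZero p] (y : Seq) : 1 ≤ avg a p y := by
  have hppos : (0 : ℝ) < p := by exact_mod_cast Nat.pos_of_ne_zero (NeZero.ne p)
  unfold avg
  rw [le_div_iff₀ hppos, one_mul]
  calc (p : ℝ) = ∑ i ∈ Finset.range p, (1 : ℝ) := by simp
    _ ≤ ∑ i ∈ Finset.range p, Real.exp (a * win p y i) := by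
        apply Finset.sum_le_sum
        intro i _
        apply Real.one_le_exp
        positivity

theorem a11_one (k : ℕ) (hk : 1 ≤ k) (y : Seq) : 1 ≤ tk k y := by
  classical
  unfold tk
  apply Nat.le_findGreatest hk
  have h := a11_avg_one (a := (2 * ((1 : ℕ) : ℝ))⁻¹) (by positivity) (Nat.factorial k) y
  simpa using h

theorem a11_spec (k : ℕ) (y : Seq) :
    (tk k y : ℝ) ≤ avg ((2 * (tk k y : ℝ))⁻¹) (Nat.factorial k) y := by
  classical
  by_cases h0 : tk k y = 0
  · rw [h0]
    have h := a11_avg_one (a := (2 * ((0 : ℕ) : ℝ))⁻¹) (by positivity) (Nat.factorial k) y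
    push_cast at h ⊢
    linarith
  · exact Nat.findGreatest_of_ne_zero (P := fun t => (t : ℝ) ≤
      avg ((2 * (t : ℝ))⁻¹) (Nat.factorial k) y) (n := k) rfl h0

theorem a11_tend {X : Set Seq} (hX : X ∈ ClassA) {y : Seq} (hy : y ∈ X) (t : ℕ) :
    ∃ K : ℕ, ∀ k ≥ K, t ≤ tk k y := by
  classical
  rcases Nat.eq_zero_or_pos t with h0 | hpos
  · exact ⟨0, fun k _ => by rw [h0]; exact Nat.zero_le _⟩
  · obtain ⟨x, hx, hXx, hav⟩ := hX
    have hXT : X ∈ T := ⟨x, hx, hXx⟩
    have hxX : x ∈ X := by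
      rw [hXx]
      exact subset_closure ⟨0, by funext i; simp⟩
    have htR : (0 : ℝ) < t := by exact_mod_cast hpos
    obtain ⟨p, hp, hB⟩ := hav ((2 * (t : ℝ))⁻¹) (by positivity) t
    refine ⟨max p t, fun k hk => ?_⟩
    have hkp : p ≤ k := le_trans (le_max_left _ _) hk
    have hkt : t ≤ k := le_trans (le_max_right _ _) hk
    unfold tk
    apply Nat.le_findGreatest hkt
    have h1 := a8_mono (p := p) (p' := Nat.factorial k) (Nat.dvd_factorial hp hkp)
      ((2 * (t : ℝ))⁻¹) (by positivity) x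
    have h2 := a8_avg ((2 * (t : ℝ))⁻¹) (Nat.factorial k) hXT hxX hy
    linarith

theorem a11_exp {a : ℝ} (ha : 0 ≤ a) (p r : ℕ) [NeZero p] (u v : Seq)
    (h : ∀ i : ℤ, win p u i ≤ win p v i + r) :
    Real.exp (-(a * r)) * avg a p u ≤ avg a p v := by
  have hppos : (0 : ℝ) < p := by exact_mod_cast Nat.pos_of_ne_zero (NeZero.ne p)
  unfold avg
  rw [← mul_div_assoc]
  apply div_le_div_of_nonneg_right _ hppos.le
  rw [Finset.mul_sum]
  apply Finset.sum_le_sum
  intro i _
  rw [← Real.exp_add]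
  apply Real.exp_le_exp.2
  have h2 : (win p u i : ℝ) ≤ (win p v i : ℝ) + r := by exact_mod_cast h i
  nlinarith [mul_le_mul_of_nonneg_left h2 ha]

theorem a11_avg_mono {a b : ℝ} (hab : a ≤ b) (p : ℕ) [NeZero p] (y : Seq) :
    avg a p y ≤ avg b p y := by
  have hppos : (0 : ℝ) < p := by exact_mod_cast Nat.pos_of_ne_zero (NeZero.ne p)
  unfold avg
  apply div_le_div_of_nonneg_right _ hppos.le
  apply Finset.sum_le_sum
  intro i _
  apply Real.exp_le_exp.2
  exact mul_le_mul_of_nonneg_right hab (Nat.cast_nonneg _)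

theorem a11_half (k r : ℕ) (u v : Seq)
    (h : ∀ i : ℤ, win (Nat.factorial k) u i ≤ win (Nat.factorial k) v i + r) :
    tk k u ≤ tk k v + 2 * r := by
  classical
  by_cases hlt : tk k u ≤ 2 * r
  · omega
  · push Not at hlt
    have hspec := a11_spec k u
    have hk : tk k u ≤ k := Nat.findGreatest_le _
    set t := tk k u with ht
    have ht' : 1 ≤ t - r := by omega
    have hle : t - r ≤ tk k v := by
      unfold tk
      apply Nat.le_findGreatest (by omega)
      have hcast : ((t - r : ℕ) : ℝ) = (t : ℝ) - r := by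
        rw [Nat.cast_sub (by omega)]
      have htr : (0 : ℝ) < (t : ℝ) - r := by
        rw [← hcast]; exact_mod_cast ht'
      have htpos : (0 : ℝ) < t := by
        have : 0 < t := by omega
        exact_mod_cast this
      have hr0 : (0 : ℝ) ≤ r := Nat.cast_nonneg _
      have h2r : (2 * r : ℝ) ≤ t := by exact_mod_cast hlt.le
      set a : ℝ := (2 * ((t - r : ℕ) : ℝ))⁻¹ with ha
      have ha' : a = (2 * ((t : ℝ) - r))⁻¹ := by rw [ha, hcast]
      have ha0 : 0 ≤ a := by rw [ha']; positivity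
      have h1 := a11_exp ha0 (Nat.factorial k) r u v h
      have h2 : avg ((2 * (t : ℝ))⁻¹) (Nat.factorial k) u ≤ avg a (Nat.factorial k) u := by
        apply a11_avg_mono
        rw [ha']
        apply inv_anti₀ (by positivity)
        linarith
      have h3 : 1 - a * r ≤ Real.exp (-(a * r)) := by
        have := Real.add_one_le_exp (-(a * r))
        linarith
      have h4 : a * r * t ≤ r := by
        rw [ha', inv_mul_eq_div, div_mul_eq_mul_div, div_le_iff₀ (by positivity)]
        nlinarith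
      have h5 : (t : ℝ) * Real.exp (-(a * r)) ≤
          Real.exp (-(a * r)) * avg a (Nat.factorial k) u := by
        rw [mul_comm]
        apply mul_le_mul_of_nonneg_left _ (Real.exp_pos _).le
        linarith
      have h6 : (t : ℝ) * (1 - a * r) ≤ (t : ℝ) * Real.exp (-(a * r)) :=
        mul_le_mul_of_nonneg_left h3 htpos.le
      rw [hcast]
      nlinarith
    omega

theorem a11_code {X Y : Set Seq} (hX : X ∈ T) (hY : Y ∈ T) {r : ℕ} {φ : Seq → Seq}
    (h : IsCode r X Y φ) (k : ℕ) {y : Seq} (hy : y ∈ X) :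
    tk k y ≤ tk k (φ y) + 2 * r ∧ tk k (φ y) ≤ tk k y + 2 * r :=
  ⟨a11_half k r y (φ y) (fun i => a6_win1 hX h hy i),
    a11_half k r (φ y) y (fun i => a6_win2 hX h hy i)⟩

end Pool.MP_7d5b89_lc.Amen
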