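import Pool.Agent.Lib.MP_7d5b89_lc.A10
import Pool.Agent.Lib.MP_7d5b89_lc.A11

set_option autoImplicit false

open Filter Topology

/-! A12 (45 min). Limit and normalisation of la. a12_lim: y in X, z in Y; by a8_la we may take
z = φ y with an IsCode φ of radius r (a4_code). t = tk k y tends to infinity. For j in [t, 2t):
a = 1/j satisfies 1/(2t) < a <= 1/t, so by a10_nu the distance is at most
exp (2r/t) - 1 + 2 exp (2r/t) / avg (1/(2t)) (k!) y <= exp (2r/t) - 1 + 2 exp (2r/t) / t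
(avg is monotone in a, a11_spec). Then a9_block with c = 2 r. Total -> 0 as t -> infinity.
K must not depend on y and z: all of X gives the same tk (a8_tk) and la (a8_la). -/

namespace Pool.MP_7d5b89_lc.Amen

theorem a12_nonneg (R Q : Set Seq → Set Seq → Prop) (k : ℕ) (X : Set Seq) (y : Seq)
    (Z : Set Seq) : 0 ≤ laG R Q k X y Z := by
  unfold laG
  exact div_nonneg (Finset.sum_nonneg fun j _ => a10_nu_nonneg R Q _ _ X y Z) (Nat.cast_nonneg _)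

theorem a12_nu_zero (p : ℕ) [NeZero p] (w : ℕ → ℝ) (X : Set Seq) (y : Seq) (Z : Set Seq)
    (h : ∀ i : ℕ, mu p X i y Z = 0) : nu p w X y Z = 0 := by
  unfold nu nuG
  have : ∑ i ∈ Finset.range p, w (win p y i) * muG Conj Eq p X i y Z = 0 := by
    refine Finset.sum_eq_zero fun i _ => ?_
    have h1 : muG Conj Eq p X i y Z = 0 := h i
    rw [h1, mul_zero]
  rw [this, zero_div]

theorem a12_exists_mu (k : ℕ) (X : Set Seq) (y : Seq) (Z : Set Seq) (h : la k X y Z ≠ 0) :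
    ∃ i : ℕ, i ∈ Finset.range (Nat.factorial k) ∧ mu (Nat.factorial k) X i y Z ≠ 0 := by
  by_contra hcon
  push Not at hcon
  apply h
  unfold la laG
  have : ∑ j ∈ Finset.Ico (tk k y) (2 * tk k y),
      nuG Conj Eq (Nat.factorial k) (wt ((j : ℝ)⁻¹)) X y Z = 0 := by
    refine Finset.sum_eq_zero fun j _ => ?_
    unfold nuG
    have : ∑ i ∈ Finset.range (Nat.factorial k), wt ((j : ℝ)⁻¹) (win (Nat.factorial k) y i) *
        muG Conj Eq (Nat.factorial k) X i y Z = 0 := by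
      refine Finset.sum_eq_zero fun i hi => ?_
      have h1 : muG Conj Eq (Nat.factorial k) X i y Z = 0 := hcon i hi
      rw [h1, mul_zero]
    rw [this, zero_div]
  rw [this, zero_div]

theorem a12_fin (k : ℕ) (X : Set Seq) (y : Seq) : {Z | la k X y Z ≠ 0}.Finite := by
  refine Set.Finite.subset (Set.Finite.biUnion (Finset.finite_toSet
    (Finset.range (Nat.factorial k))) (t := fun i : ℕ => {Z | mu (Nat.factorial k) X i y Z ≠ 0})
    (fun i _ => a7_fin _ X i y)) ?_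
  intro Z hZ
  obtain ⟨i, hi, hi2⟩ := a12_exists_mu k X y Z hZ
  exact Set.mem_biUnion (x := i) (Finset.mem_coe.2 hi) hi2

theorem a12_supp (k : ℕ) {X : Set Seq} (hX : X ∈ T) {y : Seq} (hy : y ∈ X) (Z : Set Seq)
    (h : la k X y Z ≠ 0) : Conj X Z ∧ Z ∈ T := by
  obtain ⟨i, _, hi2⟩ := a12_exists_mu k X y Z h
  obtain ⟨h1, π, h2⟩ := a7_supp _ X i y Z hi2
  refine ⟨h1, ?_⟩
  rw [← h2]
  exact a3_T _ π hX hy i

theorem a12_wt_pos (a : ℝ) (m : ℕ) : 0 < wt a m := Real.exp_pos _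

theorem a12_la_pos (k : ℕ) (hk : 1 ≤ k) (X : Set Seq) (y : Seq) (Z : Set Seq) (i : ℕ)
    (hi : i ∈ Finset.range (Nat.factorial k)) (h : mu (Nat.factorial k) X i y Z ≠ 0) :
    la k X y Z ≠ 0 := by
  have hmu : 0 < mu (Nat.factorial k) X i y Z :=
    lt_of_le_of_ne (a7_nonneg Conj Eq _ X i y Z) (Ne.symm h)
  have ht : 1 ≤ tk k y := a11_one k hk y
  have hnu : ∀ j : ℕ, 0 < nuG Conj Eq (Nat.factorial k) (wt ((j : ℝ)⁻¹)) X y Z := by
    intro j
    unfold nuG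
    refine div_pos ?_ ?_
    · refine Finset.sum_pos' (fun l _ => mul_nonneg (a12_wt_pos _ _).le
        (a7_nonneg Conj Eq _ X l y Z)) ⟨i, hi, mul_pos (a12_wt_pos _ _) hmu⟩
    · exact Finset.sum_pos (fun l _ => a12_wt_pos _ _) ⟨i, hi⟩
  have : 0 < la k X y Z := by
    unfold la laG
    refine div_pos (Finset.sum_pos (fun j _ => hnu j) ⟨tk k y, ?_⟩) ?_
    · rw [Finset.mem_Ico]; omega
    · exact_mod_cast ht
  exact ne_of_gt this

theorem a12_sum (k : ℕ) (hk : 1 ≤ k) {X : Set Seq} (hX : X ∈ T) {y : Seq} (hy : y ∈ X)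
    (S : Finset (Set Seq)) (hS : ∀ Z, la k X y Z ≠ 0 → Z ∈ S) : ∑ Z ∈ S, la k X y Z = 1 := by
  have ht : 1 ≤ tk k y := a11_one k hk y
  have hmu : ∀ i ∈ Finset.range (Nat.factorial k),
      ∑ Z ∈ S, muG Conj Eq (Nat.factorial k) X i y Z = 1 := by
    intro i hi
    exact a7_sum (Nat.factorial k) hX hy i S
      (fun Z hZ => hS Z (a12_la_pos k hk X y Z i hi hZ))
  have hnu : ∀ j : ℕ, ∑ Z ∈ S, nuG Conj Eq (Nat.factorial k) (wt ((j : ℝ)⁻¹)) X y Z = 1 := by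
    intro j
    unfold nuG
    rw [← Finset.sum_div, Finset.sum_comm]
    have h1 : ∑ i ∈ Finset.range (Nat.factorial k), ∑ Z ∈ S,
        wt ((j : ℝ)⁻¹) (win (Nat.factorial k) y i) * muG Conj Eq (Nat.factorial k) X i y Z =
        ∑ i ∈ Finset.range (Nat.factorial k), wt ((j : ℝ)⁻¹) (win (Nat.factorial k) y i) := by
      refine Finset.sum_congr rfl fun i hi => ?_
      rw [← Finset.mul_sum, hmu i hi, mul_one]
    rw [h1]
    refine div_self (ne_of_gt (Finset.sum_pos (fun l _ => a12_wt_pos _ _) ⟨0, ?_⟩))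
    rw [Finset.mem_range]
    exact Nat.factorial_pos k
  unfold la laG
  rw [← Finset.sum_div, Finset.sum_comm]
  simp only [hnu]
  rw [Finset.sum_const, Nat.card_Ico]
  have h2 : 2 * tk k y - tk k y = tk k y := by omega
  rw [h2, nsmul_eq_mul, mul_one]
  refine div_self ?_
  have : (0 : ℝ) < tk k y := by exact_mod_cast ht
  exact ne_of_gt this

theorem a12_avg_mono {a b : ℝ} (hab : a ≤ b) (p : ℕ) (y : Seq) : avg a p y ≤ avg b p y := by
  unfold avg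
  refine div_le_div_of_nonneg_right (Finset.sum_le_sum fun i _ => ?_) (Nat.cast_nonneg _)
  exact Real.exp_le_exp.2 (mul_le_mul_of_nonneg_right hab (Nat.cast_nonneg _))

theorem a12_small (r : ℕ) (ε : ℝ) (hε : 0 < ε) : ∃ t0 : ℕ, 1 ≤ t0 ∧ ∀ t : ℕ, t0 ≤ t →
    (Real.exp (2 * ((t : ℝ)⁻¹ * r)) - 1) + 2 * (Real.exp (2 * ((t : ℝ)⁻¹ * r)) / t) +
      4 * ((2 * r : ℕ) : ℝ) / t ≤ ε := by
  have h0 : Tendsto (fun t : ℕ => ((t : ℝ))⁻¹) atTop (𝓝 0) := tendsto_inv_atTop_nhds_zero_nat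
  have h1 : Tendsto (fun t : ℕ => Real.exp (2 * ((t : ℝ)⁻¹ * r))) atTop (𝓝 1) := by
    have h2 : Tendsto (fun t : ℕ => 2 * ((t : ℝ)⁻¹ * r)) atTop (𝓝 0) := by
      have := (h0.mul_const (r : ℝ)).const_mul 2
      simpa using this
    have h3 := (Real.continuous_exp.tendsto 0).comp h2
    rw [Real.exp_zero] at h3
    exact h3
  have h3 : Tendsto (fun t : ℕ => (Real.exp (2 * ((t : ℝ)⁻¹ * r)) - 1) +
      2 * (Real.exp (2 * ((t : ℝ)⁻¹ * r)) / t) + 4 * ((2 * r : ℕ) : ℝ) / t) atTop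
      (𝓝 ((1 - 1) + 2 * (1 * 0) + 4 * ((2 * r : ℕ) : ℝ) * 0)) := by
    refine ((h1.sub_const 1).add ?_).add ?_
    · refine Tendsto.const_mul 2 ?_
      simp only [div_eq_mul_inv]
      exact h1.mul h0
    · simp only [div_eq_mul_inv]
      exact h0.const_mul _
  have h4 : ((1 : ℝ) - 1) + 2 * (1 * 0) + 4 * ((2 * r : ℕ) : ℝ) * 0 = 0 := by ring
  rw [h4] at h3
  have h5 := (h3.eventually (gt_mem_nhds hε)).exists_forall_of_atTop
  obtain ⟨t0, ht0⟩ := h5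
  exact ⟨max t0 1, le_max_right _ _, fun t ht => (ht0 t (le_trans (le_max_left _ _) ht)).le⟩

theorem a12_lim {X Y : Set Seq} (hX : X ∈ ClassA) (hXT : X ∈ T) (hY : Y ∈ T) (h : Conj X Y)
    (ε : ℝ) (hε : 0 < ε) :
    ∃ K : ℕ, ∀ k ≥ K, ∀ y ∈ X, ∀ z ∈ Y, ∀ S : Finset (Set Seq),
      ∑ Z ∈ S, |la k X y Z - la k Y z Z| ≤ ε := by
  obtain ⟨r, φ, hφ⟩ := a4_code hXT hY h
  obtain ⟨t0, ht01, ht0⟩ := a12_small r ε hε
  obtain ⟨y0, hy0⟩ := a1_nonempty hXT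
  obtain ⟨K0, hK0⟩ := a11_tend hX hy0 t0
  refine ⟨max K0 1, fun k hk y hy z hz S => ?_⟩
  have hk0 : K0 ≤ k := le_trans (le_max_left _ _) hk
  have hk1 : 1 ≤ k := le_trans (le_max_right _ _) hk
  have hφy : φ y ∈ Y := hφ.bij.mapsTo hy
  have e1 : ∀ Z, la k Y z Z = la k Y (φ y) Z := fun Z => a8_la Conj Eq k hY hz hφy Z
  simp only [e1]
  have htt : t0 ≤ tk k y := by
    rw [a8_tk k hXT hy hy0]; exact hK0 k hk0
  have ht1 : 0 < tk k y := lt_of_lt_of_le ht01 htt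
  have ht1' : 0 < tk k (φ y) := a11_one k hk1 (φ y)
  obtain ⟨c1, c2⟩ := a11_code hXT hY hφ k hy
  refine le_trans ?_ (ht0 (tk k y) htt)
  have htR : (0 : ℝ) < (tk k y : ℝ) := by exact_mod_cast ht1
  refine a9_block S (tk k y) (tk k (φ y)) (2 * r) ht1 ht1' c1 c2
    (fun j Z => nu (Nat.factorial k) (wt ((j : ℝ)⁻¹)) X y Z)
    (fun j Z => nu (Nat.factorial k) (wt ((j : ℝ)⁻¹)) Y (φ y) Z)
    (fun j Z => a10_nu_nonneg Conj Eq _ _ X y Z) (fun j Z => a10_nu_nonneg Conj Eq _ _ Y (φ y) Z)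
    (fun j => a10_nu_le _ _ X y S) (fun j => a10_nu_le _ _ Y (φ y) S) _ ?_
  intro j hj
  rw [Finset.mem_Ico] at hj
  have hj0 : (0 : ℝ) < (j : ℝ) := by
    have : 0 < j := lt_of_lt_of_le ht1 hj.1
    exact_mod_cast this
  have hjinv : (0 : ℝ) ≤ (j : ℝ)⁻¹ := inv_nonneg.2 hj0.le
  refine le_trans (a10_nu hjinv hXT hY hφ (Nat.factorial k) hy S) ?_
  have hle : (j : ℝ)⁻¹ ≤ (tk k y : ℝ)⁻¹ :=
    inv_anti₀ htR (by exact_mod_cast hj.1)
  have hexp : Real.exp (2 * ((j : ℝ)⁻¹ * r)) ≤ Real.exp (2 * ((tk k y : ℝ)⁻¹ * r)) := by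
    refine Real.exp_le_exp.2 (mul_le_mul_of_nonneg_left ?_ (by norm_num))
    exact mul_le_mul_of_nonneg_right hle (Nat.cast_nonneg _)
  have havg : (tk k y : ℝ) ≤ avg ((j : ℝ)⁻¹) (Nat.factorial k) y := by
    refine le_trans (a11_spec k y) (a12_avg_mono ?_ _ y)
    refine inv_anti₀ hj0 ?_
    have : (j : ℝ) ≤ ((2 * tk k y : ℕ) : ℝ) := by exact_mod_cast hj.2.le
    simpa using this
  have hdiv : Real.exp (2 * ((j : ℝ)⁻¹ * r)) / avg ((j : ℝ)⁻¹) (Nat.factorial k) y ≤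
      Real.exp (2 * ((tk k y : ℝ)⁻¹ * r)) / (tk k y : ℝ) :=
    div_le_div₀ (Real.exp_pos _).le hexp htR havg
  have := mul_le_mul_of_nonneg_left hdiv (by norm_num : (0 : ℝ) ≤ 2)
  linarith

end Pool.MP_7d5b89_lc.Amen
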