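import Pool.Agent.Lib.MP_7d5b89_lc.Defs

set_option autoImplicit false

open Filter Topology

/-! A2. Determined positions and windows depend only on the piece. -/

namespace Pool.MP_7d5b89_lc.Amen

theorem a2_det_aux {p : ℕ} {y z : Seq} (hy : y ∈ pc p z) (n : ℤ) (h : Det p z n) :
    Det p y n := by
  have hcl : IsClosed {u : Seq | ∀ k : ℤ, u (n + k * p) = z n} := by
    have : {u : Seq | ∀ k : ℤ, u (n + k * p) = z n} = ⋂ k : ℤ, {u : Seq | u (n + k * p) = z n} := by
      ext u; simp
    rw [this]
    exact isClosed_iInter fun k =>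
      isClosed_eq (continuous_apply (A := fun _ : ℤ => Bool) _) continuous_const
  have hsub : pc p z ⊆ {u : Seq | ∀ k : ℤ, u (n + k * p) = z n} := by
    refine closure_minimal ?_ hcl
    rintro _ ⟨l, rfl⟩ k
    have := h (k + l)
    simp only [sh]
    rw [← this]; congr 1; ring
  intro k
  have h1 := hsub hy k
  have h2 := hsub hy 0
  simp only [zero_mul, add_zero] at h2
  rw [h1, h2]

theorem a2_mem (p : ℕ) (y : Seq) : y ∈ pc p y :=
  subset_closure ⟨0, by funext i; simp [sh]⟩

theorem a2_det {p : ℕ} {y z : Seq} (h : pc p y = pc p z) (n : ℤ) : Det p y n ↔ Det p z n :=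
  ⟨fun h1 => a2_det_aux (h ▸ a2_mem p z) n h1, fun h1 => a2_det_aux (h ▸ a2_mem p y) n h1⟩

theorem a2_det_sh (p : ℕ) (y : Seq) (j n : ℤ) : Det p (sh j y) n ↔ Det p y (n + j) := by
  unfold Det sh
  refine forall_congr' fun k => ?_
  have : n + k * p + j = n + j + k * p := by ring
  rw [this]

theorem a2_det_per (p : ℕ) (y : Seq) (n k : ℤ) : Det p y (n + k * p) ↔ Det p y n := by
  constructor
  · intro h l
    have h1 := h (l - k)
    have h2 := h (-k)
    have e1 : n + k * p + (l - k) * p = n + l * p := by ring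
    have e2 : n + k * p + (-k) * p = n := by ring
    rw [e1] at h1
    rw [e2] at h2
    rw [h1, h2]
  · intro h l
    have h1 := h (k + l)
    have h2 := h k
    have e1 : n + (k + l) * p = n + k * p + l * p := by ring
    rw [e1] at h1
    rw [h1, h2]

theorem a2_win {p : ℕ} {y z : Seq} (h : pc p y = pc p z) (i : ℤ) : win p y i = win p z i := by
  unfold win
  congr 1
  funext m
  simp only [a2_det h]

theorem a2_win_sh (p : ℕ) (y : Seq) (j i : ℤ) : win p (sh j y) i = win p y (i + j) := by
  unfold win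
  congr 1
  funext m
  simp only [a2_det_sh, add_right_comm i _ j]

theorem a2_win_per (p : ℕ) (y : Seq) (i k : ℤ) : win p y (i + k * p) = win p y i := by
  unfold win
  congr 1
  funext m
  have : ∀ j : ℤ, Det p y (i + k * p + j) ↔ Det p y (i + j) := by
    intro j
    rw [add_right_comm i (k * p) j]
    exact a2_det_per p y (i + j) k
  simp only [this]

theorem a2_sum_one (p : ℕ) (g : ℤ → ℝ) (hg : ∀ i, g (i + p) = g i) (j : ℤ) :
    ∑ i ∈ Finset.range p, g (i + (j + 1)) = ∑ i ∈ Finset.range p, g (i + j) := by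
  have h1 := Finset.sum_range_succ (fun i : ℕ => g (i + j)) p
  have h2 := Finset.sum_range_succ' (fun i : ℕ => g (i + j)) p
  have h3 : g ((p : ℤ) + j) = g j := by rw [add_comm]; exact hg j
  have h4 : ∀ i : ℕ, g (((i + 1 : ℕ) : ℤ) + j) = g (i + (j + 1)) := by
    intro i; congr 1; push_cast; ring
  simp only [h4] at h2
  rw [h1] at h2
  simp only [Nat.cast_zero, zero_add] at h2
  rw [h3] at h2
  linarith

theorem a2_sum (p : ℕ) [NeZero p] (g : ℤ → ℝ) (hg : ∀ i, g (i + p) = g i) (j : ℤ) :
    ∑ i ∈ Finset.range p, g (i + j) = ∑ i ∈ Finset.range p, g i := by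
  induction j using Int.induction_on with
  | zero => simp
  | succ k ih => rw [a2_sum_one p g hg, ih]
  | pred k ih =>
    rw [← ih]
    have := a2_sum_one p g hg (-(k : ℤ) - 1)
    rw [sub_add_cancel] at this
    exact this.symm

end Pool.MP_7d5b89_lc.Amen
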