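import Pool.Agent.Lib.MP_7d5b89_lc.A1

set_option autoImplicit false

open Filter Topology

/-! A3. The recoding map. -/

namespace Pool.MP_7d5b89_lc.Amen

theorem a3_split (p : ℕ) [NeZero p] (n : ℤ) : n / p * p + ((n : ZMod p).val : ℤ) = n := by
  rw [ZMod.val_intCast]
  have := Int.emod_add_mul_ediv n p
  linarith [this, mul_comm (p : ℤ) (n / p)]

theorem a3_div (p : ℕ) [NeZero p] (b : ℤ) (c : ZMod p) : (b * p + (c.val : ℤ)) / p = b := by
  have hp : (p : ℤ) ≠ 0 := by exact_mod_cast NeZero.ne p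
  rw [add_comm, Int.add_mul_ediv_right _ _ hp, Int.ediv_eq_zero_of_lt (by positivity), zero_add]
  exact_mod_cast ZMod.val_lt c

theorem a3_cast (p : ℕ) [NeZero p] (b : ℤ) (c : ZMod p) :
    ((b * p + (c.val : ℤ) : ℤ) : ZMod p) = c := by
  push_cast
  simp

theorem a3_blk (p : ℕ) [NeZero p] (π : Equiv.Perm (ZMod p → Bool)) (x : Seq) (b : ℤ) :
    blk p (rcd p π x) b = π (blk p x b) := by
  funext c
  unfold blk
  simp only [rcd]
  rw [a3_div, a3_cast]
  rfl

theorem a3_blk_sh (p : ℕ) (x : Seq) (k b : ℤ) :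
    blk p (sh (k * p) x) b = blk p x (b + k) := by
  funext c
  unfold blk sh
  congr 1
  ring

theorem a3_cont (p : ℕ) [NeZero p] (π : Equiv.Perm (ZMod p → Bool)) : Continuous (rcd p π) := by
  refine continuous_pi fun n => ?_
  have h1 : Continuous (fun x : Seq => blk p x (n / p)) :=
    continuous_pi fun c => continuous_apply (A := fun _ : ℤ => Bool) _
  have h2 : Continuous (fun v : ZMod p → Bool => π v (n : ZMod p)) := continuous_of_discreteTopology
  exact h2.comp h1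

theorem a3_sh (p : ℕ) [NeZero p] (π : Equiv.Perm (ZMod p → Bool)) (k : ℤ) (x : Seq) :
    rcd p π (sh (k * p) x) = sh (k * p) (rcd p π x) := by
  funext n
  have hp : (p : ℤ) ≠ 0 := by exact_mod_cast NeZero.ne p
  simp only [rcd, sh]
  have e1 : (n + k * p) / (p : ℤ) = n / p + k := Int.add_mul_ediv_right _ _ hp
  have e2 : ((n + k * p : ℤ) : ZMod p) = (n : ZMod p) := by push_cast; simp
  rw [e1, e2]
  rw [a3_blk_sh p x k (n / p)]

theorem a3_mul (p : ℕ) [NeZero p] (π τ : Equiv.Perm (ZMod p → Bool)) (x : Seq) :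
    rcd p (π * τ) x = rcd p π (rcd p τ x) := by
  funext n
  have h : rcd p π (rcd p τ x) n = π (blk p (rcd p τ x) (n / p)) (n : ZMod p) := rfl
  rw [h, a3_blk]
  rfl

theorem a3_one (p : ℕ) [NeZero p] (x : Seq) : rcd p 1 x = x := by
  funext n
  have h : rcd p 1 x n = x (n / p * p + ((n : ZMod p).val : ℤ)) := rfl
  rw [h, a3_split]

theorem a3_mem (p : ℕ) [NeZero p] (π : Equiv.Perm (ZMod p → Bool)) {y z : Seq}
    (h : y ∈ pc p z) : rcd p π y ∈ pc p (rcd p π z) := by
  have h1 : rcd p π y ∈ rcd p π '' closure (Set.range fun k : ℤ => sh (k * p) z) := ⟨y, h, rfl⟩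
  have h2 := image_closure_subset_closure_image (a3_cont p π) h1
  refine closure_mono ?_ h2
  rintro _ ⟨_, ⟨k, rfl⟩, rfl⟩
  exact ⟨k, (a3_sh p π k z).symm⟩

theorem a3_orb_sub (p : ℕ) [NeZero p] (π : Equiv.Perm (ZMod p → Bool)) {y z : Seq}
    (h : y ∈ pc p z) : orb (rcd p π y) ⊆ orb (rcd p π z) :=
  a1_orb_mono _ (a1_pc_sub_orb p _ (a3_mem p π h))

theorem a3_orb (p : ℕ) [NeZero p] (π : Equiv.Perm (ZMod p → Bool)) {y z : Seq}
    (h : pc p y = pc p z) : orb (rcd p π y) = orb (rcd p π z) :=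
  Set.Subset.antisymm (a3_orb_sub p π (h ▸ a1_mem p y)) (a3_orb_sub p π (h ▸ a1_mem p z))

theorem a3_iter (u : Seq) (q : ℤ) (h : sh q u = u) (m : ℕ) : sh (q * m) u = u := by
  induction m with
  | zero => simp [a1_sh_zero]
  | succ m ih =>
    have : q * ((m + 1 : ℕ) : ℤ) = q * m + q := by push_cast; ring
    rw [this, ← a1_sh_sh, h, ih]

theorem a3_toep (p : ℕ) [NeZero p] (π : Equiv.Perm (ZMod p → Bool)) {x : Seq}
    (hx : IsToeplitz x) : IsToeplitz (rcd p π x) := by
  have hp : (p : ℤ) ≠ 0 := by exact_mod_cast NeZero.ne p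
  have hp0 : 0 < p := Nat.pos_of_ne_zero (NeZero.ne p)
  refine ⟨fun n => ?_, fun q hq => ?_⟩
  · obtain ⟨P, hP, ⟨c, hc⟩, hper⟩ := a1_common hx p hp0 ((n / p).natAbs * p + p)
    refine ⟨P, hP, fun k => ?_⟩
    have e1 : (n + k * P) / (p : ℤ) = n / p + k * c := by
      have : n + k * P = n + k * c * p := by rw [hc]; ring
      rw [this]; exact Int.add_mul_ediv_right _ _ hp
    have e2 : ((n + k * P : ℤ) : ZMod p) = (n : ZMod p) := by rw [hc]; push_cast; simp
    simp only [rcd]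
    rw [e1, e2]
    suffices hb : blk p x (n / p + k * c) = blk p x (n / p) by rw [hb]
    funext d
    unfold blk
    have e3 : (n / p + k * c) * p + (d.val : ℤ) = n / p * p + (d.val : ℤ) + k * P := by
      rw [hc]; ring
    rw [e3]
    refine hper _ ?_ k
    have hd : (d.val : ℤ) < p := by exact_mod_cast ZMod.val_lt d
    calc |n / p * p + (d.val : ℤ)| ≤ |n / p * p| + |(d.val : ℤ)| := abs_add_le _ _
      _ = |n / p| * p + d.val := by rw [abs_mul, Nat.abs_cast, Nat.abs_cast]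
      _ ≤ (((n / p).natAbs * p + p : ℕ) : ℤ) := by
        rw [Int.abs_eq_natAbs]
        push_cast
        linarith
  · by_contra hcon
    have h1 : sh q (rcd p π x) = rcd p π x := by
      funext n
      by_contra hn
      exact hcon ⟨n, hn⟩
    have h2 := a3_iter _ q h1 p
    rw [← a3_sh] at h2
    have h3 := congrArg (rcd p π⁻¹) h2
    rw [← a3_mul, ← a3_mul] at h3
    simp only [inv_mul_cancel, a3_one] at h3
    obtain ⟨n, hn⟩ := hx.2 (q * p) (mul_ne_zero hq hp)
    exact hn (congrFun h3 n)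

theorem a3_T (p : ℕ) [NeZero p] (π : Equiv.Perm (ZMod p → Bool)) {X : Set Seq} (hX : X ∈ T)
    {y : Seq} (hy : y ∈ X) (i : ℤ) : tgt p π i y ∈ T := by
  obtain ⟨x, hx, _, hpc⟩ := a1_toep hX p (a1_sh hX hy i)
  refine ⟨rcd p π x, a3_toep p π hx, ?_⟩
  unfold tgt
  exact (a3_orb p π hpc).symm

end Pool.MP_7d5b89_lc.Amen
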