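import Pool.Agent.Lib.MP_7d5b89_lc.A1

set_option autoImplicit false

open Filter Topology

/-! A6. Windows change by at most r. -/

namespace Pool.MP_7d5b89_lc.Amen

theorem a6_det {X Z : Set Seq} (hX : X ∈ T) {r : ℕ} {φ : Seq → Seq} (h : IsCode r X Z φ)
    {p : ℕ} {y : Seq} (hy : y ∈ X) (n : ℤ) (hn : ∀ j : ℤ, |j| ≤ r → Det p y (n + j)) :
    Det p (φ y) n := by
  intro k
  have h1 : φ y (n + k * p) = φ (sh (k * p) y) n := by
    rw [h.eqv y hy]; rfl
  rw [h1]
  refine h.loc _ (a1_sh hX hy _) _ hy n (fun j hj => ?_)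
  simp only [sh]
  exact hn j hj k

theorem a6_det_inv {X Z : Set Seq} (hX : X ∈ T) {r : ℕ} {φ : Seq → Seq} (h : IsCode r X Z φ)
    {p : ℕ} {y : Seq} (hy : y ∈ X) (n : ℤ) (hn : ∀ j : ℤ, |j| ≤ r → Det p (φ y) (n + j)) :
    Det p y n := by
  intro k
  have h1 : y (n + k * p) = sh (k * p) y n := rfl
  rw [h1]
  refine h.inv _ (a1_sh hX hy _) _ hy n (fun j hj => ?_)
  rw [h.eqv y hy]
  simp only [sh]
  exact hn j hj k

theorem a6_win_aux {p : ℕ} {y z : Seq} {r : ℕ} (i : ℤ)
    (H : ∀ n : ℤ, (∀ j : ℤ, |j| ≤ r → Det p y (n + j)) → Det p z n) :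
    win p y i ≤ win p z i + r := by
  classical
  have hw : ∀ j : ℤ, |j| < (win p y i : ℤ) → Det p y (i + j) := by
    have := Nat.findGreatest_spec (P := fun m => ∀ j : ℤ, |j| < m → Det p y (i + j)) (m := 0)
      (n := p) (Nat.zero_le _) (by
        intro j hj
        exfalso
        have := abs_nonneg j
        push_cast at hj
        linarith)
    exact this
  by_cases hle : win p y i ≤ r
  · omega
  · have h2 : win p y i - r ≤ win p z i := by
      refine Nat.le_findGreatest ?_ ?_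
      · have : win p y i ≤ p := Nat.findGreatest_le p
        omega
      · intro j hj
        refine H (i + j) (fun l hl => ?_)
        rw [add_assoc]
        refine hw (j + l) ?_
        have e : ((win p y i - r : ℕ) : ℤ) = (win p y i : ℤ) - r := by omega
        rw [e] at hj
        calc |j + l| ≤ |j| + |l| := abs_add_le _ _
          _ < (win p y i : ℤ) := by linarith
    omega

theorem a6_win1 {X Z : Set Seq} (hX : X ∈ T) {r : ℕ} {φ : Seq → Seq} (h : IsCode r X Z φ)
    {p : ℕ} {y : Seq} (hy : y ∈ X) (i : ℤ) : win p y i ≤ win p (φ y) i + r :=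
  a6_win_aux i (fun n hn => a6_det hX h hy n hn)

theorem a6_win2 {X Z : Set Seq} (hX : X ∈ T) {r : ℕ} {φ : Seq → Seq} (h : IsCode r X Z φ)
    {p : ℕ} {y : Seq} (hy : y ∈ X) (i : ℤ) : win p (φ y) i ≤ win p y i + r :=
  a6_win_aux i (fun n hn => a6_det_inv hX h hy n hn)

end Pool.MP_7d5b89_lc.Amen
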