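import Pool.Agent.Lib.MP_7d5b89_lc.A1
import Pool.Agent.Lib.MP_7d5b89_lc.A6

set_option autoImplicit false

open Filter Topology

/-! A5. The key lemma. -/

namespace Pool.MP_7d5b89_lc.Amen

/-- locality of blocks: if the blocks `b` and `b'` of `u` agree and the positions at distance
`≤ r` from `0` are determined, then `u` agrees at `bp + c + j` and `b'p + c + j` for
`0 ≤ c < p` and `|j| ≤ r` -/
theorem a5_near (p : ℕ) [NeZero p] (u : Seq) (r : ℕ) (hu : ∀ j : ℤ, |j| ≤ r → Det p u j)
    (b b' : ℤ) (hb : blk p u b = blk p u b') (c : ZMod p) (j : ℤ) (hj : |j| ≤ r) :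
    u (b * p + (c.val : ℤ) + j) = u (b' * p + (c.val : ℤ) + j) := by
  have hp0 : (0 : ℤ) < p := by exact_mod_cast Nat.pos_of_ne_zero (NeZero.ne p)
  have hc : (c.val : ℤ) < p := by exact_mod_cast ZMod.val_lt c
  have hc0 : (0 : ℤ) ≤ c.val := by positivity
  have hj' := abs_le.1 hj
  -- equality for positions in the block
  have hin : ∀ d : ℤ, 0 ≤ d → d < p → u (b * p + d) = u (b' * p + d) := by
    intro d hd0 hdp
    have h1 := congrFun hb (d : ZMod p)
    unfold blk at h1
    rw [ZMod.val_intCast, Int.emod_eq_of_lt hd0 hdp] at h1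
    exact h1
  rcases lt_or_ge ((c.val : ℤ) + j) 0 with h | h
  · have hd : Det p u (c.val + j) := hu _ (abs_le.2 ⟨by linarith [hj'.1], by linarith [hj'.2]⟩)
    have h1 := hd b
    have h2 := hd b'
    rw [show b * p + (c.val : ℤ) + j = c.val + j + b * p by ring, h1,
      show b' * p + (c.val : ℤ) + j = c.val + j + b' * p by ring, h2]
  · rcases lt_or_ge ((c.val : ℤ) + j) p with h' | h'
    · rw [add_assoc, add_assoc]
      exact hin _ h h'
    · have hd : Det p u (c.val + j - p) :=
        hu _ (abs_le.2 ⟨by linarith [hj'.1], by linarith [hj'.2]⟩)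
      have h1 := hd (b + 1)
      have h2 := hd (b' + 1)
      rw [show b * p + (c.val : ℤ) + j = c.val + j - p + (b + 1) * p by ring, h1,
        show b' * p + (c.val : ℤ) + j = c.val + j - p + (b' + 1) * p by ring, h2]

/-- extension of an injective correspondence of blocks to a permutation -/
theorem a5_perm (p : ℕ) [NeZero p] (u v : Seq)
    (h1 : ∀ b b' : ℤ, blk p u b = blk p u b' → blk p v b = blk p v b')
    (h2 : ∀ b b' : ℤ, blk p v b = blk p v b' → blk p u b = blk p u b') :
    ∃ τ : Equiv.Perm (ZMod p → Bool), ∀ b : ℤ, τ (blk p u b) = blk p v b := by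
  classical
  let P : (ZMod p → Bool) → Prop := fun w => ∃ b : ℤ, blk p u b = w
  let Q : (ZMod p → Bool) → Prop := fun w => ∃ b : ℤ, blk p v b = w
  have hf : ∀ w : {w // P w}, Q (blk p v w.2.choose) := fun w => ⟨_, rfl⟩
  have hg : ∀ w : {w // Q w}, P (blk p u w.2.choose) := fun w => ⟨_, rfl⟩
  let e : {w // P w} ≃ {w // Q w} :=
    { toFun := fun w => ⟨blk p v w.2.choose, hf w⟩
      invFun := fun w => ⟨blk p u w.2.choose, hg w⟩
      left_inv := by
        intro w
        apply Subtype.ext
        have h3 : blk p v (hf w).choose = blk p v w.2.choose := (hf w).choose_spec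
        have h4 := h2 _ _ h3
        exact h4.trans w.2.choose_spec
      right_inv := by
        intro w
        apply Subtype.ext
        have h3 : blk p u (hg w).choose = blk p u w.2.choose := (hg w).choose_spec
        have h4 := h1 _ _ h3
        exact h4.trans w.2.choose_spec }
  refine ⟨e.extendSubtype, fun b => ?_⟩
  have hb : P (blk p u b) := ⟨b, rfl⟩
  rw [Equiv.extendSubtype_apply_of_mem e _ hb]
  exact h1 _ _ hb.choose_spec

theorem a5_key {X Z : Set Seq} (hX : X ∈ T) {r : ℕ} {φ : Seq → Seq} (h : IsCode r X Z φ)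
    (p : ℕ) [NeZero p] {y : Seq} (hy : y ∈ X) (i : ℤ) (hi : 2 * r + 1 ≤ win p y i) :
    ∃ τ : Equiv.Perm (ZMod p → Bool), sh i (φ y) = rcd p τ (sh i y) := by
  classical
  have hw : ∀ j : ℤ, |j| < (win p y i : ℤ) → Det p y (i + j) := by
    have := Nat.findGreatest_spec (P := fun m => ∀ j : ℤ, |j| < m → Det p y (i + j)) (m := 0)
      (n := p) (Nat.zero_le _) (by
        intro j hj
        exfalso
        have := abs_nonneg j
        push_cast at hj
        linarith)
    exact this
  set u : Seq := sh i y with hu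
  have huX : u ∈ X := a1_sh hX hy i
  have hdu : ∀ j : ℤ, |j| ≤ 2 * r → Det p u j := by
    intro j hj k
    have := hw j (by
      have : ((2 * r + 1 : ℕ) : ℤ) ≤ win p y i := by exact_mod_cast hi
      push_cast at this
      linarith) k
    rw [hu]
    simp only [sh]
    rw [add_comm i j] at this
    rw [← this]; congr 1; ring
  have hdv : ∀ j : ℤ, |j| ≤ r → Det p (φ u) j := by
    intro j hj
    refine a6_det hX h huX j (fun l hl => hdu _ ?_)
    calc |j + l| ≤ |j| + |l| := abs_add_le _ _
      _ ≤ 2 * r := by linarith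
  have hφu : sh i (φ y) = φ u := (h.eqv y hy i).symm
  have h1 : ∀ b b' : ℤ, blk p u b = blk p u b' → blk p (φ u) b = blk p (φ u) b' := by
    intro b b' hb
    funext c
    unfold blk
    have e1 : ∀ b : ℤ, φ u (b * p + (c.val : ℤ)) = φ (sh (b * p) u) (c.val : ℤ) := by
      intro b
      rw [h.eqv u huX]
      simp only [sh]
      rw [add_comm]
    rw [e1 b, e1 b']
    refine h.loc _ (a1_sh hX huX _) _ (a1_sh hX huX _) _ (fun j hj => ?_)
    have := a5_near p u r (fun l hl => hdu l (by
      have : (0 : ℤ) ≤ r := by positivity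
      linarith)) b b' hb c j hj
    simp only [sh]
    rw [show (c.val : ℤ) + j + b * p = b * p + (c.val : ℤ) + j by ring,
      show (c.val : ℤ) + j + b' * p = b' * p + (c.val : ℤ) + j by ring]
    exact this
  have h2 : ∀ b b' : ℤ, blk p (φ u) b = blk p (φ u) b' → blk p u b = blk p u b' := by
    intro b b' hb
    funext c
    unfold blk
    have e1 : ∀ b : ℤ, u (b * p + (c.val : ℤ)) = sh (b * p) u (c.val : ℤ) := by
      intro b
      simp only [sh]
      rw [add_comm]
    rw [e1 b, e1 b']
    refine h.inv _ (a1_sh hX huX _) _ (a1_sh hX huX _) _ (fun j hj => ?_)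
    have := a5_near p (φ u) r hdv b b' hb c j hj
    rw [h.eqv u huX, h.eqv u huX]
    simp only [sh]
    rw [show (c.val : ℤ) + j + b * p = b * p + (c.val : ℤ) + j by ring,
      show (c.val : ℤ) + j + b' * p = b' * p + (c.val : ℤ) + j by ring]
    exact this
  obtain ⟨τ, hτ⟩ := a5_perm p u (φ u) h1 h2
  refine ⟨τ, ?_⟩
  rw [hφu]
  funext n
  have h3 := congrFun (hτ (n / p)) (n : ZMod p)
  have h4 : rcd p τ u n = τ (blk p u (n / p)) (n : ZMod p) := rfl
  rw [h4, h3]
  unfold blk
  congr 1
  rw [ZMod.val_intCast]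
  have := Int.emod_add_mul_ediv n p
  linarith [this, mul_comm (p : ℤ) (n / p)]

end Pool.MP_7d5b89_lc.Amen
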