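import Pool.Agent.Lib.MP_7d5b89_lc.A1

set_option autoImplicit false

open Filter Topology

/-! B1 (45 min). The selector. b1_mem: by induction on n there is y in X with
y (en j) = selP X n j for j < n (X nonempty); also selP X m j = selP X n j for j < m <= n. So every
finite window of sel X is realised in X, and X is closed (a1_closed). b1_meas: by induction on n,
X ↦ selP X n j is measurable for every j: for every fixed v the set of X with
(∃ y ∈ X, (∀ j < n, y (en j) = v j) ∧ y (en n) = false) is a generator of mS (finite window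
en 0, .., en n), and selP X n restricted to j < n takes finitely many values v. -/

namespace Pool.MP_7d5b89_lc.Amen

theorem b1_en (i : ℤ) : en (Equiv.intEquivNat i) = i := by
  unfold en
  rw [Equiv.symm_apply_apply]

theorem b1_ne (n : ℕ) : Equiv.intEquivNat (en n) = n := by
  unfold en
  rw [Equiv.apply_symm_apply]

theorem b1_stable (X : Set Seq) (m j : ℕ) (hj : j < m) (k : ℕ) :
    selP X (m + k) j = selP X m j := by
  induction k with
  | zero => rfl
  | succ k ih =>
    rw [← Nat.add_assoc, selP, Function.update_of_ne (by omega), ih]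

theorem b1_real (X : Set Seq) (hX : X.Nonempty) (n : ℕ) :
    ∃ y ∈ X, ∀ j < n, y (en j) = selP X n j := by
  classical
  induction n with
  | zero =>
    obtain ⟨y, hy⟩ := hX
    exact ⟨y, hy, fun j hj => absurd hj (Nat.not_lt_zero j)⟩
  | succ n ih =>
    obtain ⟨y, hy, hy2⟩ := ih
    by_cases h : ∃ y ∈ X, (∀ j < n, y (en j) = selP X n j) ∧ y (en n) = false
    · obtain ⟨z, hz, hz1, hz2⟩ := id h
      refine ⟨z, hz, fun j hj => ?_⟩
      rw [selP]
      rcases Nat.lt_succ_iff_lt_or_eq.1 hj with hj | rfl
      · rw [Function.update_of_ne hj.ne, hz1 j hj]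
      · rw [Function.update_self, if_pos h, hz2]
    · refine ⟨y, hy, fun j hj => ?_⟩
      rw [selP]
      rcases Nat.lt_succ_iff_lt_or_eq.1 hj with hj | rfl
      · rw [Function.update_of_ne hj.ne, hy2 j hj]
      · rw [Function.update_self, if_neg h]
        by_contra hne
        exact h ⟨y, hy, hy2, by simpa using hne⟩

theorem b1_mem {X : Set Seq} (hX : X ∈ T) : sel X ∈ X := by
  have hcl : closure X = X := (a1_closed hX).closure_eq
  have hmain : sel X ∈ closure X → sel X ∈ X := fun h => by rwa [hcl] at h
  apply hmain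
  rw [a1_mem_closure]
  intro n
  obtain ⟨N, hN⟩ : ∃ N : ℕ, ∀ i : ℤ, |i| ≤ n → Equiv.intEquivNat i < N := by
    refine ⟨(Finset.Icc (-(n : ℤ)) n).sup (fun i => Equiv.intEquivNat i) + 1, fun i hi => ?_⟩
    rw [abs_le] at hi
    exact Nat.lt_succ_of_le (Finset.le_sup (f := fun i => Equiv.intEquivNat i)
      (Finset.mem_Icc.2 hi))
  obtain ⟨y, hy, hy2⟩ := b1_real X (a1_nonempty hX) N
  refine ⟨y, hy, fun i hi => ?_⟩
  have h1 := hy2 _ (hN i hi)
  rw [b1_en] at h1
  rw [h1]
  unfold sel
  have h2 := b1_stable X (Equiv.intEquivNat i + 1) (Equiv.intEquivNat i) (Nat.lt_succ_self _)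
    (N - (Equiv.intEquivNat i + 1))
  have h3 : Equiv.intEquivNat i + 1 + (N - (Equiv.intEquivNat i + 1)) = N := by
    have := hN i hi
    omega
  rw [h3] at h2
  exact h2

theorem b1_gen (n : ℕ) (v : Fin n → Bool) : @MeasurableSet (Set Seq) mS
    {X | ∃ y ∈ X, (∀ j : Fin n, y (en j) = v j) ∧ y (en n) = false} := by
  apply MeasurableSpace.measurableSet_generateFrom
  refine ⟨(Finset.range (n + 1)).image en,
    fun i => if h : Equiv.intEquivNat i < n then v ⟨_, h⟩ else false, ?_⟩
  ext X
  constructor
  · rintro ⟨y, hy, h1, h2⟩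
    refine ⟨y, hy, fun i hi => ?_⟩
    obtain ⟨j, hj, rfl⟩ := Finset.mem_image.1 hi
    rw [Finset.mem_range] at hj
    simp only [b1_ne]
    by_cases h : j < n
    · rw [dif_pos h]; exact h1 ⟨j, h⟩
    · rw [dif_neg h]
      have : j = n := by omega
      rw [this, h2]
  · rintro ⟨y, hy, h1⟩
    refine ⟨y, hy, fun j => ?_, ?_⟩
    · have := h1 (en j) (Finset.mem_image_of_mem _ (Finset.mem_range.2 (by omega)))
      rw [this]
      simp only [b1_ne]
      rw [dif_pos j.2]
    · have := h1 (en n) (Finset.mem_image_of_mem _ (Finset.mem_range.2 (by omega)))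
      rw [this]
      simp only [b1_ne]
      rw [dif_neg (lt_irrefl n)]

theorem b1_selP (n : ℕ) : ∀ j : ℕ, @Measurable (Set Seq) Bool mS _ (fun X => selP X n j) := by
  classical
  let _ : MeasurableSpace (Set Seq) := mS
  induction n with
  | zero =>
    intro j
    exact measurable_const
  | succ n ih =>
    intro j
    have hset : MeasurableSet
        {X : Set Seq | ∃ y ∈ X, (∀ j < n, y (en j) = selP X n j) ∧ y (en n) = false} := by
      have h1 : {X : Set Seq | ∃ y ∈ X, (∀ j < n, y (en j) = selP X n j) ∧ y (en n) = false} =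
          ⋃ v : Fin n → Bool, ({X : Set Seq | ∀ j : Fin n, selP X n j = v j} ∩
            {X | ∃ y ∈ X, (∀ j : Fin n, y (en j) = v j) ∧ y (en n) = false}) := by
        ext X
        simp only [Set.mem_iUnion, Set.mem_inter_iff]
        constructor
        · rintro ⟨y, hy, h1, h2⟩
          exact ⟨fun j => selP X n j, fun j => rfl, y, hy, fun j => h1 j j.2, h2⟩
        · rintro ⟨v, h1, y, hy, h2, h3⟩
          exact ⟨y, hy, fun j hj => (h2 ⟨j, hj⟩).trans (h1 ⟨j, hj⟩).symm, h3⟩
      rw [h1]
      refine MeasurableSet.iUnion fun v => MeasurableSet.inter ?_ (b1_gen n v)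
      have h2 : {X : Set Seq | ∀ j : Fin n, selP X n j = v j} =
          ⋂ j : Fin n, (fun X => selP X n j) ⁻¹' {v j} := by
        ext X
        simp only [Set.mem_iInter, Set.mem_preimage, Set.mem_singleton_iff]
        rfl
      rw [h2]
      exact MeasurableSet.iInter fun j => ih j (measurableSet_singleton _)
    by_cases hj : j = n
    · have h3 : (fun X => selP X (n + 1) j) = fun X =>
          if X ∈ {X : Set Seq | ∃ y ∈ X, (∀ j < n, y (en j) = selP X n j) ∧ y (en n) = false}
          then false else true := by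
        funext X
        rw [selP, hj, Function.update_self]
        rfl
      rw [h3]
      exact Measurable.ite hset measurable_const measurable_const
    · have h3 : (fun X => selP X (n + 1) j) = fun X => selP X n j := by
        funext X
        rw [selP, Function.update_of_ne hj]
      rw [h3]
      exact ih j

theorem b1_meas : @Measurable (Set Seq) Seq mS inferInstance sel := by
  let _ : MeasurableSpace (Set Seq) := mS
  rw [measurable_pi_iff]
  intro i
  exact b1_selP (Equiv.intEquivNat i + 1) (Equiv.intEquivNat i)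

end Pool.MP_7d5b89_lc.Amen
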