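import Pool.Agent.Lib.MP_7d5b89_lc.A1

set_option autoImplicit false

open Filter Topology

/-! B2 (30 min). Languages. b2_lang: two closed sets with the same finite patterns are equal.
b2_lang_meas: countable intersection over s, u of finitely many sets pulled back from mS by fst and
snd. b2_orb_meas: the preimage of a generator of mS is {x | ∃ m, ∀ i ∈ s, x (i + m) = w i}
(a cylinder is open, so it meets a closure iff it meets the set), a countable union. -/

namespace Pool.MP_7d5b89_lc.Amen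

theorem b2_sub {Y Z : Set Seq} (hZ : IsClosed Z) (h : LangEq Y Z) : Y ⊆ Z := by
  intro y hy
  have h0 : y ∈ closure Z := by
    rw [a1_mem_closure]
    intro n
    have h1 := (h (Finset.Icc (-(n : ℤ)) n)
      ((Finset.Icc (-(n : ℤ)) n).filter (fun i => y i = true))).1 ⟨y, hy, fun i hi => by
        rw [Finset.mem_filter]
        exact ⟨fun h => ⟨hi, h⟩, fun h => h.2⟩⟩
    obtain ⟨z, hz, hz2⟩ := h1
    refine ⟨z, hz, fun i hi => ?_⟩
    have hi' : i ∈ Finset.Icc (-(n : ℤ)) n := by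
      rw [abs_le] at hi
      exact Finset.mem_Icc.2 hi
    have h2 := hz2 i hi'
    rw [Finset.mem_filter] at h2
    rw [Bool.eq_iff_iff]
    exact h2.trans ⟨fun h => h.2, fun h => ⟨hi', h⟩⟩
  rwa [hZ.closure_eq] at h0

theorem b2_lang {Y Z : Set Seq} (hY : IsClosed Y) (hZ : IsClosed Z) (h : LangEq Y Z) :
    Y = Z :=
  Set.Subset.antisymm (b2_sub hZ h) (b2_sub hY (fun s u => (h s u).symm))

theorem b2_pat (s u : Finset ℤ) : @MeasurableSet (Set Seq) mS
    {Y | ∃ y ∈ Y, ∀ i ∈ s, (y i = true ↔ i ∈ u)} := by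
  classical
  apply MeasurableSpace.measurableSet_generateFrom
  refine ⟨s, fun i => decide (i ∈ u), ?_⟩
  ext Y
  constructor
  · rintro ⟨y, hy, h⟩
    refine ⟨y, hy, fun i hi => ?_⟩
    rw [Bool.eq_iff_iff, decide_eq_true_iff]
    exact h i hi
  · rintro ⟨y, hy, h⟩
    refine ⟨y, hy, fun i hi => ?_⟩
    rw [h i hi, decide_eq_true_iff]

theorem b2_fst : @Measurable (Set Seq × Set Seq) (Set Seq) mSS mS Prod.fst :=
  measurable_iff_comap_le.2 le_sup_left

theorem b2_snd : @Measurable (Set Seq × Set Seq) (Set Seq) mSS mS Prod.snd :=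
  measurable_iff_comap_le.2 le_sup_right

theorem b2_lang_meas : @MeasurableSet (Set Seq × Set Seq) mSS {q | LangEq q.1 q.2} := by
  have h1 : {q : Set Seq × Set Seq | LangEq q.1 q.2} = ⋂ s : Finset ℤ, ⋂ u : Finset ℤ,
      ((Prod.fst ⁻¹' {Y | ∃ y ∈ Y, ∀ i ∈ s, (y i = true ↔ i ∈ u)} ∩
        Prod.snd ⁻¹' {Y | ∃ y ∈ Y, ∀ i ∈ s, (y i = true ↔ i ∈ u)}) ∪
      ((Prod.fst ⁻¹' {Y | ∃ y ∈ Y, ∀ i ∈ s, (y i = true ↔ i ∈ u)})ᶜ ∩
        (Prod.snd ⁻¹' {Y | ∃ y ∈ Y, ∀ i ∈ s, (y i = true ↔ i ∈ u)})ᶜ)) := by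
    ext q
    simp only [Set.mem_iInter, Set.mem_union, Set.mem_inter_iff, Set.mem_compl_iff,
      Set.mem_preimage]
    constructor
    · intro h s u
      have h2 := h s u
      by_cases h3 : ∃ y ∈ q.1, ∀ i ∈ s, (y i = true ↔ i ∈ u)
      · exact Or.inl ⟨h3, h2.1 h3⟩
      · exact Or.inr ⟨h3, fun h4 => h3 (h2.2 h4)⟩
    · intro h s u
      rcases h s u with h2 | h2
      · exact ⟨fun _ => h2.2, fun _ => h2.1⟩
      · exact ⟨fun h3 => absurd h3 h2.1, fun h3 => absurd h3 h2.2⟩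
  rw [h1]
  let _ : MeasurableSpace (Set Seq × Set Seq) := mSS
  refine MeasurableSet.iInter fun s => MeasurableSet.iInter fun u => ?_
  have e1 := b2_fst (b2_pat s u)
  have e2 := b2_snd (b2_pat s u)
  exact (e1.inter e2).union (e1.compl.inter e2.compl)

theorem b2_orb_meas : @Measurable Seq (Set Seq) inferInstance mS orb := by
  apply measurable_generateFrom
  rintro _ ⟨s, w, rfl⟩
  have h1 : orb ⁻¹' {Y | ∃ y ∈ Y, ∀ i ∈ s, y i = w i} =
      ⋃ m : ℤ, ⋂ i ∈ s, {x : Seq | x (i + m) = w i} := by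
    ext x
    simp only [Set.mem_preimage, Set.mem_iUnion, Set.mem_iInter]
    constructor
    · rintro ⟨y, hy, h⟩
      have hopen : IsOpen {y : Seq | ∀ i ∈ s, y i = w i} := by
        have : {y : Seq | ∀ i ∈ s, y i = w i} = ⋂ i ∈ s, {y : Seq | y i = w i} := by
          ext y; simp
        rw [this]
        exact isOpen_biInter_finset fun i _ =>
          (isOpen_discrete {w i}).preimage (continuous_apply (A := fun _ : ℤ => Bool) i)
      obtain ⟨z, hz, ⟨m, rfl⟩⟩ := mem_closure_iff.1 hy _ hopen h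
      exact ⟨m, hz⟩
    · rintro ⟨m, h⟩
      exact ⟨fun i => x (i + m), subset_closure ⟨m, rfl⟩, h⟩
  rw [h1]
  refine MeasurableSet.iUnion fun m => Finset.measurableSet_biInter s fun i _ => ?_
  exact (measurable_pi_apply (X := fun _ : ℤ => Bool) (i + m)) (measurableSet_singleton (w i))

end Pool.MP_7d5b89_lc.Amen
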