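import Pool.Agent.Lib.MP_7d5b89_lc.A4

set_option autoImplicit false

open Filter Topology

/-! B3 (60 min). b3_iff: (←) a4_code gives φ of radius r; by loc the value φ x 0 is a function f of
the window x(-r..r) for x in X (extend arbitrarily), then φ = code r f on X by eqv; similarly g for
the inverse (a4_inv). (→) code r f is continuous and commutes with sh; the third clause says that
code r f x is in the closure of Z = Z; the first two clauses applied to sh k x give that the codes are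
inverse to each other. b3_meas: countable union over r, f, g (finite types for each r) of four
conditions; a condition `for all x ∈ X, C (x restricted to a finite window)` is the complement of a
finite union of generators; third clause: for all n, for all patterns v on the window
[-n-r, n+r]: (∃ x ∈ X with pattern v) → (∃ z ∈ Z with pattern code v on [-n, n]). -/

namespace Pool.MP_7d5b89_lc.Amen

theorem b3_code_sh (r : ℕ) (f : (Fin (2 * r + 1) → Bool) → Bool) (k : ℤ) (x : Seq) :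
    code r f (sh k x) = sh k (code r f x) := by
  funext i
  unfold code sh
  congr 1
  funext j
  congr 1
  ring

theorem b3_code_cont (r : ℕ) (f : (Fin (2 * r + 1) → Bool) → Bool) : Continuous (code r f) := by
  refine continuous_pi fun i => ?_
  have h1 : Continuous (fun x : Seq => fun j : Fin (2 * r + 1) => x (i + (j : ℤ) - r)) :=
    continuous_pi fun j => continuous_apply (A := fun _ : ℤ => Bool) _
  have h2 : Continuous f := continuous_of_discreteTopology
  exact h2.comp h1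

theorem b3_code_congr (r : ℕ) (f : (Fin (2 * r + 1) → Bool) → Bool) (n : ℕ) {x y : Seq}
    (h : ∀ k : ℤ, |k| ≤ ((n + r : ℕ) : ℤ) → x k = y k) (i : ℤ) (hi : |i| ≤ n) :
    code r f x i = code r f y i := by
  unfold code
  congr 1
  funext j
  apply h
  have hj := j.2
  rw [abs_le] at hi ⊢
  push_cast
  omega

theorem b3_inv {X : Set Seq} (hX : X ∈ T) {r : ℕ} {f g : (Fin (2 * r + 1) → Bool) → Bool}
    (h1 : ∀ x ∈ X, code r g (code r f x) 0 = x 0) {x : Seq} (hx : x ∈ X) :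
    code r g (code r f x) = x := by
  funext i
  have h2 := h1 (sh i x) (a1_sh hX hx i)
  rw [b3_code_sh, b3_code_sh] at h2
  have h3 : sh i (code r g (code r f x)) 0 = code r g (code r f x) i := by
    unfold sh; rw [zero_add]
  have h4 : sh i x 0 = x i := by unfold sh; rw [zero_add]
  rw [h3, h4] at h2
  exact h2

theorem b3_map {X Z : Set Seq} (hZ : Z ∈ T) {r : ℕ} {f : (Fin (2 * r + 1) → Bool) → Bool}
    (h : ∀ n : ℕ, ∀ x ∈ X, ∃ z ∈ Z, ∀ i : ℤ, |i| ≤ n → z i = code r f x i) {x : Seq}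
    (hx : x ∈ X) : code r f x ∈ Z := by
  have h0 : code r f x ∈ closure Z := by
    rw [a1_mem_closure]
    intro n
    exact h n x hx
  rwa [(a1_closed hZ).closure_eq] at h0

theorem b3_rule {X Z : Set Seq} (hX : X ∈ T) {r : ℕ} {φ : Seq → Seq} (h : IsCode r X Z φ) :
    ∃ f : (Fin (2 * r + 1) → Bool) → Bool, ∀ x ∈ X, φ x = code r f x := by
  classical
  refine ⟨fun v => if hv : ∃ x ∈ X, ∀ j : Fin (2 * r + 1), x ((j : ℤ) - r) = v j then
    φ (Classical.choose hv) 0 else false, fun x hx => ?_⟩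
  funext i
  unfold code
  have hx' : sh i x ∈ X := a1_sh hX hx i
  have hv : ∃ x' ∈ X, ∀ j : Fin (2 * r + 1), x' ((j : ℤ) - r) = x (i + (j : ℤ) - r) := by
    refine ⟨sh i x, hx', fun j => ?_⟩
    unfold sh
    congr 1
    ring
  beta_reduce
  rw [dif_pos hv]
  obtain ⟨h1, h2⟩ := Classical.choose_spec hv
  have h3 := h.loc (Classical.choose hv) h1 (sh i x) hx' 0 (by
    intro j hj
    rw [abs_le] at hj
    have h4 := h2 ⟨(j + r).toNat, by omega⟩
    have h5 : (((⟨(j + r).toNat, by omega⟩ : Fin (2 * r + 1)) : ℕ) : ℤ) = j + r := by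
      show (((j + r).toNat : ℕ) : ℤ) = j + r
      omega
    rw [h5] at h4
    have h6 : j + (r : ℤ) - r = 0 + j := by ring
    rw [h6] at h4
    rw [h4]
    unfold sh
    congr 1
    ring)
  rw [h3, h.eqv x hx i]
  unfold sh
  rw [zero_add]

theorem b3_iff {X Z : Set Seq} (hX : X ∈ T) (hZ : Z ∈ T) : CB X Z ↔ Conj X Z := by
  constructor
  · rintro ⟨r, f, g, h1, h2, h3, h4⟩
    refine ⟨code r f, (b3_code_cont r f).continuousOn, ⟨?_, ?_, ?_⟩, ?_⟩
    · intro x hx
      exact b3_map hZ h3 hx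
    · intro x hx x' hx' hxx
      have e1 := b3_inv hX h1 hx
      have e2 := b3_inv hX h1 hx'
      have hxx' : code r f x = code r f x' := hxx
      rw [← e1, ← e2, hxx']
    · intro z hz
      exact ⟨code r g z, b3_map hX h4 hz, b3_inv hZ h2 hz⟩
    · intro y _
      exact b3_code_sh r f 1 y
  · intro h
    obtain ⟨r, φ, hφ⟩ := a4_code hX hZ h
    obtain ⟨ψ, hψ, h1, h2⟩ := a4_inv hX hφ
    obtain ⟨f, hf⟩ := b3_rule hX hφ
    obtain ⟨g, hg⟩ := b3_rule hZ hψ
    refine ⟨r, f, g, ?_, ?_, ?_, ?_⟩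
    · intro x hx
      rw [← hf x hx, ← hg _ (hφ.bij.mapsTo hx), h1 x hx]
    · intro z hz
      rw [← hg z hz, ← hf _ (hψ.bij.mapsTo hz), h2 z hz]
    · intro n x hx
      exact ⟨φ x, hφ.bij.mapsTo hx, fun i _ => by rw [hf x hx]⟩
    · intro n z hz
      exact ⟨ψ z, hψ.bij.mapsTo hz, fun i _ => by rw [hg z hz]⟩

/-- the pattern of a finite set -/
def b3_pat (u : Finset ℤ) : Seq := fun i => decide (i ∈ u)

theorem b3_gen (s u : Finset ℤ) : @MeasurableSet (Set Seq) mS
    {X | ∃ x ∈ X, ∀ i ∈ s, x i = b3_pat u i} :=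
  MeasurableSpace.measurableSet_generateFrom ⟨s, b3_pat u, rfl⟩

theorem b3_ex (s : Finset ℤ) (C : Seq → Prop) (hC : ∀ x y : Seq, (∀ i ∈ s, x i = y i) → C x → C y) :
    @MeasurableSet (Set Seq) mS {X | ∃ x ∈ X, C x} := by
  have h1 : {X : Set Seq | ∃ x ∈ X, C x} = ⋃ u : Finset ℤ, ⋃ (_ : C (b3_pat u)),
      {X | ∃ x ∈ X, ∀ i ∈ s, x i = b3_pat u i} := by
    ext X
    simp only [Set.mem_iUnion, exists_prop]
    constructor
    · rintro ⟨x, hx, h⟩
      have h2 : ∀ i ∈ s, x i = b3_pat (s.filter (fun i => x i = true)) i := by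
        intro i hi
        unfold b3_pat
        rw [Bool.eq_iff_iff, decide_eq_true_iff, Finset.mem_filter]
        exact ⟨fun h => ⟨hi, h⟩, fun h => h.2⟩
      exact ⟨s.filter (fun i => x i = true), hC _ _ h2 h, x, hx, h2⟩
    · rintro ⟨u, hu, x, hx, h2⟩
      exact ⟨x, hx, hC _ _ (fun i hi => (h2 i hi).symm) hu⟩
  rw [h1]
  let _ : MeasurableSpace (Set Seq) := mS
  exact MeasurableSet.iUnion fun u => MeasurableSet.iUnion fun _ => b3_gen s u

theorem b3_all (s : Finset ℤ) (C : Seq → Prop)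
    (hC : ∀ x y : Seq, (∀ i ∈ s, x i = y i) → (C x ↔ C y)) :
    @MeasurableSet (Set Seq) mS {X | ∀ x ∈ X, C x} := by
  have h1 : {X : Set Seq | ∀ x ∈ X, C x} = {X : Set Seq | ∃ x ∈ X, ¬ C x}ᶜ := by
    ext X
    simp only [Set.mem_compl_iff]
    constructor
    · rintro h ⟨x, hx, h2⟩
      exact h2 (h x hx)
    · intro h x hx
      by_contra h2
      exact h ⟨x, hx, h2⟩
  rw [h1]
  let _ : MeasurableSpace (Set Seq) := mS
  exact MeasurableSet.compl (b3_ex s (fun x => ¬ C x) (fun x y h h2 h3 => h2 ((hC x y h).2 h3)))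

theorem b3_fst : @Measurable (Set Seq × Set Seq) (Set Seq) mSS mS Prod.fst :=
  measurable_iff_comap_le.2 le_sup_left

theorem b3_snd : @Measurable (Set Seq × Set Seq) (Set Seq) mSS mS Prod.snd :=
  measurable_iff_comap_le.2 le_sup_right

theorem b3_one (r : ℕ) (f g : (Fin (2 * r + 1) → Bool) → Bool) : @MeasurableSet (Set Seq) mS
    {X | ∀ x ∈ X, code r g (code r f x) 0 = x 0} := by
  apply b3_all (Finset.Icc (-((r + r : ℕ) : ℤ)) ((r + r : ℕ) : ℤ))
  intro x y h
  have h' : ∀ k : ℤ, |k| ≤ ((r + r : ℕ) : ℤ) → x k = y k := by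
    intro k hk
    rw [abs_le] at hk
    exact h k (Finset.mem_Icc.2 hk)
  have h1 : ∀ k : ℤ, |k| ≤ ((0 + r : ℕ) : ℤ) → code r f x k = code r f y k := by
    intro k hk
    rw [zero_add] at hk
    exact b3_code_congr r f r h' k hk
  have h2 := b3_code_congr r g 0 h1 0 (by simp)
  have h3 := h' 0 (by simp)
  rw [h2, h3]

/-- the third clause for one `n` -/
theorem b3_two (r : ℕ) (f : (Fin (2 * r + 1) → Bool) → Bool) (n : ℕ)
    (p₁ p₂ : Set Seq × Set Seq → Set Seq) (hp₁ : @Measurable _ _ mSS mS p₁)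
    (hp₂ : @Measurable _ _ mSS mS p₂) :
    @MeasurableSet (Set Seq × Set Seq) mSS
    {q | ∀ x ∈ p₁ q, ∃ z ∈ p₂ q, ∀ i : ℤ, |i| ≤ n → z i = code r f x i} := by
  have h1 : {q : Set Seq × Set Seq |
      ∀ x ∈ p₁ q, ∃ z ∈ p₂ q, ∀ i : ℤ, |i| ≤ n → z i = code r f x i} =
      ⋂ u : Finset ℤ,
      ((p₁ ⁻¹' {X | ∃ x ∈ X, ∀ i ∈ Finset.Icc (-((n + r : ℕ) : ℤ)) ((n + r : ℕ) : ℤ),
        x i = b3_pat u i})ᶜ ∪
      p₂ ⁻¹' {Z | ∃ z ∈ Z, ∀ i : ℤ, |i| ≤ n → z i = code r f (b3_pat u) i}) := by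
    ext q
    simp only [Set.mem_iInter, Set.mem_union, Set.mem_compl_iff, Set.mem_preimage]
    constructor
    · intro h u
      by_cases h2 : ∃ x ∈ p₁ q, ∀ i ∈ Finset.Icc (-((n + r : ℕ) : ℤ)) ((n + r : ℕ) : ℤ),
        x i = b3_pat u i
      · right
        obtain ⟨x, hx, hx2⟩ := h2
        obtain ⟨z, hz, hz2⟩ := h x hx
        refine ⟨z, hz, fun i hi => ?_⟩
        rw [hz2 i hi]
        refine b3_code_congr r f n ?_ i hi
        intro k hk
        rw [abs_le] at hk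
        exact hx2 k (Finset.mem_Icc.2 hk)
      · exact Or.inl h2
    · intro h x hx
      have h2 : ∀ i ∈ Finset.Icc (-((n + r : ℕ) : ℤ)) ((n + r : ℕ) : ℤ), x i =
          b3_pat ((Finset.Icc (-((n + r : ℕ) : ℤ)) ((n + r : ℕ) : ℤ)).filter
            (fun i => x i = true)) i := by
        intro i hi
        unfold b3_pat
        rw [Bool.eq_iff_iff, decide_eq_true_iff, Finset.mem_filter]
        exact ⟨fun h => ⟨hi, h⟩, fun h => h.2⟩
      rcases h ((Finset.Icc (-((n + r : ℕ) : ℤ)) ((n + r : ℕ) : ℤ)).filter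
        (fun i => x i = true)) with h3 | h3
      · exact absurd ⟨x, hx, h2⟩ h3
      · obtain ⟨z, hz, hz2⟩ := h3
        refine ⟨z, hz, fun i hi => ?_⟩
        rw [hz2 i hi]
        refine b3_code_congr r f n ?_ i hi
        intro k hk
        rw [abs_le] at hk
        exact (h2 k (Finset.mem_Icc.2 hk)).symm
  rw [h1]
  let _ : MeasurableSpace (Set Seq × Set Seq) := mSS
  refine MeasurableSet.iInter fun u => ?_
  have e1 := hp₁ (b3_gen (Finset.Icc (-((n + r : ℕ) : ℤ)) ((n + r : ℕ) : ℤ)) u)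
  have e2 := hp₂ (b3_ex (Finset.Icc (-(n : ℤ)) n)
    (fun z => ∀ i : ℤ, |i| ≤ n → z i = code r f (b3_pat u) i) (by
      intro x y h h2 i hi
      rw [← h2 i hi]
      rw [abs_le] at hi
      exact (h i (Finset.mem_Icc.2 hi)).symm))
  exact e1.compl.union e2

theorem b3_meas : @MeasurableSet (Set Seq × Set Seq) mSS {q | CB q.1 q.2} := by
  have h1 : {q : Set Seq × Set Seq | CB q.1 q.2} = ⋃ r : ℕ,
      ⋃ f : (Fin (2 * r + 1) → Bool) → Bool, ⋃ g : (Fin (2 * r + 1) → Bool) → Bool,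
      ((Prod.fst ⁻¹' {X | ∀ x ∈ X, code r g (code r f x) 0 = x 0} ∩
        Prod.snd ⁻¹' {Z | ∀ z ∈ Z, code r f (code r g z) 0 = z 0}) ∩
      ((⋂ n : ℕ, {q | ∀ x ∈ q.1, ∃ z ∈ q.2, ∀ i : ℤ, |i| ≤ n → z i = code r f x i}) ∩
        ⋂ n : ℕ, {q | ∀ z ∈ q.2, ∃ x ∈ q.1, ∀ i : ℤ, |i| ≤ n → x i = code r g z i})) := by
    ext q
    simp only [Set.mem_iUnion, Set.mem_inter_iff, Set.mem_preimage, Set.mem_iInter]
    constructor
    · rintro ⟨r, f, g, h1, h2, h3, h4⟩
      exact ⟨r, f, g, ⟨h1, h2⟩, h3, h4⟩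
    · rintro ⟨r, f, g, ⟨h1, h2⟩, h3, h4⟩
      exact ⟨r, f, g, h1, h2, h3, h4⟩
  rw [h1]
  let _ : MeasurableSpace (Set Seq × Set Seq) := mSS
  refine MeasurableSet.iUnion fun r => MeasurableSet.iUnion fun f => MeasurableSet.iUnion fun g => ?_
  have e1 := b3_fst (b3_one r f g)
  have e2 := b3_snd (b3_one r g f)
  have e3 : MeasurableSet (⋂ n : ℕ, {q : Set Seq × Set Seq |
      ∀ x ∈ q.1, ∃ z ∈ q.2, ∀ i : ℤ, |i| ≤ n → z i = code r f x i}) :=
    MeasurableSet.iInter fun n => b3_two r f n Prod.fst Prod.snd b3_fst b3_snd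
  have e4 : MeasurableSet (⋂ n : ℕ, {q : Set Seq × Set Seq |
      ∀ z ∈ q.2, ∃ x ∈ q.1, ∀ i : ℤ, |i| ≤ n → x i = code r g z i}) :=
    MeasurableSet.iInter fun n => b3_two r g n Prod.snd Prod.fst b3_snd b3_fst
  exact (e1.inter e2).inter (e3.inter e4)

end Pool.MP_7d5b89_lc.Amen
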