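import Pool.Agent.Lib.MP_7d5b89_lc.A3

set_option autoImplicit false

open Filter Topology

/-! B4 (30 min). Measurability on the space of sequences (product sigma algebra, Bool discrete).
All maps depend on countably many coordinates; b4_win: {y | Det p y n} is a countable intersection,
Mathlib: measurable_findGreatest. b4_tk: measurable_findGreatest again. -/

namespace Pool.MP_7d5b89_lc.Amen

theorem b4_rcd (p : ℕ) [NeZero p] (π : Equiv.Perm (ZMod p → Bool)) (i : ℤ) :
    Measurable (fun y : Seq => rcd p π (sh i y)) :=
  ((a3_cont p π).comp (a1_cont i)).measurable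

theorem b4_det (p : ℕ) (n : ℤ) : MeasurableSet {y : Seq | Det p y n} := by
  have h1 : {y : Seq | Det p y n} = ⋂ k : ℤ, {y : Seq | y (n + k * p) = y n} := by
    ext y
    simp [Det]
  rw [h1]
  exact MeasurableSet.iInter fun k =>
    measurableSet_eq_fun (measurable_pi_apply _) (measurable_pi_apply _)

theorem b4_win (p : ℕ) (i : ℤ) : Measurable (fun y : Seq => win p y i) := by
  classical
  unfold win
  refine measurable_findGreatest fun m _ => ?_
  have h1 : {y : Seq | ∀ j : ℤ, |j| < (m : ℤ) → Det p y (i + j)} =
      ⋂ j : ℤ, ⋂ _ : |j| < (m : ℤ), {y : Seq | Det p y (i + j)} := by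
    ext y
    simp
  rw [h1]
  exact MeasurableSet.iInter fun j => MeasurableSet.iInter fun _ => b4_det p (i + j)

theorem b4_avg (a : ℝ) (p : ℕ) : Measurable (fun y : Seq => avg a p y) := by
  unfold avg
  refine Measurable.div_const ?_ _
  refine Finset.measurable_fun_sum _ fun i _ => ?_
  have h1 : Measurable (fun m : ℕ => Real.exp (a * (m : ℝ))) := measurable_from_nat
  exact h1.comp (b4_win p i)

theorem b4_tk (k : ℕ) : Measurable (fun y : Seq => tk k y) := by
  classical
  unfold tk
  refine measurable_findGreatest fun t _ => ?_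
  exact measurableSet_le measurable_const (b4_avg _ _)

end Pool.MP_7d5b89_lc.Amen
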