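import Pool.Agent.Lib.MP_7d5b89_lc.B1
import Pool.Agent.Lib.MP_7d5b89_lc.B2
import Pool.Agent.Lib.MP_7d5b89_lc.B3
import Pool.Agent.Lib.MP_7d5b89_lc.B4

set_option autoImplicit false

open Filter Topology

/-! B5. Measurability of lamM n. -/

namespace Pool.MP_7d5b89_lc.Amen

theorem b5_fst : @Measurable (Set Seq × Set Seq) (Set Seq) mSS mS Prod.fst := by
  let _ : MeasurableSpace (Set Seq) := mS
  exact measurable_fst

theorem b5_snd : @Measurable (Set Seq × Set Seq) (Set Seq) mSS mS Prod.snd := by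
  let _ : MeasurableSpace (Set Seq) := mS
  exact measurable_snd

theorem b5_pair {f g : Set Seq × Set Seq → Set Seq}
    (hf : @Measurable (Set Seq × Set Seq) (Set Seq) mSS mS f)
    (hg : @Measurable (Set Seq × Set Seq) (Set Seq) mSS mS g) :
    @Measurable (Set Seq × Set Seq) (Set Seq × Set Seq) mSS mSS (fun q => (f q, g q)) := by
  let _ : MeasurableSpace (Set Seq) := mS
  exact hf.prodMk hg

theorem b5_sel : @Measurable (Set Seq × Set Seq) Seq mSS inferInstance (fun q => sel q.1) :=
  @Measurable.comp _ _ _ mSS mS _ _ _ b1_meas b5_fst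

theorem b5_tgt (p : ℕ) [NeZero p] (π : Equiv.Perm (ZMod p → Bool)) (i : ℤ) :
    @Measurable (Set Seq × Set Seq) (Set Seq) mSS mS (fun q => tgt p π i (sel q.1)) := by
  let _ : MeasurableSpace (Set Seq) := mS
  have h0 : Measurable orb := b2_orb_meas
  have h1 : Measurable (fun y : Seq => orb (rcd p π (sh i y))) := h0.comp (b4_rcd p π i)
  have h2 : Measurable (fun q : Set Seq × Set Seq => sel q.1) := b5_sel
  exact h1.comp h2

theorem b5_CB (p : ℕ) [NeZero p] (π : Equiv.Perm (ZMod p → Bool)) (i : ℤ) :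
    @MeasurableSet (Set Seq × Set Seq) mSS {q | CB q.1 (tgt p π i (sel q.1))} :=
  (b5_pair b5_fst (b5_tgt p π i)) b3_meas

theorem b5_LE (p : ℕ) [NeZero p] (π : Equiv.Perm (ZMod p → Bool)) (i : ℤ) :
    @MeasurableSet (Set Seq × Set Seq) mSS {q | LangEq (tgt p π i (sel q.1)) q.2} :=
  (b5_pair (b5_tgt p π i) b5_snd) b2_lang_meas

theorem b5_muG (p : ℕ) [NeZero p] (i : ℤ) :
    @Measurable (Set Seq × Set Seq) ℝ mSS inferInstance
      (fun q => muG CB LangEq p q.1 i (sel q.1) q.2) := by
  classical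
  let _ : MeasurableSpace (Set Seq × Set Seq) := mSS
  unfold muG
  refine Measurable.div ?_ ?_
  · simp only [Finset.card_filter, Nat.cast_sum]
    refine Finset.measurable_fun_sum _ fun π _ => ?_
    have hset : MeasurableSet {q : Set Seq × Set Seq | CB q.1 (tgt p π i (sel q.1)) ∧
        LangEq (tgt p π i (sel q.1)) q.2} := (b5_CB p π i).inter (b5_LE p π i)
    have h1 : Measurable (fun q : Set Seq × Set Seq =>
        if CB q.1 (tgt p π i (sel q.1)) ∧ LangEq (tgt p π i (sel q.1)) q.2 then (1 : ℝ) else 0) :=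
      Measurable.ite hset measurable_const measurable_const
    convert h1 using 2 with q
    split_ifs <;> simp
  · simp only [Finset.card_filter, Nat.cast_sum]
    refine Finset.measurable_fun_sum _ fun π _ => ?_
    have hset : MeasurableSet {q : Set Seq × Set Seq | CB q.1 (tgt p π i (sel q.1))} := b5_CB p π i
    have h1 : Measurable (fun q : Set Seq × Set Seq =>
        if CB q.1 (tgt p π i (sel q.1)) then (1 : ℝ) else 0) :=
      Measurable.ite hset measurable_const measurable_const
    convert h1 using 2 with q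
    split_ifs <;> simp

theorem b5_nuG (p : ℕ) [NeZero p] (a : ℝ) :
    @Measurable (Set Seq × Set Seq) ℝ mSS inferInstance
      (fun q => nuG CB LangEq p (wt a) q.1 (sel q.1) q.2) := by
  let _ : MeasurableSpace (Set Seq × Set Seq) := mSS
  have hw : ∀ i : ℤ, Measurable (fun q : Set Seq × Set Seq => wt a (win p (sel q.1) i)) := by
    intro i
    have h1 : Measurable (fun q : Set Seq × Set Seq => win p (sel q.1) i) :=
      (b4_win p i).comp b5_sel
    have h2 : Measurable (fun m : ℕ => wt a m) := measurable_from_nat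
    exact h2.comp h1
  unfold nuG
  refine Measurable.div ?_ ?_
  · refine Finset.measurable_fun_sum _ fun i _ => ?_
    exact (hw i).mul (b5_muG p i)
  · exact Finset.measurable_fun_sum _ fun i _ => hw i

theorem b5_step (k : ℕ) (t : ℕ) : @Measurable (Set Seq × Set Seq) ℝ mSS inferInstance
    (fun q => (∑ j ∈ Finset.Ico t (2 * t), nuG CB LangEq (Nat.factorial k)
      (wt ((j : ℝ)⁻¹)) q.1 (sel q.1) q.2) / (t : ℝ)) := by
  let _ : MeasurableSpace (Set Seq × Set Seq) := mSS
  have h1 : Measurable (fun q : Set Seq × Set Seq => ∑ j ∈ Finset.Ico t (2 * t),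
      nuG CB LangEq (Nat.factorial k) (wt ((j : ℝ)⁻¹)) q.1 (sel q.1) q.2) :=
    Finset.measurable_fun_sum _ fun j _ => b5_nuG (Nat.factorial k) _
  exact h1.div_const (t : ℝ)

theorem b5_glue {α : Type} (m : MeasurableSpace α) (F : ℕ → α → ℝ) (τ : α → ℕ)
    (hF : ∀ t, Measurable (F t)) (hτ : Measurable τ) : Measurable (fun q => F (τ q) q) := by
  have h1 : Measurable (fun z : α × ℕ => F z.2 z.1) :=
    measurable_from_prod_countable_left fun t => hF t
  exact h1.comp (measurable_id.prodMk hτ)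

theorem b5_meas (n : ℕ) : @Measurable (Set Seq × Set Seq) ℝ mSS inferInstance (lamM n) := by
  have htk : @Measurable (Set Seq × Set Seq) ℕ mSS inferInstance
      (fun q => tk (n + 1) (sel q.1)) :=
    @Measurable.comp _ _ _ mSS _ _ _ _ (b4_tk (n + 1)) b5_sel
  have h := b5_glue mSS (fun t q => (∑ j ∈ Finset.Ico t (2 * t),
    nuG CB LangEq (Nat.factorial (n + 1)) (wt ((j : ℝ)⁻¹)) q.1 (sel q.1) q.2) / (t : ℝ))
    (fun q => tk (n + 1) (sel q.1)) (fun t => b5_step (n + 1) t) htk
  have he : lamM n = fun q => (∑ j ∈ Finset.Ico (tk (n + 1) (sel q.1)) (2 * tk (n + 1) (sel q.1)),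
    nuG CB LangEq (Nat.factorial (n + 1)) (wt ((j : ℝ)⁻¹)) q.1 (sel q.1) q.2) /
      (tk (n + 1) (sel q.1) : ℝ) := by
    funext q
    simp only [lamM, laG]
  rw [he]
  exact h

end Pool.MP_7d5b89_lc.Amen
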