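import Pool.Agent.Lib.MP_7d5b89_lc.A3
import Pool.Agent.Lib.MP_7d5b89_lc.B1
import Pool.Agent.Lib.MP_7d5b89_lc.B2
import Pool.Agent.Lib.MP_7d5b89_lc.B3

set_option autoImplicit false

open Filter Topology

/-! B6 (20 min). On T the measurable version is the exact one: tgt p π i (sel X) is in T (a3_T, b1_mem),
so CB X (tgt ..) iff Conj X (tgt ..) (b3_iff) and LangEq (tgt ..) Z iff tgt .. = Z (b2_lang,
a1_closed). -/

namespace Pool.MP_7d5b89_lc.Amen

theorem b6_muG (p : ℕ) [NeZero p] {X Z : Set Seq} (hX : X ∈ T) (hZ : Z ∈ T) (i : ℤ) {y : Seq}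
    (hy : y ∈ X) : muG CB LangEq p X i y Z = muG Conj Eq p X i y Z := by
  have h1 : ∀ π : Equiv.Perm (ZMod p → Bool), CB X (tgt p π i y) ↔ Conj X (tgt p π i y) :=
    fun π => b3_iff hX (a3_T p π hX hy i)
  have h2 : ∀ π : Equiv.Perm (ZMod p → Bool), LangEq (tgt p π i y) Z ↔ tgt p π i y = Z := by
    intro π
    constructor
    · exact b2_lang (a1_closed (a3_T p π hX hy i)) (a1_closed hZ)
    · intro h
      rw [h]
      exact fun s u => Iff.rfl
  classical
  unfold muG
  congr 3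
  · exact Finset.filter_congr fun π _ => by rw [h1, h2]
  · exact Finset.filter_congr fun π _ => by rw [h1]

theorem b6_eq (n : ℕ) {X Z : Set Seq} (hX : X ∈ T) (hZ : Z ∈ T) :
    lamM n (X, Z) = la (n + 1) X (sel X) Z := by
  have hs : sel X ∈ X := b1_mem hX
  unfold lamM la laG nuG
  simp only [b6_muG _ hX hZ _ hs]

end Pool.MP_7d5b89_lc.Amen
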