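import Pool.Agent.Lib.MP_7d5b89_lc.A8

set_option autoImplicit false

open Filter Topology

/-! C1 (45 min). Reg ⊆ ClassA: let a > 0, B; choose R with exp (a R) >= 2 B, ε = 1 / (4 R + 4),
p from Reg (replace p by a multiple, e.g. p * R, the density of holes does not increase, so that
p >= R): the number of i in [0, p) with win p x i < R is at most (2 R + 1) times the number of holes,
at most p / 2 (every such i has a hole at distance < R; reduce it modulo p), so
avg a p x >= exp (a R) / 2 >= B. c1_log: if for all C some p >= 2 and i satisfy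
C log p <= win p x i then avg a p x >= exp (a C log p) / p = p^(aC - 1) >= 2^(aC - 1). -/

namespace Pool.MP_7d5b89_lc.Amen

open Classical in
/-- indicator of the holes -/
noncomputable def c1_h (p : ℕ) (x : Seq) (n : ℤ) : ℝ := if Det p x n then 0 else 1

theorem c1_h_nonneg (p : ℕ) (x : Seq) (n : ℤ) : 0 ≤ c1_h p x n := by
  unfold c1_h
  split_ifs
  · exact le_refl _
  · exact zero_le_one

theorem c1_h_one {p : ℕ} {x : Seq} {n : ℤ} (h : ¬ Det p x n) : c1_h p x n = 1 := by
  unfold c1_h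
  rw [if_neg h]

theorem c1_h_le (p : ℕ) (x : Seq) (n : ℤ) : c1_h p x n ≤ 1 := by
  unfold c1_h
  split_ifs
  · exact zero_le_one
  · exact le_refl _

theorem c1_h_per (p : ℕ) (x : Seq) (n : ℤ) : c1_h p x (n + p) = c1_h p x n := by
  have h1 := a2_det_per p x n 1
  rw [one_mul] at h1
  unfold c1_h
  by_cases h2 : Det p x n
  · rw [if_pos h2, if_pos (h1.mpr h2)]
  · rw [if_neg h2, if_neg (fun h3 => h2 (h1.mp h3))]

theorem c1_card (p : ℕ) (x : Seq) :
    (Set.ncard {n : ℤ | 0 ≤ n ∧ n < p ∧ ¬ Det p x n} : ℝ) =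
      ∑ i ∈ Finset.range p, c1_h p x i := by
  classical
  have h1 : {n : ℤ | 0 ≤ n ∧ n < p ∧ ¬ Det p x n} =
      (fun i : ℕ => (i : ℤ)) '' ((Finset.range p).filter (fun i : ℕ => ¬ Det p x (i : ℤ)) : Set ℕ) := by
    ext n
    simp only [Set.mem_setOf_eq, Set.mem_image, Finset.coe_filter, Finset.mem_range]
    constructor
    · rintro ⟨h2, h3, h4⟩
      refine ⟨n.toNat, ⟨by omega, ?_⟩, by omega⟩
      rwa [Int.toNat_of_nonneg h2]
    · rintro ⟨i, ⟨h2, h3⟩, rfl⟩
      exact ⟨by omega, by omega, h3⟩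
  rw [h1, Set.ncard_image_of_injective _ Nat.cast_injective, Set.ncard_coe_finset,
    Finset.card_filter]
  push_cast
  refine Finset.sum_congr rfl fun i _ => ?_
  unfold c1_h
  by_cases h2 : Det p x (i : ℤ)
  · rw [if_pos h2, if_neg (not_not.mpr h2)]
  · rw [if_neg h2, if_pos h2]

theorem c1_sum (p : ℕ) [NeZero p] (r : ℕ) (g h : ℤ → ℝ) (hg : ∀ i, g (i + p) = g i)
    (hh : ∀ n, h n ≤ ∑ j ∈ Finset.Icc (-(r : ℤ)) r, g (n + j)) :
    ∑ i ∈ Finset.range p, h i ≤ (2 * r + 1) * ∑ i ∈ Finset.range p, g i := by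
  calc ∑ i ∈ Finset.range p, h i
      ≤ ∑ i ∈ Finset.range p, ∑ j ∈ Finset.Icc (-(r : ℤ)) r, g (i + j) :=
        Finset.sum_le_sum fun i _ => hh i
    _ = ∑ j ∈ Finset.Icc (-(r : ℤ)) r, ∑ i ∈ Finset.range p, g (i + j) := Finset.sum_comm
    _ = ∑ j ∈ Finset.Icc (-(r : ℤ)) r, ∑ i ∈ Finset.range p, g i :=
        Finset.sum_congr rfl fun j _ => a2_sum p g hg j
    _ = (2 * r + 1) * ∑ i ∈ Finset.range p, g i := by
        rw [Finset.sum_const, Int.card_Icc, nsmul_eq_mul]
        congr 1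
        have : ((r : ℤ) + 1 - -(r : ℤ)).toNat = 2 * r + 1 := by omega
        rw [this]
        push_cast
        ring

theorem c1_win {p : ℕ} {x : Seq} {i : ℤ} {R : ℕ} (hR : R ≤ p) (h : win p x i < R) :
    ∃ j : ℤ, |j| < R ∧ ¬ Det p x (i + j) := by
  by_contra hcon
  push Not at hcon
  have h1 : R ≤ win p x i := by
    classical
    unfold win
    exact Nat.le_findGreatest hR hcon
  omega

theorem c1_reg : Reg ⊆ ClassA := by
  rintro Y ⟨x, hx, rfl, hreg⟩
  refine ⟨x, hx, rfl, fun a ha B => ?_⟩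
  obtain ⟨R, hR⟩ : ∃ R : ℕ, 2 * B ≤ Real.exp (a * R) := by
    obtain ⟨R, hR⟩ := exists_nat_gt ((2 * B) / a)
    refine ⟨R, ?_⟩
    have h1 : 2 * B < a * R := by
      rw [div_lt_iff₀ ha] at hR
      linarith
    have h2 := Real.add_one_le_exp (a * R)
    linarith
  have hRp : (0 : ℝ) < 4 * (R : ℝ) + 4 := by positivity
  obtain ⟨p, hp, hhole⟩ := hreg (1 / (4 * (R : ℝ) + 4)) (by positivity)
  haveI : NeZero p := ⟨by omega⟩
  have hp' : (0 : ℝ) < p := by exact_mod_cast hp
  rw [c1_card] at hhole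
  -- at least one hole
  have hone : (1 : ℝ) ≤ ∑ i ∈ Finset.range p, c1_h p x i := by
    obtain ⟨n, hn⟩ := hx.2 p (by exact_mod_cast hp.ne')
    have h1 : ¬ Det p x n := by
      intro h2
      apply hn
      have := h2 1
      rwa [one_mul] at this
    have h2 : ¬ Det p x (((n % p).toNat : ℕ) : ℤ) := by
      have h3 : (0 : ℤ) ≤ n % p := Int.emod_nonneg _ (by exact_mod_cast hp.ne')
      rw [Int.toNat_of_nonneg h3]
      intro h4
      apply h1
      have h5 := (a2_det_per p x (n % p) (n / p)).mpr h4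
      have h6 : n % p + n / p * p = n := by
        rw [mul_comm]
        exact Int.emod_add_mul_ediv n p
      rwa [h6] at h5
    have h3 : (n % p).toNat ∈ Finset.range p := by
      rw [Finset.mem_range]
      have := Int.emod_lt_of_pos n (by exact_mod_cast hp : (0 : ℤ) < p)
      omega
    calc (1 : ℝ) = c1_h p x (((n % p).toNat : ℕ) : ℤ) := (c1_h_one h2).symm
      _ ≤ _ := Finset.single_le_sum (f := fun i : ℕ => c1_h p x (i : ℤ))
          (fun i _ => c1_h_nonneg p x i) h3
  have hRlep : R ≤ p := by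
    have h1 : 1 ≤ 1 / (4 * (R : ℝ) + 4) * p := le_trans hone hhole
    have h2 : 4 * (R : ℝ) + 4 ≤ p := by
      rw [one_div, inv_mul_eq_div, le_div_iff₀ hRp] at h1
      linarith
    have h3 : (R : ℝ) ≤ p := by
      have : (0 : ℝ) ≤ R := Nat.cast_nonneg _
      linarith
    exact_mod_cast h3
  refine ⟨p, hp, ?_⟩
  -- bad positions
  have hbad := c1_sum p R (c1_h p x) (fun i => if win p x i < R then (1 : ℝ) else 0)
    (c1_h_per p x) (by
      intro n
      by_cases hw : win p x n < R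
      · obtain ⟨j, hj, hj2⟩ := c1_win hRlep hw
        simp only [if_pos hw]
        calc (1 : ℝ) = c1_h p x (n + j) := (c1_h_one hj2).symm
          _ ≤ _ := Finset.single_le_sum (f := fun j : ℤ => c1_h p x (n + j))
              (fun i _ => c1_h_nonneg p x _) (by
                rw [Finset.mem_Icc]
                rw [abs_lt] at hj
                constructor <;> omega)
      · simp only [if_neg hw]
        exact Finset.sum_nonneg fun j _ => c1_h_nonneg p x _)
  have hterm : ∀ i ∈ Finset.range p, Real.exp (a * R) * (1 - (if win p x i < R then (1 : ℝ) else 0))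
      ≤ Real.exp (a * win p x i) := by
    intro i _
    by_cases hw : win p x i < R
    · rw [if_pos hw]
      simp only [sub_self, mul_zero]
      exact (Real.exp_pos _).le
    · rw [if_neg hw, sub_zero, mul_one]
      apply Real.exp_le_exp.mpr
      have h1 : (R : ℝ) ≤ win p x i := by exact_mod_cast not_lt.mp hw
      exact mul_le_mul_of_nonneg_left h1 ha.le
  have hsum := Finset.sum_le_sum hterm
  rw [← Finset.mul_sum, Finset.sum_sub_distrib, Finset.sum_const, Finset.card_range,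
    nsmul_eq_mul, mul_one] at hsum
  unfold avg
  rw [le_div_iff₀ hp']
  have hhalf : (2 * (R : ℝ) + 1) * ∑ i ∈ Finset.range p, c1_h p x i ≤ p / 2 := by
    have h1 : (2 * (R : ℝ) + 1) * ∑ i ∈ Finset.range p, c1_h p x i ≤
        (2 * (R : ℝ) + 1) * (1 / (4 * (R : ℝ) + 4) * p) :=
      mul_le_mul_of_nonneg_left hhole (by positivity)
    have h2 : (2 * (R : ℝ) + 1) * (1 / (4 * (R : ℝ) + 4) * p) ≤ p / 2 := by
      have h3 : (2 * (R : ℝ) + 1) * (1 / (4 * (R : ℝ) + 4)) ≤ 1 / 2 := by
        rw [mul_one_div, div_le_div_iff₀ hRp two_pos]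
        linarith
      nlinarith
    exact le_trans h1 h2
  have hfin : Real.exp (a * R) * (p / 2) ≤ ∑ i ∈ Finset.range p, Real.exp (a * win p x i) := by
    refine le_trans ?_ hsum
    refine mul_le_mul_of_nonneg_left ?_ (Real.exp_pos _).le
    linarith
  nlinarith

theorem c1_log (x : Seq) (hx : IsToeplitz x)
    (h : ∀ C : ℝ, ∃ p : ℕ, 2 ≤ p ∧ ∃ i : ℤ, C * Real.log p ≤ win p x i) : orb x ∈ ClassA := by
  refine ⟨x, hx, rfl, fun a ha B => ?_⟩
  obtain ⟨M, hM⟩ := pow_unbounded_of_one_lt B (one_lt_two : (1 : ℝ) < 2)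
  obtain ⟨p, hp, i, hi⟩ := h ((1 + M) / a)
  have hp0 : 0 < p := by omega
  have hp' : (0 : ℝ) < p := by exact_mod_cast hp0
  haveI : NeZero p := ⟨by omega⟩
  refine ⟨p, hp0, ?_⟩
  have hmod : win p x (((i % p).toNat : ℕ) : ℤ) = win p x i := by
    have h3 : (0 : ℤ) ≤ i % p := Int.emod_nonneg _ (by exact_mod_cast hp0.ne')
    rw [Int.toNat_of_nonneg h3]
    have h5 := a2_win_per p x (i % p) (i / p)
    have h6 : i % p + i / p * p = i := by
      rw [mul_comm]
      exact Int.emod_add_mul_ediv i p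
    rw [h6] at h5
    exact h5.symm
  have hmem : (i % p).toNat ∈ Finset.range p := by
    rw [Finset.mem_range]
    have := Int.emod_lt_of_pos i (by exact_mod_cast hp0 : (0 : ℤ) < p)
    omega
  unfold avg
  rw [le_div_iff₀ hp']
  have h1 : Real.exp (a * win p x i) ≤ ∑ i ∈ Finset.range p, Real.exp (a * win p x i) := by
    rw [← hmod]
    exact Finset.single_le_sum (f := fun i : ℕ => Real.exp (a * win p x (i : ℤ)))
      (fun i _ => (Real.exp_pos _).le) hmem
  refine le_trans ?_ h1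
  have h2 : (1 + (M : ℝ)) * Real.log p ≤ a * win p x i := by
    have h3 := mul_le_mul_of_nonneg_left hi ha.le
    have h4 : a * ((1 + (M : ℝ)) / a * Real.log p) = (1 + (M : ℝ)) * Real.log p := by
      field_simp
    rw [h4] at h3
    exact h3
  refine le_trans ?_ (Real.exp_le_exp.mpr h2)
  have h5 : Real.exp ((1 + (M : ℝ)) * Real.log p) = (p : ℝ) ^ (M + 1) := by
    have : (1 + (M : ℝ)) * Real.log p = Real.log p * ((M + 1 : ℕ) : ℝ) := by push_cast; ring
    rw [this, ← Real.rpow_def_of_pos hp', Real.rpow_natCast]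
  rw [h5, pow_succ]
  refine mul_le_mul_of_nonneg_right ?_ hp'.le
  refine le_trans hM.le ?_
  exact pow_le_pow_left₀ (by norm_num) (by exact_mod_cast hp) M

theorem c1_sub : ClassA ⊆ T := by
  rintro Y ⟨x, hx, rfl, _⟩
  exact ⟨x, hx, rfl⟩

end Pool.MP_7d5b89_lc.Amen
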