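import Pool.Agent.Lib.MP_7d5b89_lc.A4
import Pool.Agent.Lib.MP_7d5b89_lc.A6
import Pool.Agent.Lib.MP_7d5b89_lc.A8
import Pool.Agent.Lib.MP_7d5b89_lc.C1

set_option autoImplicit false

open Filter Topology

/-! C2 (40 min). Invariance of the classes under conjugacy. Let φ be an IsCode (a4_code), x the
Toeplitz point of X. c2_A: avg a p (φ x) >= exp (-a r) avg a p x (a6_win1), Z contains a Toeplitz
point z with orb z = Z, avg a p z = avg a p (φ x) (a8_avg). c2_Reg: by a6_det a hole of φ x modulo p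
has a hole of x at distance <= r, so the number of holes of φ x in a period is at most (2 r + 1)
times the number of holes of x; the number of holes in a period is the same for all points of Z
(a1_piece, a2_det, a2_det_sh, periodicity). -/

namespace Pool.MP_7d5b89_lc.Amen

theorem c2_A {X Z : Set Seq} (hX : X ∈ ClassA) (hXT : X ∈ T) (hZ : Z ∈ T) (h : Conj X Z) :
    Z ∈ ClassA := by
  obtain ⟨x, hx, hXx, hA⟩ := hX
  obtain ⟨z, hz, hZz⟩ := hZ
  have hZ' : Z ∈ T := ⟨z, hz, hZz⟩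
  obtain ⟨r, φ, hφ⟩ := a4_code hXT hZ' h
  refine ⟨z, hz, hZz, fun a ha B => ?_⟩
  obtain ⟨p, hp, hpB⟩ := hA a ha (Real.exp (a * r) * B)
  haveI : NeZero p := ⟨by omega⟩
  have hp' : (0 : ℝ) < p := by exact_mod_cast hp
  refine ⟨p, hp, ?_⟩
  have hxX : x ∈ X := by rw [hXx]; exact a1_pc_sub_orb p x (a1_mem p x)
  have hzZ : z ∈ Z := by rw [hZz]; exact a1_pc_sub_orb p z (a1_mem p z)
  have hyZ : φ x ∈ Z := hφ.bij.mapsTo hxX
  rw [a8_avg a p hZ' hzZ hyZ]
  have h1 : avg a p x ≤ Real.exp (a * r) * avg a p (φ x) := by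
    unfold avg
    rw [← mul_div_assoc, div_le_div_iff_of_pos_right hp', Finset.mul_sum]
    refine Finset.sum_le_sum fun i _ => ?_
    rw [← Real.exp_add]
    apply Real.exp_le_exp.mpr
    have h2 : (win p x i : ℝ) ≤ win p (φ x) i + r := by exact_mod_cast a6_win1 hXT hφ hxX i
    nlinarith
  have h3 : Real.exp (a * r) * B ≤ Real.exp (a * r) * avg a p (φ x) := le_trans hpB h1
  exact le_of_mul_le_mul_left h3 (Real.exp_pos _)

theorem c2_Reg {X Z : Set Seq} (hX : X ∈ Reg) (hXT : X ∈ T) (hZ : Z ∈ T) (h : Conj X Z) :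
    Z ∈ Reg := by
  obtain ⟨x, hx, hXx, hR⟩ := hX
  obtain ⟨z, hz, hZz⟩ := hZ
  have hZ' : Z ∈ T := ⟨z, hz, hZz⟩
  obtain ⟨r, φ, hφ⟩ := a4_code hXT hZ' h
  refine ⟨z, hz, hZz, fun ε hε => ?_⟩
  have hr : (0 : ℝ) < 2 * (r : ℝ) + 1 := by positivity
  obtain ⟨p, hp, hhole⟩ := hR (ε / (2 * (r : ℝ) + 1)) (by positivity)
  haveI : NeZero p := ⟨by omega⟩
  refine ⟨p, hp, ?_⟩
  have hxX : x ∈ X := by rw [hXx]; exact a1_pc_sub_orb p x (a1_mem p x)
  have hzZ : z ∈ Z := by rw [hZz]; exact a1_pc_sub_orb p z (a1_mem p z)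
  have hyZ : φ x ∈ Z := hφ.bij.mapsTo hxX
  rw [c1_card] at hhole ⊢
  obtain ⟨j, hj⟩ := a1_piece hZ' p hyZ hzZ
  have e1 : ∑ i ∈ Finset.range p, c1_h p z i = ∑ i ∈ Finset.range p, c1_h p (φ x) i := by
    rw [← a2_sum p (c1_h p (φ x)) (c1_h_per p (φ x)) j]
    refine Finset.sum_congr rfl fun i _ => ?_
    have h1 : Det p z i ↔ Det p (φ x) (i + j) := by
      rw [a2_det hj, a2_det_sh]
    unfold c1_h
    by_cases h2 : Det p z i
    · rw [if_pos h2, if_pos (h1.mp h2)]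
    · rw [if_neg h2, if_neg (fun h3 => h2 (h1.mpr h3))]
  have e2 := c1_sum p r (c1_h p x) (c1_h p (φ x)) (c1_h_per p x) (by
    intro n
    by_cases h1 : ∃ j : ℤ, |j| ≤ r ∧ ¬ Det p x (n + j)
    · obtain ⟨j, hj1, hj2⟩ := h1
      calc c1_h p (φ x) n ≤ 1 := c1_h_le _ _ _
        _ = c1_h p x (n + j) := (c1_h_one hj2).symm
        _ ≤ _ := Finset.single_le_sum (f := fun j : ℤ => c1_h p x (n + j))
              (fun i _ => c1_h_nonneg p x _) (by
                rw [Finset.mem_Icc]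
                rw [abs_le] at hj1
                exact hj1)
    · push Not at h1
      have h2 : Det p (φ x) n := a6_det hXT hφ hxX n h1
      have h3 : c1_h p (φ x) n = 0 := by
        unfold c1_h
        rw [if_pos h2]
      rw [h3]
      exact Finset.sum_nonneg fun j _ => c1_h_nonneg p x _)
  rw [e1]
  refine le_trans e2 ?_
  refine le_trans (mul_le_mul_of_nonneg_left hhole hr.le) (le_of_eq ?_)
  field_simp

end Pool.MP_7d5b89_lc.Amen
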