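import Mathlib

set_option autoImplicit false

open Filter Topology

/-! Definitions for the amenability of topological conjugacy of Toeplitz subshifts.
`Seq`, `T`, `mS`, `Conj` are the objects of the frozen statement S14945. -/

namespace Pool.MP_7d5b89_lc.Amen

/-- two sided binary sequences -/
abbrev Seq : Type := ℤ → Bool

/-- the shift by `k` -/
def sh (k : ℤ) (x : Seq) : Seq := fun i => x (i + k)

/-- orbit closure of a sequence under the shift -/
def orb (x : Seq) : Set Seq := closure (Set.range fun m : ℤ => fun i : ℤ => x (i + m))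

/-- non-periodic Toeplitz sequences -/
def IsToeplitz (x : Seq) : Prop :=
  (∀ n : ℤ, ∃ p : ℤ, 0 < p ∧ ∀ k : ℤ, x (n + k * p) = x n) ∧
  (∀ p : ℤ, p ≠ 0 → ∃ n : ℤ, x (n + p) ≠ x n)

/-- the set of Toeplitz subshifts -/
def T : Set (Set Seq) := {Y | ∃ x : Seq, IsToeplitz x ∧ Y = orb x}

/-- Effros Borel structure -/
@[reducible] def mS : MeasurableSpace (Set Seq) := MeasurableSpace.generateFrom
  {A : Set (Set Seq) | ∃ s : Finset ℤ, ∃ w : ℤ → Bool, A = {Y | ∃ y ∈ Y, ∀ i ∈ s, y i = w i}}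

/-- product Borel structure on pairs -/
@[reducible] def mSS : MeasurableSpace (Set Seq × Set Seq) :=
  MeasurableSpace.comap Prod.fst mS ⊔ MeasurableSpace.comap Prod.snd mS

/-- topological conjugacy -/
def Conj (Y Z : Set Seq) : Prop := ∃ φ : Seq → Seq,
  ContinuousOn φ Y ∧ Set.BijOn φ Y Z ∧ ∀ y ∈ Y, φ (fun i => y (i + 1)) = (fun i => φ y (i + 1))

/-- position `n` is `p`-determined in `x` -/
def Det (p : ℕ) (x : Seq) (n : ℤ) : Prop := ∀ k : ℤ, x (n + k * p) = x n

open Classical in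
/-- the largest `m ≤ p` such that all positions at distance less than `m` from `i` are
`p`-determined -/
noncomputable def win (p : ℕ) (x : Seq) (i : ℤ) : ℕ :=
  Nat.findGreatest (fun m => ∀ j : ℤ, |j| < m → Det p x (i + j)) p

/-- mean over the positions modulo `p` of `exp (a * win)` -/
noncomputable def avg (a : ℝ) (p : ℕ) (x : Seq) : ℝ :=
  (∑ i ∈ Finset.range p, Real.exp (a * win p x i)) / p

/-- Toeplitz subshifts with long determined windows which are not exponentially rare -/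
def ClassA : Set (Set Seq) := {Y | ∃ x : Seq, IsToeplitz x ∧ Y = orb x ∧
  ∀ a : ℝ, 0 < a → ∀ B : ℝ, ∃ p : ℕ, 0 < p ∧ B ≤ avg a p x}

/-- regular Toeplitz subshifts: the density of positions which are not `p`-determined has
infimum `0` over `p` -/
def Reg : Set (Set Seq) := {Y | ∃ x : Seq, IsToeplitz x ∧ Y = orb x ∧
  ∀ ε : ℝ, 0 < ε → ∃ p : ℕ, 0 < p ∧
    (Set.ncard {n : ℤ | 0 ≤ n ∧ n < p ∧ ¬ Det p x n} : ℝ) ≤ ε * p}

/-- `Conj` restricted to the class `C` is Borel 1-amenable: there are Borel functions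
`lam n`, finitely supported probability measures on the class of `X`, which are
asymptotically invariant in total variation. -/
def OneAmenableOn (C : Set (Set Seq)) : Prop :=
  ∃ lam : ℕ → Set Seq × Set Seq → ℝ,
    (∀ n, @Measurable _ _ mSS _ (lam n)) ∧
    (∀ n q, 0 ≤ lam n q) ∧
    (∀ n, ∀ X ∈ C, {Z | Z ∈ C ∧ lam n (X, Z) ≠ 0}.Finite) ∧
    (∀ n, ∀ X ∈ C, ∀ Z ∈ C, lam n (X, Z) ≠ 0 → Conj X Z) ∧
    (∀ n, ∀ X ∈ C, ∑ᶠ Z ∈ C, lam n (X, Z) = 1) ∧
    (∀ X ∈ C, ∀ Y ∈ C, Conj X Y →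
      Tendsto (fun n => ∑ᶠ Z ∈ C, |lam n (X, Z) - lam n (Y, Z)|) atTop (𝓝 0))

/-! ### auxiliary objects -/

/-- the piece of `x` at level `p`: orbit closure under the shift by `p` -/
def pc (p : ℕ) (x : Seq) : Set Seq := closure (Set.range fun k : ℤ => sh (k * p) x)

/-- the block of `x` on `[b p, (b+1) p)` -/
def blk (p : ℕ) (x : Seq) (b : ℤ) : ZMod p → Bool := fun c => x (b * p + (c.val : ℤ))

/-- recoding of all blocks by a permutation of the set of blocks -/
def rcd (p : ℕ) (π : Equiv.Perm (ZMod p → Bool)) (x : Seq) : Seq :=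
  fun n => π (blk p x (n / p)) (n : ZMod p)

/-- orbit closure of the recoding with blocks cut at `i` -/
def tgt (p : ℕ) (π : Equiv.Perm (ZMod p → Bool)) (i : ℤ) (y : Seq) : Set Seq :=
  orb (rcd p π (sh i y))

open Classical in
/-- distribution of `tgt p π i y` for a uniformly random `π` among those with
`R X (tgt p π i y)`, evaluated at `Z` through the relation `Q` -/
noncomputable def muG (R Q : Set Seq → Set Seq → Prop) (p : ℕ) [NeZero p] (X : Set Seq) (i : ℤ)
    (y : Seq) (Z : Set Seq) : ℝ :=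
  ((Finset.univ.filter (fun π : Equiv.Perm (ZMod p → Bool) =>
      R X (tgt p π i y) ∧ Q (tgt p π i y) Z)).card : ℝ) /
    ((Finset.univ.filter (fun π : Equiv.Perm (ZMod p → Bool) => R X (tgt p π i y))).card : ℝ)

/-- average of the `muG` over the cuts `i` with weights `w (win p y i)` -/
noncomputable def nuG (R Q : Set Seq → Set Seq → Prop) (p : ℕ) [NeZero p] (w : ℕ → ℝ)
    (X : Set Seq) (y : Seq) (Z : Set Seq) : ℝ :=
  (∑ i ∈ Finset.range p, w (win p y i) * muG R Q p X i y Z) /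
    ∑ i ∈ Finset.range p, w (win p y i)

/-- the weight `exp (a m)` -/
noncomputable def wt (a : ℝ) (m : ℕ) : ℝ := Real.exp (a * m)

open Classical in
/-- the largest `t ≤ k` with `t ≤ avg (1/(2t)) k! y` -/
noncomputable def tk (k : ℕ) (y : Seq) : ℕ :=
  Nat.findGreatest (fun t => (t : ℝ) ≤ avg ((2 * (t : ℝ))⁻¹) (Nat.factorial k) y) k

instance neFac (k : ℕ) : NeZero (Nat.factorial k) := ⟨Nat.factorial_ne_zero k⟩

/-- the mixture over `j ∈ [t, 2t)`, `t = tk k y`, of the averages with weight `exp (m/j)` -/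
noncomputable def laG (R Q : Set Seq → Set Seq → Prop) (k : ℕ) (X : Set Seq) (y : Seq)
    (Z : Set Seq) : ℝ :=
  (∑ j ∈ Finset.Ico (tk k y) (2 * tk k y), nuG R Q (Nat.factorial k) (wt ((j : ℝ)⁻¹)) X y Z) / (tk k y : ℝ)

/-- `muG` for `Conj` and equality -/
noncomputable def mu (p : ℕ) [NeZero p] (X : Set Seq) (i : ℤ) (y : Seq) (Z : Set Seq) : ℝ :=
  muG Conj Eq p X i y Z

/-- `nuG` for `Conj` and equality -/
noncomputable def nu (p : ℕ) [NeZero p] (w : ℕ → ℝ) (X : Set Seq) (y : Seq) (Z : Set Seq) : ℝ :=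
  nuG Conj Eq p w X y Z

/-- `laG` for `Conj` and equality -/
noncomputable def la (k : ℕ) (X : Set Seq) (y : Seq) (Z : Set Seq) : ℝ :=
  laG Conj Eq k X y Z

/-- `φ` is a conjugacy of `X` onto `Z` such that `φ` and its inverse are block codes of
radius `r` -/
structure IsCode (r : ℕ) (X Z : Set Seq) (φ : Seq → Seq) : Prop where
  bij : Set.BijOn φ X Z
  eqv : ∀ x ∈ X, ∀ k : ℤ, φ (sh k x) = sh k (φ x)
  loc : ∀ x ∈ X, ∀ y ∈ X, ∀ i : ℤ, (∀ j : ℤ, |j| ≤ r → x (i + j) = y (i + j)) → φ x i = φ y i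
  inv : ∀ x ∈ X, ∀ y ∈ X, ∀ i : ℤ, (∀ j : ℤ, |j| ≤ r → φ x (i + j) = φ y (i + j)) → x i = y i

/-! ### measurable versions -/

/-- same language -/
def LangEq (Y Z : Set Seq) : Prop := ∀ s u : Finset ℤ,
  (∃ y ∈ Y, ∀ i ∈ s, (y i = true ↔ i ∈ u)) ↔ (∃ z ∈ Z, ∀ i ∈ s, (z i = true ↔ i ∈ u))

/-- the block code of radius `r` with rule `f` -/
def code (r : ℕ) (f : (Fin (2 * r + 1) → Bool) → Bool) (x : Seq) : Seq :=
  fun i => f (fun j => x (i + (j : ℤ) - r))

/-- conjugacy in terms of languages and block codes -/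
def CB (X Z : Set Seq) : Prop := ∃ r : ℕ, ∃ f g : (Fin (2 * r + 1) → Bool) → Bool,
  (∀ x ∈ X, code r g (code r f x) 0 = x 0) ∧
  (∀ z ∈ Z, code r f (code r g z) 0 = z 0) ∧
  (∀ n : ℕ, ∀ x ∈ X, ∃ z ∈ Z, ∀ i : ℤ, |i| ≤ n → z i = code r f x i) ∧
  (∀ n : ℕ, ∀ z ∈ Z, ∃ x ∈ X, ∀ i : ℤ, |i| ≤ n → x i = code r g z i)

/-- an enumeration of the integers -/
def en : ℕ → ℤ := Equiv.intEquivNat.symm

open Classical in
/-- greedy selector: first `n` steps -/
noncomputable def selP (X : Set Seq) : ℕ → (ℕ → Bool)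
  | 0 => fun _ => false
  | n + 1 => Function.update (selP X n) n
      (if ∃ y ∈ X, (∀ j < n, y (en j) = selP X n j) ∧ y (en n) = false then false else true)

/-- greedy selector -/
noncomputable def sel (X : Set Seq) : Seq := fun i =>
  selP X (Equiv.intEquivNat i + 1) (Equiv.intEquivNat i)

/-- the reiter functions -/
noncomputable def lamM (n : ℕ) (q : Set Seq × Set Seq) : ℝ :=
  laG CB LangEq (n + 1) q.1 (sel q.1) q.2

end Pool.MP_7d5b89_lc.Amen
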