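import Pool.Agent.Lib.MP_7d5b89_lc.A12
import Pool.Agent.Lib.MP_7d5b89_lc.B5
import Pool.Agent.Lib.MP_7d5b89_lc.B6
import Pool.Agent.Lib.MP_7d5b89_lc.C1
import Pool.Agent.Lib.MP_7d5b89_lc.C2

set_option autoImplicit false

open Filter Topology

namespace Pool.MP_7d5b89_lc.Amen

theorem fin_amenable (C : Set (Set Seq)) (hCA : C ⊆ ClassA)
    (hinv : ∀ X ∈ C, ∀ Z ∈ T, Conj X Z → Z ∈ C) : OneAmenableOn C := by
  classical
  have hCT : C ⊆ T := fun X hX => c1_sub (hCA hX)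
  refine ⟨lamM, b5_meas, fun n q => a12_nonneg _ _ _ _ _ _, ?_, ?_, ?_, ?_⟩
  · intro n X hX
    refine (a12_fin (n + 1) X (sel X)).subset ?_
    rintro Z ⟨hZ, h⟩
    rw [b6_eq n (hCT hX) (hCT hZ)] at h
    exact h
  · intro n X hX Z hZ h
    rw [b6_eq n (hCT hX) (hCT hZ)] at h
    exact (a12_supp (n + 1) (hCT hX) (b1_mem (hCT hX)) Z h).1
  · intro n X hX
    have h1 : ∑ᶠ Z ∈ C, lamM n (X, Z) = ∑ᶠ Z ∈ C, la (n + 1) X (sel X) Z :=
      finsum_mem_congr rfl (fun Z hZ => b6_eq n (hCT hX) (hCT hZ))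
    have hfin := a12_fin (n + 1) X (sel X)
    rw [h1, finsum_mem_eq_sum_of_inter_support_eq (t := hfin.toFinset)]
    · exact a12_sum (n + 1) (by omega) (hCT hX) (b1_mem (hCT hX)) _ (fun Z h => by simpa using h)
    · ext Z
      constructor
      · rintro ⟨_, h⟩
        exact ⟨by simpa using h, h⟩
      · rintro ⟨_, h⟩
        refine ⟨?_, h⟩
        obtain ⟨h2, h3⟩ := a12_supp (n + 1) (hCT hX) (b1_mem (hCT hX)) Z h
        exact hinv X hX Z h3 h2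
  · intro X hX Y hY hXY
    rw [Metric.tendsto_atTop]
    intro ε hε
    obtain ⟨K, hK⟩ := a12_lim (hCA hX) (hCT hX) (hCT hY) hXY (ε / 2) (by positivity)
    refine ⟨K, fun n hn => ?_⟩
    have h1 : ∑ᶠ Z ∈ C, |lamM n (X, Z) - lamM n (Y, Z)| =
        ∑ᶠ Z ∈ C, |la (n + 1) X (sel X) Z - la (n + 1) Y (sel Y) Z| :=
      finsum_mem_congr rfl (fun Z hZ => by
        rw [b6_eq n (hCT hX) (hCT hZ), b6_eq n (hCT hY) (hCT hZ)])
    have hfX := a12_fin (n + 1) X (sel X)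
    have hfY := a12_fin (n + 1) Y (sel Y)
    have h2 := hK (n + 1) (by omega) (sel X) (b1_mem (hCT hX)) (sel Y) (b1_mem (hCT hY))
      (hfX.toFinset ∪ hfY.toFinset)
    have h3 : ∑ᶠ Z ∈ C, |la (n + 1) X (sel X) Z - la (n + 1) Y (sel Y) Z| =
        ∑ Z ∈ hfX.toFinset ∪ hfY.toFinset,
          |la (n + 1) X (sel X) Z - la (n + 1) Y (sel Y) Z| := by
      refine finsum_mem_eq_sum_of_inter_support_eq _ ?_
      ext Z
      constructor
      · rintro ⟨_, h⟩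
        refine ⟨?_, h⟩
        by_contra hc
        have hc' : la (n + 1) X (sel X) Z = 0 ∧ la (n + 1) Y (sel Y) Z = 0 := by
          simpa using hc
        apply h
        simp [hc'.1, hc'.2]
      · rintro ⟨h0, h⟩
        refine ⟨?_, h⟩
        have h0' : la (n + 1) X (sel X) Z ≠ 0 ∨ la (n + 1) Y (sel Y) Z ≠ 0 := by
          simpa using h0
        rcases h0' with h0' | h0'
        · obtain ⟨h4, h5⟩ := a12_supp (n + 1) (hCT hX) (b1_mem (hCT hX)) Z h0'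
          exact hinv X hX Z h5 h4
        · obtain ⟨h4, h5⟩ := a12_supp (n + 1) (hCT hY) (b1_mem (hCT hY)) Z h0'
          exact hinv Y hY Z h5 h4
    rw [h1, h3, Real.dist_eq, sub_zero, abs_of_nonneg (Finset.sum_nonneg fun _ _ => abs_nonneg _)]
    linarith

/-- final theorem -/
theorem fin_main :
    Reg ⊆ ClassA ∧ ClassA ⊆ T ∧
    (∀ X ∈ ClassA, ∀ Z ∈ T, Conj X Z → Z ∈ ClassA) ∧
    (∀ X ∈ Reg, ∀ Z ∈ T, Conj X Z → Z ∈ Reg) ∧
    (∀ x : Seq, IsToeplitz x →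
      (∀ C : ℝ, ∃ p : ℕ, 2 ≤ p ∧ ∃ i : ℤ, C * Real.log p ≤ win p x i) → orb x ∈ ClassA) ∧
    OneAmenableOn Reg ∧ OneAmenableOn ClassA := by
  have hA : ∀ X ∈ ClassA, ∀ Z ∈ T, Conj X Z → Z ∈ ClassA :=
    fun X hX Z hZ h => c2_A hX (c1_sub hX) hZ h
  have hR : ∀ X ∈ Reg, ∀ Z ∈ T, Conj X Z → Z ∈ Reg :=
    fun X hX Z hZ h => c2_Reg hX (c1_sub (c1_reg hX)) hZ h
  exact ⟨c1_reg, c1_sub, hA, hR, c1_log, fin_amenable Reg c1_reg hR,
    fin_amenable ClassA (fun _ h => h) hA⟩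

end Pool.MP_7d5b89_lc.Amen
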